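import Mathlib

set_option autoImplicit false
set_option linter.unusedSectionVars false
set_option linter.overlappingInstances false

open MeasureTheory Filter Topology
open scoped ENNReal

namespace Pool.Agent.H481R3.CG

universe u
variable {G : Type u} [CommGroup G] [TopologicalSpace G] [IsTopologicalGroup G] [CompactSpace G]
  [T2Space G] [MeasurableSpace G] [BorelSpace G]

section trans
variable (μ : Measure G) [μ.IsHaarMeasure] [IsProbabilityMeasure μ] [μ.Regular]
  (p : ℝ≥0∞) [Fact (1 ≤ p)]

/-- translation of `L^p(G)` by `x`: `(trans x g)(y) = g (x y)` -/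
noncomputable def trans (x : G) : Lp ℂ p μ →L[ℂ] Lp ℂ p μ :=
  (Lp.compMeasurePreservingₗᵢ ℂ (fun y => x * y) (measurePreserving_mul_left μ x)).toContinuousLinearMap

theorem trans_apply (x : G) (g : Lp ℂ p μ) :
    trans μ p x g = Lp.compMeasurePreserving (fun y => x * y) (measurePreserving_mul_left μ x) g := rfl

theorem norm_trans (x : G) (g : Lp ℂ p μ) : ‖trans μ p x g‖ = ‖g‖ := by
  rw [trans_apply, Lp.norm_compMeasurePreserving]

/-- left multiplication as a continuous map -/
def mulL (x : G) : C(G, G) := ⟨fun y => x * y, continuous_const.mul continuous_id⟩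

omit [CompactSpace G] [T2Space G] [MeasurableSpace G] [BorelSpace G] in
theorem continuous_mulL : Continuous (mulL : G → C(G, G)) :=
  ContinuousMap.continuous_of_continuous_uncurry _ continuous_mul

theorem continuous_trans (hp : p ≠ ∞) (g : Lp ℂ p μ) : Continuous fun x => trans μ p x g := by
  have := Continuous.compMeasurePreservingLp (μ := μ) (ν := μ) (f := fun _ : G => g)
    (g := (mulL : G → C(G, G))) continuous_const continuous_mulL
    (fun z => measurePreserving_mul_left μ z) hp
  exact this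

/-- the class of a continuous function -/
noncomputable def cl : C(G, ℂ) →L[ℂ] Lp ℂ p μ := ContinuousMap.toLp p μ ℂ

theorem cl_dense (hp : p ≠ ∞) : DenseRange (cl μ p) := ContinuousMap.toLp_denseRange ℂ μ ℂ hp

theorem norm_cl_le (f : C(G, ℂ)) : ‖cl μ p f‖ ≤ ‖f‖ := by
  have h := ContinuousMap.toLp_norm_le (μ := μ) (p := p) (𝕜 := ℂ) (E := ℂ) (α := G)
  have h2 : ‖cl μ p f‖ ≤ ‖(ContinuousMap.toLp p μ ℂ : C(G, ℂ) →L[ℂ] Lp ℂ p μ)‖ * ‖f‖ :=
    ContinuousLinearMap.le_opNorm _ f
  refine h2.trans ?_
  have h3 : ‖(ContinuousMap.toLp p μ ℂ : C(G, ℂ) →L[ℂ] Lp ℂ p μ)‖ ≤ 1 := by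
    refine h.trans ?_
    have h4 : measureUnivNNReal μ = 1 := by
      simp [measureUnivNNReal]
    rw [h4]
    simp
  nlinarith [norm_nonneg f]

theorem trans_cl (x : G) (f : C(G, ℂ)) : trans μ p x (cl μ p f) = cl μ p (f.comp (mulL x)) := by
  rw [trans_apply]
  apply Lp.ext
  have h1 := Lp.coeFn_compMeasurePreserving (cl μ p f) (measurePreserving_mul_left μ x)
  have h2 : (cl μ p f : G → ℂ) =ᵐ[μ] f := ContinuousMap.coeFn_toLp μ f
  have h3 : (cl μ p (f.comp (mulL x)) : G → ℂ) =ᵐ[μ] f.comp (mulL x) := ContinuousMap.coeFn_toLp μ _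
  have h4 := (measurePreserving_mul_left μ x).quasiMeasurePreserving.ae_eq_comp h2
  refine h1.trans (h4.trans ?_)
  refine EventuallyEq.trans ?_ h3.symm
  rfl

theorem trans_trans (x y : G) (g : Lp ℂ p μ) (hp : p ≠ ∞) :
    trans μ p x (trans μ p y g) = trans μ p (x * y) g := by
  have h : (trans μ p x).comp (trans μ p y) = trans μ p (x * y) := by
    apply ContinuousLinearMap.ext_on (s := Set.range (cl μ p))
    · have := cl_dense μ p hp
      refine this.mono ?_
      exact Submodule.subset_span
    · rintro _ ⟨f, rfl⟩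
      rw [ContinuousLinearMap.comp_apply, trans_cl, trans_cl, trans_cl]
      congr 1
      ext z
      change f (y * (x * z)) = f (x * y * z)
      congr 1
      rw [mul_comm x y, mul_assoc]
  exact DFunLike.congr_fun h g

theorem trans_one (g : Lp ℂ p μ) (hp : p ≠ ∞) : trans μ p 1 g = g := by
  have h : trans μ p (1 : G) = ContinuousLinearMap.id ℂ (Lp ℂ p μ) := by
    apply ContinuousLinearMap.ext_on (s := Set.range (cl μ p))
    · have := cl_dense μ p hp
      refine this.mono ?_
      exact Submodule.subset_span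
    · rintro _ ⟨f, rfl⟩
      rw [trans_cl, ContinuousLinearMap.id_apply]
      congr 1
      ext z
      change f (1 * z) = f z
      rw [one_mul]
  exact DFunLike.congr_fun h g

/-- integrability of continuous functions on the compact group -/
theorem integrable_cont {E : Type*} [NormedAddCommGroup E] {F : G → E} (hF : Continuous F) :
    Integrable F μ :=
  hF.integrable_of_hasCompactSupport (HasCompactSupport.of_compactSpace F)

/-- `Cop k g = ∫ k(y) (trans y g) dy` -/
noncomputable def Cop (hp : p ≠ ∞) (k : C(G, ℂ)) : Lp ℂ p μ →L[ℂ] Lp ℂ p μ :=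
  LinearMap.mkContinuous
    { toFun := fun g => ∫ y, k y • trans μ p y g ∂μ
      map_add' := fun g h => by
        rw [← integral_add]
        · congr 1
          funext y
          rw [map_add, smul_add]
        · exact integrable_cont μ (k.continuous.smul (continuous_trans μ p hp g))
        · exact integrable_cont μ (k.continuous.smul (continuous_trans μ p hp h))
      map_smul' := fun c g => by
        rw [RingHom.id_apply, ← integral_smul]
        congr 1
        funext y
        rw [map_smul, smul_comm] }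
    (∫ y, ‖k y‖ ∂μ) (fun g => by
      change ‖∫ y, k y • trans μ p y g ∂μ‖ ≤ _
      refine (norm_integral_le_integral_norm _).trans ?_
      rw [← integral_mul_const]
      apply le_of_eq
      congr 1
      funext y
      rw [norm_smul, norm_trans])

theorem Cop_apply (hp : p ≠ ∞) (k : C(G, ℂ)) (g : Lp ℂ p μ) :
    Cop μ p hp k g = ∫ y, k y • trans μ p y g ∂μ := rfl

theorem norm_Cop_le (hp : p ≠ ∞) (k : C(G, ℂ)) : ‖Cop μ p hp k‖ ≤ ∫ y, ‖k y‖ ∂μ :=
  LinearMap.mkContinuous_norm_le _ (integral_nonneg (fun _ => norm_nonneg _)) _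

theorem norm_Cop_le' (hp : p ≠ ∞) (k : C(G, ℂ)) : ‖Cop μ p hp k‖ ≤ ‖k‖ := by
  refine (norm_Cop_le μ p hp k).trans ?_
  calc ∫ y, ‖k y‖ ∂μ ≤ ∫ _y : G, ‖k‖ ∂μ := by
        apply integral_mono (integrable_cont μ k.continuous.norm) (integrable_const _)
        intro y
        exact k.norm_coe_le_norm y
    _ = ‖k‖ := by simp

theorem Cop_add (hp : p ≠ ∞) (k l : C(G, ℂ)) : Cop μ p hp (k + l) = Cop μ p hp k + Cop μ p hp l := by
  ext1 g
  rw [add_apply, Cop_apply, Cop_apply, Cop_apply, ← integral_add]
  · congr 1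
    funext y
    rw [ContinuousMap.add_apply, add_smul]
  · exact integrable_cont μ (k.continuous.smul (continuous_trans μ p hp g))
  · exact integrable_cont μ (l.continuous.smul (continuous_trans μ p hp g))

theorem Cop_smul (hp : p ≠ ∞) (c : ℂ) (k : C(G, ℂ)) : Cop μ p hp (c • k) = c • Cop μ p hp k := by
  ext1 g
  rw [smul_apply, Cop_apply, Cop_apply, ← integral_smul]
  congr 1
  funext y
  rw [ContinuousMap.smul_apply, smul_assoc]

theorem Cop_sub (hp : p ≠ ∞) (k l : C(G, ℂ)) : Cop μ p hp (k - l) = Cop μ p hp k - Cop μ p hp l := by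
  have : k - l = k + (-1 : ℂ) • l := by
    ext y
    simp [sub_eq_add_neg]
  rw [this, Cop_add, Cop_smul]
  simp [sub_eq_add_neg]

/-- operators commuting with translations commute with `Cop` -/
theorem comm_Cop (hp : p ≠ ∞) (T : Lp ℂ p μ →L[ℂ] Lp ℂ p μ)
    (hT : ∀ x g, T (trans μ p x g) = trans μ p x (T g)) (k : C(G, ℂ)) (g : Lp ℂ p μ) :
    T (Cop μ p hp k g) = Cop μ p hp k (T g) := by
  rw [Cop_apply, Cop_apply, ← ContinuousLinearMap.integral_comp_comm]
  · congr 1
    funext y
    rw [map_smul, hT]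
  · exact integrable_cont μ (k.continuous.smul (continuous_trans μ p hp g))

theorem trans_comm (hp : p ≠ ∞) (x y : G) (g : Lp ℂ p μ) :
    trans μ p x (trans μ p y g) = trans μ p y (trans μ p x g) := by
  rw [trans_trans _ _ _ _ _ hp, trans_trans _ _ _ _ _ hp, mul_comm]

theorem trans_Cop (hp : p ≠ ∞) (x : G) (k : C(G, ℂ)) (g : Lp ℂ p μ) :
    trans μ p x (Cop μ p hp k g) = Cop μ p hp k (trans μ p x g) :=
  comm_Cop μ p hp (trans μ p x) (fun y g => trans_comm μ p hp x y g) k g

/-- change of variables -/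
theorem trans_Cop' (hp : p ≠ ∞) (x : G) (k : C(G, ℂ)) (g : Lp ℂ p μ) :
    trans μ p x (Cop μ p hp k g) = Cop μ p hp (k.comp (mulL x⁻¹)) g := by
  rw [Cop_apply, Cop_apply, ← ContinuousLinearMap.integral_comp_comm]
  · have h := integral_mul_left_eq_self (μ := μ)
      (fun y => (k.comp (mulL x⁻¹)) y • trans μ p y g) x
    rw [← h]
    congr 1
    funext y
    rw [map_smul, trans_trans _ _ _ _ _ hp]
    change _ = k (x⁻¹ * (x * y)) • _
    rw [inv_mul_cancel_left]
  · exact integrable_cont μ (k.continuous.smul (continuous_trans μ p hp g))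

theorem continuous_comp_mulL (f : C(G, ℂ)) : Continuous fun y : G => f.comp (mulL y) :=
  (ContinuousMap.continuous_postcomp f).comp continuous_mulL

/-- `Cop` on continuous functions -/
theorem Cop_cl (hp : p ≠ ∞) (k f : C(G, ℂ)) :
    Cop μ p hp k (cl μ p f) = cl μ p (∫ y, k y • f.comp (mulL y) ∂μ) := by
  have h := (cl μ p).integral_comp_comm (μ := μ) (φ := fun y => k y • f.comp (mulL y))
    (integrable_cont μ (k.continuous.smul (continuous_comp_mulL f)))
  rw [← h, Cop_apply]
  congr 1

end trans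

end Pool.Agent.H481R3.CG
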