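import Mathlib
import Pool.Agent.H481R3.CGA

set_option autoImplicit false
set_option linter.unusedSectionVars false
set_option linter.overlappingInstances false

open MeasureTheory Filter Topology
open scoped ENNReal InnerProductSpace

namespace Pool.Agent.H481R3.CG

universe u
variable {G : Type u} [CommGroup G] [TopologicalSpace G] [IsTopologicalGroup G] [CompactSpace G]
  [T2Space G] [MeasurableSpace G] [BorelSpace G]

section ell2
variable (μ : Measure G) [μ.IsHaarMeasure] [IsProbabilityMeasure μ] [μ.Regular]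

theorem two_ne : (2 : ℝ≥0∞) ≠ ∞ := by simp

theorem inner_trans (x : G) (g h : Lp ℂ 2 μ) :
    ⟪trans μ 2 x g, trans μ 2 x h⟫_ℂ = ⟪g, h⟫_ℂ :=
  (Lp.compMeasurePreservingₗᵢ ℂ (fun y => x * y) (measurePreserving_mul_left μ x)).inner_map_map g h

theorem adjoint_trans (x : G) :
    ContinuousLinearMap.adjoint (trans μ 2 x) = trans μ 2 x⁻¹ := by
  symm
  rw [ContinuousLinearMap.eq_adjoint_iff]
  intro g h
  rw [← inner_trans μ x (trans μ 2 x⁻¹ g) h, trans_trans _ _ _ _ _ two_ne, mul_inv_cancel,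
    trans_one _ _ _ two_ne]

/-- the adjoint of an operator commuting with translations commutes with translations -/
theorem adjoint_comm (T : Lp ℂ 2 μ →L[ℂ] Lp ℂ 2 μ)
    (hT : ∀ x g, T (trans μ 2 x g) = trans μ 2 x (T g)) (x : G) (g : Lp ℂ 2 μ) :
    (ContinuousLinearMap.adjoint T) (trans μ 2 x g) =
      trans μ 2 x ((ContinuousLinearMap.adjoint T) g) := by
  have h1 : T.comp (trans μ 2 x⁻¹) = (trans μ 2 x⁻¹).comp T := by
    ext1 g
    exact hT _ _
  have h2 := congrArg ContinuousLinearMap.adjoint h1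
  rw [ContinuousLinearMap.adjoint_comp, ContinuousLinearMap.adjoint_comp, adjoint_trans,
    inv_inv] at h2
  exact (DFunLike.congr_fun h2 g).symm

/-- for `x ≠ y` there is `k` with `(trans x - trans y) Cop k ≠ 0` -/
theorem exists_ne (x y : G) (hxy : x ≠ y) : ∃ k : C(G, ℂ), ∃ g : Lp ℂ 2 μ,
    trans μ 2 x (Cop μ 2 two_ne k g) ≠ trans μ 2 y (Cop μ 2 two_ne k g) := by
  classical
  obtain ⟨f, hf⟩ : ∃ f : C(G, ℂ), f x ≠ f y := by
    obtain ⟨f, hf0, hf1, -⟩ := exists_continuous_zero_one_of_isClosed (X := G)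
      (isClosed_singleton (x := x)) (isClosed_singleton (x := y))
      (Set.disjoint_singleton.2 hxy)
    refine ⟨⟨fun z => ((f z : ℝ) : ℂ), Complex.continuous_ofReal.comp f.continuous⟩, ?_⟩
    have h0 : f x = 0 := hf0 rfl
    have h1 : f y = 1 := hf1 rfl
    change ((f x : ℝ) : ℂ) ≠ ((f y : ℝ) : ℂ)
    rw [h0, h1]
    simp
  -- the kernel
  let d : C(G, ℂ) := f.comp (mulL x) - f.comp (mulL y)
  let k : C(G, ℂ) := ⟨fun w => starRingEnd ℂ (d w), Complex.continuous_conj.comp d.continuous⟩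
  refine ⟨k, cl μ 2 f, ?_⟩
  intro heq
  rw [Cop_cl, trans_cl, trans_cl, ← sub_eq_zero, ← map_sub] at heq
  set I : C(G, ℂ) := ∫ w, k w • f.comp (mulL w) ∂μ with hI
  have hz : I.comp (mulL x) - I.comp (mulL y) = 0 := by
    have hinj : Function.Injective (cl μ 2 : C(G, ℂ) →L[ℂ] Lp ℂ 2 μ) :=
      ContinuousMap.toLp_injective μ
    apply hinj
    rw [heq, map_zero]
  have hev := DFunLike.congr_fun hz (1 : G)
  have hI1 : ∀ z : G, I z = ∫ w, k w * f (w * z) ∂μ := by
    intro z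
    have h := (ContinuousMap.evalCLM ℂ z : C(G, ℂ) →L[ℂ] ℂ).integral_comp_comm (μ := μ)
      (φ := fun w => k w • f.comp (mulL w))
      (integrable_cont μ (k.continuous.smul (continuous_comp_mulL f)))
    rw [hI]
    exact h.symm
  have hev' : I (x * 1) - I (y * 1) = 0 := hev
  rw [mul_one, mul_one, hI1, hI1, ← integral_sub] at hev'
  · have hk : ∀ w, k w * f (w * x) - k w * f (w * y) = ((‖d w‖ ^ 2 : ℝ) : ℂ) := by
      intro w
      have hd : d w = f (w * x) - f (w * y) := by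
        change f (x * w) - f (y * w) = _
        rw [mul_comm x, mul_comm y]
      rw [← mul_sub, ← hd]
      change starRingEnd ℂ (d w) * d w = _
      rw [mul_comm, Complex.mul_conj, Complex.normSq_eq_norm_sq]
    simp only [hk] at hev'
    rw [show (∫ w, ((‖d w‖ ^ 2 : ℝ) : ℂ) ∂μ) = ((∫ w, ‖d w‖ ^ 2 ∂μ : ℝ) : ℂ) from
      integral_ofReal] at hev'
    have hev2 : ∫ w, ‖d w‖ ^ 2 ∂μ = 0 := by exact_mod_cast hev'
    have hpos : 0 < ∫ w, ‖d w‖ ^ 2 ∂μ := by
      have hc : Continuous fun w => ‖d w‖ ^ 2 := (d.continuous.norm).pow 2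
      refine hc.integral_pos_of_hasCompactSupport_nonneg_nonzero
        (HasCompactSupport.of_compactSpace _) (fun w => by positivity) (x := 1) ?_
      have : d 1 ≠ 0 := by
        change f (x * 1) - f (y * 1) ≠ 0
        rw [mul_one, mul_one]
        exact sub_ne_zero.2 hf
      have h2 : ‖d 1‖ ≠ 0 := norm_ne_zero_iff.2 this
      exact pow_ne_zero 2 h2
    exact hpos.ne' hev2
  · exact integrable_cont μ (k.continuous.mul (f.continuous.comp (continuous_id.mul continuous_const)))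
  · exact integrable_cont μ (k.continuous.mul (f.continuous.comp (continuous_id.mul continuous_const)))

/-- the set of translations and convolution type operators -/
def Sset : Set (Lp ℂ 2 μ →L[ℂ] Lp ℂ 2 μ) :=
  {T | (∃ x, T = trans μ 2 x) ∨ ∃ k, T = Cop μ 2 two_ne k}

/-- the bicommutant -/
noncomputable def Alg : Subalgebra ℂ (Lp ℂ 2 μ →L[ℂ] Lp ℂ 2 μ) :=
  Subalgebra.centralizer ℂ ((Subalgebra.centralizer ℂ (Sset μ) :
    Subalgebra ℂ (Lp ℂ 2 μ →L[ℂ] Lp ℂ 2 μ)) : Set (Lp ℂ 2 μ →L[ℂ] Lp ℂ 2 μ))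

theorem mem_cent_of (T : Lp ℂ 2 μ →L[ℂ] Lp ℂ 2 μ)
    (hT : ∀ x g, T (trans μ 2 x g) = trans μ 2 x (T g)) :
    T ∈ Subalgebra.centralizer ℂ (Sset μ) := by
  rw [Subalgebra.mem_centralizer_iff]
  rintro U (⟨x, rfl⟩ | ⟨k, rfl⟩)
  · ext1 g
    exact (hT x g).symm
  · ext1 g
    exact (comm_Cop μ 2 two_ne T hT k g).symm

theorem trans_comm_trans (x y : G) (g : Lp ℂ 2 μ) :
    (trans μ 2 x) (trans μ 2 y g) = trans μ 2 y (trans μ 2 x g) := trans_comm μ 2 two_ne x y g

theorem comm_of_mem_cent (T : Lp ℂ 2 μ →L[ℂ] Lp ℂ 2 μ)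
    (hT : T ∈ Subalgebra.centralizer ℂ (Sset μ)) (x : G) (g : Lp ℂ 2 μ) :
    T (trans μ 2 x g) = trans μ 2 x (T g) := by
  rw [Subalgebra.mem_centralizer_iff] at hT
  have := hT (trans μ 2 x) (Or.inl ⟨x, rfl⟩)
  exact (DFunLike.congr_fun this g).symm

theorem subset_Alg : Sset μ ⊆ (Alg μ : Set (Lp ℂ 2 μ →L[ℂ] Lp ℂ 2 μ)) := by
  intro T hT
  change T ∈ Alg μ
  rw [Alg, Subalgebra.mem_centralizer_iff]
  intro U hU
  have hU' : U ∈ Subalgebra.centralizer ℂ (Sset μ) := hU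
  rw [Subalgebra.mem_centralizer_iff] at hU'
  exact (hU' T hT).symm

theorem Alg_le : ∀ T ∈ Alg μ, T ∈ Subalgebra.centralizer ℂ (Sset μ) := by
  intro T hT
  apply mem_cent_of
  intro x g
  rw [Alg, Subalgebra.mem_centralizer_iff] at hT
  have h1 : trans μ 2 x ∈ Subalgebra.centralizer ℂ (Sset μ) :=
    mem_cent_of μ _ (fun y g => trans_comm_trans μ x y g)
  exact (DFunLike.congr_fun (hT _ h1) g).symm

theorem mem_Alg_iff (T : Lp ℂ 2 μ →L[ℂ] Lp ℂ 2 μ) : T ∈ Alg μ ↔
    ∀ U ∈ Subalgebra.centralizer ℂ (Sset μ), U * T = T * U :=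
  Subalgebra.mem_centralizer_iff ℂ

theorem Alg_comm (S T : Alg μ) : S * T = T * S := by
  apply Subtype.ext
  exact (mem_Alg_iff μ _).1 T.2 _ (Alg_le μ _ S.2)

noncomputable instance instAlg : NormedCommRing (Alg μ) :=
  { (inferInstance : NormedRing (Alg μ)) with
    mul_comm := Alg_comm μ }

noncomputable instance instAlgN : NormedAlgebra ℂ (Alg μ) :=
  { (inferInstance : NormedSpace ℂ (Alg μ)), (inferInstance : Algebra ℂ (Alg μ)) with }

instance instAlgC : CompleteSpace (Alg μ) := by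
  have : IsClosed (Alg μ : Set (Lp ℂ 2 μ →L[ℂ] Lp ℂ 2 μ)) := Set.isClosed_centralizer _
  exact this.completeSpace_coe

include μ in
/-- compact abelian groups have enough characters -/
theorem exists_char (x y : G) (hxy : x ≠ y) :
    ∃ χ : G →* Circle, Continuous χ ∧ χ x ≠ χ y := by
  classical
  obtain ⟨k, g, hkg⟩ := exists_ne μ x y hxy
  haveI : Nontrivial (Lp ℂ 2 μ) := ⟨⟨_, _, hkg⟩⟩
  haveI : Nontrivial (Lp ℂ 2 μ →L[ℂ] Lp ℂ 2 μ) := inferInstance
  set a : Lp ℂ 2 μ →L[ℂ] Lp ℂ 2 μ := (trans μ 2 x - trans μ 2 y) * Cop μ 2 two_ne k with ha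
  have ha0 : a ≠ 0 := by
    intro h0
    apply hkg
    have := DFunLike.congr_fun h0 g
    rw [ha] at this
    change trans μ 2 x (Cop μ 2 two_ne k g) - trans μ 2 y (Cop μ 2 two_ne k g) = 0 at this
    exact sub_eq_zero.1 this
  have haT : ∀ z h, a (trans μ 2 z h) = trans μ 2 z (a h) := by
    intro z h
    change trans μ 2 x (Cop μ 2 two_ne k (trans μ 2 z h)) - trans μ 2 y (Cop μ 2 two_ne k (trans μ 2 z h))
      = trans μ 2 z (trans μ 2 x (Cop μ 2 two_ne k h) - trans μ 2 y (Cop μ 2 two_ne k h))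
    rw [← trans_Cop, map_sub, trans_comm_trans μ x z, trans_comm_trans μ y z]
  have haA : a ∈ Alg μ := by
    refine (Alg μ).mul_mem ((Alg μ).sub_mem ?_ ?_) ?_
    · exact subset_Alg μ (Or.inl ⟨x, rfl⟩)
    · exact subset_Alg μ (Or.inl ⟨y, rfl⟩)
    · exact subset_Alg μ (Or.inr ⟨k, rfl⟩)
  have hnormal : IsStarNormal a := by
    constructor
    change star a * a = a * star a
    have h1 : star a ∈ Subalgebra.centralizer ℂ (Sset μ) := by
      apply mem_cent_of
      intro z h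
      rw [ContinuousLinearMap.star_eq_adjoint]
      exact adjoint_comm μ a haT z h
    exact (mem_Alg_iff μ a).1 haA _ h1
  -- a nonzero point of the spectrum
  obtain ⟨z, hz, hz0⟩ : ∃ z ∈ spectrum ℂ a, z ≠ 0 := by
    obtain ⟨z, hz, hzr⟩ := spectrum.exists_nnnorm_eq_spectralRadius_of_nonempty
      (spectrum.nonempty a)
    refine ⟨z, hz, ?_⟩
    rintro rfl
    rw [hnormal.spectralRadius_eq_nnnorm] at hzr
    simp only [nnnorm_zero, ENNReal.coe_zero] at hzr
    have : ‖a‖₊ = 0 := by exact_mod_cast hzr.symm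
    exact ha0 (nnnorm_eq_zero.1 this)
  have hz' : z ∈ spectrum ℂ (⟨a, haA⟩ : Alg μ) := by
    rw [spectrum.mem_iff] at hz ⊢
    intro hu
    apply hz
    have := hu.map (Alg μ).val
    exact this
  obtain ⟨φ, hφ⟩ := WeakDual.CharacterSpace.mem_spectrum_iff_exists.1 hz'
  have hφ0 : φ ⟨a, haA⟩ ≠ 0 := by rw [hφ]; exact hz0
  let t : G → Alg μ := fun w => ⟨trans μ 2 w, subset_Alg μ (Or.inl ⟨w, rfl⟩)⟩
  let c : Alg μ := ⟨Cop μ 2 two_ne k, subset_Alg μ (Or.inr ⟨k, rfl⟩)⟩
  have hac : (⟨a, haA⟩ : Alg μ) = (t x - t y) * c := rfl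
  rw [hac, map_mul, map_sub] at hφ0
  have hc0 : φ c ≠ 0 := right_ne_zero_of_mul hφ0
  have hxy' : φ (t x) ≠ φ (t y) := sub_ne_zero.1 (left_ne_zero_of_mul hφ0)
  have t_mul : ∀ v w, t (v * w) = t v * t w := by
    intro v w
    apply Subtype.ext
    ext1 h
    exact (trans_trans μ 2 v w h two_ne).symm
  have t_one : t 1 = 1 := by
    apply Subtype.ext
    ext1 h
    exact trans_one μ 2 h two_ne
  have norm_le : ∀ w, ‖φ (t w)‖ ≤ 1 := by
    intro w
    have h1 : ‖φ (t w)‖ ≤ ‖t w‖ * ‖(1 : Alg μ)‖ := by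
      exact spectrum.norm_le_norm_mul_of_mem (AlgHom.apply_mem_spectrum φ (t w))
    have h2 : ‖t w‖ ≤ 1 := by
      change ‖trans μ 2 w‖ ≤ 1
      refine ContinuousLinearMap.opNorm_le_bound _ zero_le_one (fun h => ?_)
      rw [norm_trans, one_mul]
    have h3 : ‖(1 : Alg μ)‖ ≤ 1 := by
      change ‖(1 : Lp ℂ 2 μ →L[ℂ] Lp ℂ 2 μ)‖ ≤ 1
      exact ContinuousLinearMap.norm_id_le
    calc ‖φ (t w)‖ ≤ ‖t w‖ * ‖(1 : Alg μ)‖ := h1
      _ ≤ 1 * 1 := by gcongr
      _ = 1 := one_mul 1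
  have norm_eq : ∀ w, ‖φ (t w)‖ = 1 := by
    intro w
    have h1 : φ (t w) * φ (t w⁻¹) = 1 := by
      rw [← map_mul, ← t_mul, mul_inv_cancel, t_one, map_one]
    have h2 : ‖φ (t w)‖ * ‖φ (t w⁻¹)‖ = 1 := by rw [← norm_mul, h1, norm_one]
    have h3 := norm_le w
    have h4 := norm_le w⁻¹
    have h5 := norm_nonneg (φ (t w))
    have h6 := norm_nonneg (φ (t w⁻¹))
    nlinarith
  let χ : G →* Circle :=
    { toFun := fun w => ⟨φ (t w), mem_sphere_zero_iff_norm.2 (norm_eq w)⟩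
      map_one' := by
        apply Circle.ext
        change φ (t 1) = 1
        rw [t_one, map_one]
      map_mul' := fun v w => by
        apply Circle.ext
        change φ (t (v * w)) = φ (t v) * φ (t w)
        rw [t_mul, map_mul] }
  have hcont : Continuous fun w => φ (t w) := by
    have h1 : Continuous fun w => t w * c := by
      rw [continuous_induced_rng]
      have h2 : (fun w => ((t w * c : Alg μ) : Lp ℂ 2 μ →L[ℂ] Lp ℂ 2 μ)) =
          fun w => Cop μ 2 two_ne (k.comp (mulL w⁻¹)) := by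
        funext w
        ext1 h
        exact trans_Cop' μ 2 two_ne w k h
      change Continuous fun w => ((t w * c : Alg μ) : Lp ℂ 2 μ →L[ℂ] Lp ℂ 2 μ)
      rw [h2]
      let L : C(G, ℂ) →L[ℂ] (Lp ℂ 2 μ →L[ℂ] Lp ℂ 2 μ) :=
        LinearMap.mkContinuous
          { toFun := Cop μ 2 two_ne
            map_add' := Cop_add μ 2 two_ne
            map_smul' := Cop_smul μ 2 two_ne } 1
          (fun k => by rw [one_mul]; exact norm_Cop_le' μ 2 two_ne k)
      exact L.continuous.comp ((continuous_comp_mulL k).comp continuous_inv)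
    have h3 : Continuous fun w => φ (t w * c) := (map_continuous φ).comp h1
    have h4 : (fun w => φ (t w)) = fun w => φ (t w * c) * (φ c)⁻¹ := by
      funext w
      rw [map_mul, mul_assoc, mul_inv_cancel₀ hc0, mul_one]
    rw [h4]
    exact h3.mul continuous_const
  refine ⟨χ, ?_, ?_⟩
  · exact Continuous.subtype_mk hcont _
  · intro h
    apply hxy'
    exact congrArg (fun z : Circle => (z : ℂ)) h

end ell2

end Pool.Agent.H481R3.CG
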