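import Mathlib
import Pool.Agent.H481R3.CGB

set_option autoImplicit false
set_option linter.unusedSectionVars false
set_option linter.overlappingInstances false

open MeasureTheory Filter Topology
open scoped ENNReal InnerProductSpace ComplexConjugate

namespace Pool.Agent.H481R3.CG

universe u
variable {G : Type u} [CommGroup G] [TopologicalSpace G] [IsTopologicalGroup G] [CompactSpace G]
  [T2Space G] [MeasurableSpace G] [BorelSpace G]

/-- a continuous character as a continuous function -/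
noncomputable def ch (χ : G →ₜ* Circle) : C(G, ℂ) :=
  ⟨fun x => (χ x : ℂ), continuous_subtype_val.comp χ.continuous_toFun⟩

omit [IsTopologicalGroup G] [CompactSpace G] [T2Space G] [MeasurableSpace G] [BorelSpace G] in
theorem ch_apply (χ : G →ₜ* Circle) (x : G) : ch χ x = (χ x : ℂ) := rfl

omit [IsTopologicalGroup G] [CompactSpace G] [T2Space G] [MeasurableSpace G] [BorelSpace G] in
theorem ch_mul (χ : G →ₜ* Circle) (x y : G) : ch χ (x * y) = ch χ x * ch χ y := by
  rw [ch_apply, ch_apply, ch_apply, map_mul, Circle.coe_mul]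

omit [IsTopologicalGroup G] [CompactSpace G] [T2Space G] [MeasurableSpace G] [BorelSpace G] in
theorem ch_mul' (χ ψ : G →ₜ* Circle) : ch χ * ch ψ = ch (χ * ψ) := by
  ext x
  rw [ContinuousMap.mul_apply, ch_apply, ch_apply, ch_apply]
  rw [← Circle.coe_mul]
  rfl

omit [IsTopologicalGroup G] [CompactSpace G] [T2Space G] [MeasurableSpace G] [BorelSpace G] in
theorem ch_one : ch (1 : G →ₜ* Circle) = 1 := by
  ext x
  rfl

omit [IsTopologicalGroup G] [CompactSpace G] [T2Space G] [MeasurableSpace G] [BorelSpace G] in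
theorem ch_star (χ : G →ₜ* Circle) : star (ch χ) = ch χ⁻¹ := by
  ext x
  rw [ContinuousMap.star_apply, ch_apply, ch_apply]
  change (starRingEnd ℂ) (χ x : ℂ) = (((χ x)⁻¹ : Circle) : ℂ)
  rw [Circle.coe_inv_eq_conj]

omit [IsTopologicalGroup G] [CompactSpace G] [T2Space G] [MeasurableSpace G] [BorelSpace G] in
theorem norm_ch_apply (χ : G →ₜ* Circle) (x : G) : ‖ch χ x‖ = 1 := Circle.norm_coe _

/-- trigonometric polynomials -/
noncomputable def TP : StarSubalgebra ℂ C(G, ℂ) where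
  carrier := (Submodule.span ℂ (Set.range (ch : (G →ₜ* Circle) → C(G, ℂ))) : Submodule ℂ C(G, ℂ))
  mul_mem' := by
    intro a b ha hb
    have ha' : a ∈ Submodule.span ℂ (Set.range (ch : (G →ₜ* Circle) → C(G, ℂ))) := ha
    have hb' : b ∈ Submodule.span ℂ (Set.range (ch : (G →ₜ* Circle) → C(G, ℂ))) := hb
    have h := Submodule.mul_mem_mul ha' hb'
    rw [Submodule.span_mul_span] at h
    refine Submodule.span_mono ?_ h
    rintro _ ⟨_, ⟨χ, rfl⟩, _, ⟨ψ, rfl⟩, rfl⟩
    exact ⟨χ * ψ, (ch_mul' χ ψ).symm⟩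
  add_mem' := fun ha hb => Submodule.add_mem _ ha hb
  algebraMap_mem' := by
    intro c
    have : algebraMap ℂ C(G, ℂ) c = c • ch (1 : G →ₜ* Circle) := by
      rw [ch_one, Algebra.algebraMap_eq_smul_one]
    rw [this]
    exact Submodule.smul_mem _ _ (Submodule.subset_span ⟨1, rfl⟩)
  star_mem' := by
    intro a ha
    have ha' : a ∈ Submodule.span ℂ (Set.range (ch : (G →ₜ* Circle) → C(G, ℂ))) := ha
    change star a ∈ Submodule.span ℂ (Set.range (ch : (G →ₜ* Circle) → C(G, ℂ)))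
    induction ha' using Submodule.span_induction with
    | mem x hx =>
      obtain ⟨χ, rfl⟩ := hx
      rw [ch_star]
      exact Submodule.subset_span ⟨_, rfl⟩
    | zero => rw [star_zero]; exact Submodule.zero_mem _
    | add x y _ _ hx hy =>
      rw [star_add]
      exact Submodule.add_mem _ (hx (by assumption)) (hy (by assumption))
    | smul c x _ hx =>
      rw [star_smul]
      exact Submodule.smul_mem _ _ (hx (by assumption))

omit [IsTopologicalGroup G] [T2Space G] [MeasurableSpace G] [BorelSpace G] in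
theorem mem_TP_iff (f : C(G, ℂ)) :
    f ∈ (TP : StarSubalgebra ℂ C(G, ℂ)) ↔
      f ∈ Submodule.span ℂ (Set.range (ch : (G →ₜ* Circle) → C(G, ℂ))) := Iff.rfl

section dens
variable (μ : Measure G) [μ.IsHaarMeasure] [IsProbabilityMeasure μ] [μ.Regular]

include μ in
/-- trigonometric polynomials are dense in the continuous functions -/
theorem TP_dense (f : C(G, ℂ)) (ε : ℝ) (hε : 0 < ε) :
    ∃ g ∈ Submodule.span ℂ (Set.range (ch : (G →ₜ* Circle) → C(G, ℂ))), ‖f - g‖ < ε := by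
  have hsep : (TP : StarSubalgebra ℂ C(G, ℂ)).SeparatesPoints := by
    intro x y hxy
    obtain ⟨χ, hχ, hne⟩ := exists_char μ x y hxy
    refine ⟨_, ⟨ch ⟨χ, hχ⟩, ?_, rfl⟩, ?_⟩
    · exact Submodule.subset_span ⟨_, rfl⟩
    · intro h
      apply hne
      exact Circle.ext h
  have h := ContinuousMap.starSubalgebra_topologicalClosure_eq_top_of_separatesPoints _ hsep
  have hf : f ∈ (TP : StarSubalgebra ℂ C(G, ℂ)).topologicalClosure := by
    rw [h]; trivial
  have hf' : f ∈ closure ((TP : StarSubalgebra ℂ C(G, ℂ)) : Set C(G, ℂ)) := hf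
  rw [Metric.mem_closure_iff] at hf'
  obtain ⟨g, hg, hfg⟩ := hf' ε hε
  exact ⟨g, hg, by rwa [dist_eq_norm] at hfg⟩

/-- orthogonality -/
theorem integral_ch (χ : G →ₜ* Circle) (h : χ ≠ 1) : ∫ y, ch χ y ∂μ = 0 := by
  obtain ⟨x, hx⟩ : ∃ x, χ x ≠ 1 := by
    by_contra hcon
    push Not at hcon
    apply h
    ext x
    rw [hcon x]
    rfl
  have h1 := integral_mul_left_eq_self (μ := μ) (fun y => ch χ y) x
  have h2 : (fun y => ch χ (x * y)) = fun y => ch χ x * ch χ y := by
    funext y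
    rw [ch_mul]
  rw [h2, integral_const_mul] at h1
  have h3 : (ch χ x - 1) * ∫ y, ch χ y ∂μ = 0 := by
    rw [sub_mul, one_mul, h1, sub_self]
  rcases mul_eq_zero.1 h3 with h4 | h4
  · exfalso
    apply hx
    apply Circle.ext
    exact sub_eq_zero.1 h4
  · exact h4

theorem integral_ch_one : ∫ y, ch (1 : G →ₜ* Circle) y ∂μ = 1 := by
  rw [ch_one]
  simp

variable (p : ℝ≥0∞) [Fact (1 ≤ p)]

/-- the class of a character in `L^p` -/
noncomputable def ec (χ : G →ₜ* Circle) : Lp ℂ p μ := cl μ p (ch χ)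

theorem trans_ec (χ : G →ₜ* Circle) (x : G) : trans μ p x (ec μ p χ) = ch χ x • ec μ p χ := by
  unfold ec
  rw [trans_cl, ← map_smul]
  congr 1
  ext y
  change ch χ (x * y) = ch χ x * ch χ y
  exact ch_mul χ x y

/-- the span of the characters is dense in `L^p` -/
theorem ec_dense (hp : p ≠ ∞) :
    Dense (Submodule.span ℂ (Set.range (ec μ p : (G →ₜ* Circle) → Lp ℂ p μ)) : Set (Lp ℂ p μ)) := by
  rw [Metric.dense_iff]
  intro g r hr
  obtain ⟨f, hf⟩ := (cl_dense μ p hp).exists_dist_lt g (half_pos hr)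
  obtain ⟨q, hq, hfq⟩ := TP_dense μ f (r / 2) (half_pos hr)
  refine ⟨cl μ p q, ?_, ?_⟩
  · rw [Metric.mem_ball, dist_comm]
    calc dist g (cl μ p q) ≤ dist g (cl μ p f) + dist (cl μ p f) (cl μ p q) := dist_triangle _ _ _
      _ < r / 2 + r / 2 := by
        refine add_lt_add hf ?_
        rw [dist_eq_norm, ← map_sub]
        exact (norm_cl_le μ p _).trans_lt hfq
      _ = r := by ring
  · change cl μ p q ∈ Submodule.span ℂ (Set.range (ec μ p : (G →ₜ* Circle) → Lp ℂ p μ))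
    have h1 : (cl μ p q) ∈ Submodule.map (cl μ p : C(G, ℂ) →ₗ[ℂ] Lp ℂ p μ)
        (Submodule.span ℂ (Set.range (ch : (G →ₜ* Circle) → C(G, ℂ)))) :=
      Submodule.mem_map_of_mem hq
    rw [Submodule.map_span] at h1
    refine Submodule.span_mono ?_ h1
    rintro _ ⟨_, ⟨χ, rfl⟩, rfl⟩
    exact ⟨χ, rfl⟩

theorem Cop_ec (hp : p ≠ ∞) (k : C(G, ℂ)) (χ : G →ₜ* Circle) :
    Cop μ p hp k (ec μ p χ) = (∫ y, k y * ch χ y ∂μ) • ec μ p χ := by
  rw [Cop_apply, ← integral_smul_const]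
  congr 1
  funext y
  rw [trans_ec, smul_smul]

/-- the projection onto the character `χ` -/
noncomputable def Ec (hp : p ≠ ∞) (χ : G →ₜ* Circle) : Lp ℂ p μ →L[ℂ] Lp ℂ p μ :=
  Cop μ p hp (ch χ⁻¹)

theorem Ec_ec (hp : p ≠ ∞) (χ : G →ₜ* Circle) : Ec μ p hp χ (ec μ p χ) = ec μ p χ := by
  unfold Ec
  rw [Cop_ec]
  have : (fun y => ch χ⁻¹ y * ch χ y) = fun y => ch (1 : G →ₜ* Circle) y := by
    funext y
    rw [← ContinuousMap.mul_apply, ch_mul', inv_mul_cancel]
  rw [this, integral_ch_one, one_smul]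

theorem Ec_ec_ne (hp : p ≠ ∞) (χ ψ : G →ₜ* Circle) (h : ψ ≠ χ) :
    Ec μ p hp χ (ec μ p ψ) = 0 := by
  unfold Ec
  rw [Cop_ec]
  have : (fun y => ch χ⁻¹ y * ch ψ y) = fun y => ch (χ⁻¹ * ψ) y := by
    funext y
    rw [← ContinuousMap.mul_apply, ch_mul']
  rw [this, integral_ch, zero_smul]
  intro h1
  apply h
  exact (inv_mul_eq_one.1 h1).symm

theorem Ec_mem (hp : p ≠ ∞) (χ : G →ₜ* Circle) (g : Lp ℂ p μ) :
    Ec μ p hp χ g ∈ Submodule.span ℂ {ec μ p χ} := by
  have hcl : IsClosed ((Submodule.span ℂ {ec μ p χ} : Submodule ℂ (Lp ℂ p μ)) : Set (Lp ℂ p μ)) :=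
    Submodule.closed_of_finiteDimensional _
  have h1 : IsClosed {g : Lp ℂ p μ | Ec μ p hp χ g ∈ Submodule.span ℂ {ec μ p χ}} :=
    hcl.preimage (Ec μ p hp χ).continuous
  have h2 : (Submodule.span ℂ (Set.range (ec μ p : (G →ₜ* Circle) → Lp ℂ p μ)) : Set (Lp ℂ p μ)) ⊆
      {g : Lp ℂ p μ | Ec μ p hp χ g ∈ Submodule.span ℂ {ec μ p χ}} := by
    intro g hg
    have hg' : g ∈ Submodule.span ℂ (Set.range (ec μ p : (G →ₜ* Circle) → Lp ℂ p μ)) := hg
    change Ec μ p hp χ g ∈ Submodule.span ℂ {ec μ p χ}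
    induction hg' using Submodule.span_induction with
    | mem x hx =>
      obtain ⟨ψ, rfl⟩ := hx
      by_cases h : ψ = χ
      · subst h
        rw [Ec_ec]
        exact Submodule.mem_span_singleton_self _
      · rw [Ec_ec_ne μ p hp χ ψ h]
        exact Submodule.zero_mem _
    | zero => rw [map_zero]; exact Submodule.zero_mem _
    | add x y _ _ hx hy =>
      rw [map_add]
      exact Submodule.add_mem _ (hx (by assumption)) (hy (by assumption))
    | smul c x _ hx =>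
      rw [map_smul]
      exact Submodule.smul_mem _ _ (hx (by assumption))
  have h3 := h1.closure_subset_iff.2 h2
  rw [(ec_dense μ p hp).closure_eq] at h3
  exact h3 (Set.mem_univ g)

/-- an eigenvector of all translations with eigenvalue `χ` is a multiple of `χ` -/
theorem mem_of_eigen (hp : p ≠ ∞) (χ : G →ₜ* Circle) (g : Lp ℂ p μ)
    (hg : ∀ x, trans μ p x g = ch χ x • g) : g ∈ Submodule.span ℂ {ec μ p χ} := by
  have h : Ec μ p hp χ g = g := by
    unfold Ec
    rw [Cop_apply]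
    have : (fun y => ch χ⁻¹ y • trans μ p y g) = fun _ : G => g := by
      funext y
      rw [hg, smul_smul, ← ContinuousMap.mul_apply, ch_mul', inv_mul_cancel, ch_one]
      simp
    rw [this]
    simp
  rw [← h]
  exact Ec_mem μ p hp χ g

/-- `T` commutes with all translations -/
def CommT (T : Lp ℂ p μ →L[ℂ] Lp ℂ p μ) : Prop := ∀ x g, T (trans μ p x g) = trans μ p x (T g)

theorem exists_symbol (hp : p ≠ ∞) (T : Lp ℂ p μ →L[ℂ] Lp ℂ p μ) (hT : CommT μ p T)
    (χ : G →ₜ* Circle) : ∃ t : ℂ, T (ec μ p χ) = t • ec μ p χ := by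
  have h := mem_of_eigen μ p hp χ (T (ec μ p χ)) (fun x => by
    rw [← hT, trans_ec, map_smul])
  rw [Submodule.mem_span_singleton] at h
  obtain ⟨t, ht⟩ := h
  exact ⟨t, ht.symm⟩

theorem ext_ec (hp : p ≠ ∞) {S T : Lp ℂ p μ →L[ℂ] Lp ℂ p μ}
    (h : ∀ χ : G →ₜ* Circle, S (ec μ p χ) = T (ec μ p χ)) : S = T := by
  apply ContinuousLinearMap.ext_on (ec_dense μ p hp)
  rintro _ ⟨χ, rfl⟩
  exact h χ

theorem mul_comm_of_CommT (hp : p ≠ ∞) (S T : Lp ℂ p μ →L[ℂ] Lp ℂ p μ) (hS : CommT μ p S)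
    (hT : CommT μ p T) : S * T = T * S := by
  apply ext_ec μ p hp
  intro χ
  obtain ⟨s, hs⟩ := exists_symbol μ p hp S hS χ
  obtain ⟨t, ht⟩ := exists_symbol μ p hp T hT χ
  change S (T _) = T (S _)
  rw [hs, ht, map_smul, map_smul, hs, ht, smul_smul, smul_smul, mul_comm]

end dens

end Pool.Agent.H481R3.CG
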