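import Mathlib
import Pool.Agent.H481R3.CGC

set_option autoImplicit false
set_option linter.unusedSectionVars false
set_option linter.overlappingInstances false

open MeasureTheory Filter Topology
open scoped ENNReal InnerProductSpace ComplexConjugate

namespace Pool.Agent.H481R3.CG

universe u v
variable {G : Type u} [CommGroup G] [TopologicalSpace G] [IsTopologicalGroup G] [CompactSpace G]
  [T2Space G] [MeasurableSpace G] [BorelSpace G]

variable (μ : Measure G) [μ.IsHaarMeasure] [IsProbabilityMeasure μ] [μ.Regular]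
  (p : ℝ≥0∞) [Fact (1 ≤ p)]

theorem ec_ne_zero (χ : G →ₜ* Circle) : ec μ p χ ≠ 0 := by
  intro h
  have hinj : Function.Injective (ContinuousMap.toLp (E := ℂ) p μ ℂ) :=
    ContinuousMap.toLp_injective μ
  have h2 : ch χ = 0 := hinj (by rw [map_zero]; exact h)
  have h3 := norm_ch_apply χ 1
  rw [h2] at h3
  simp at h3

/-- the algebra of bounded operators on `L^p(G)` commuting with all translations -/
noncomputable def MM : Subalgebra ℂ (Lp ℂ p μ →L[ℂ] Lp ℂ p μ) where
  carrier := {T | ∀ x g, T (trans μ p x g) = trans μ p x (T g)}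
  mul_mem' := by
    intro S T hS hT x g
    change S (T (trans μ p x g)) = trans μ p x (S (T g))
    rw [hT, hS]
  add_mem' := by
    intro S T hS hT x g
    change S (trans μ p x g) + T (trans μ p x g) = trans μ p x (S g + T g)
    rw [hT, hS, map_add]
  algebraMap_mem' := by
    intro c x g
    change c • (trans μ p x g) = trans μ p x (c • g)
    rw [map_smul]

theorem mem_MM (T : Lp ℂ p μ →L[ℂ] Lp ℂ p μ) : T ∈ MM μ p ↔ CommT μ p T := Iff.rfl

theorem Cop_mem (hp : p ≠ ∞) (k : C(G, ℂ)) : Cop μ p hp k ∈ MM μ p := by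
  intro x g
  exact (trans_Cop μ p hp x k g).symm

section bb
variable (hp : p ≠ ∞) (T : Lp ℂ p μ →L[ℂ] Lp ℂ p μ) (hT : T ∈ MM μ p) (c : ℝ) (hc : 0 < c)
  (hS : ∀ S ∈ MM μ p, c * ‖S‖ ≤ ‖T * S‖)
include hp hT hc hS

theorem symbol_ne (χ : G →ₜ* Circle) : ∃ t : ℂ, t ≠ 0 ∧ T (ec μ p χ) = t • ec μ p χ := by
  obtain ⟨t, ht⟩ := exists_symbol μ p hp T hT χ
  refine ⟨t, ?_, ht⟩
  rintro rfl
  rw [zero_smul] at ht
  have h1 : T * Ec μ p hp χ = 0 := by
    ext1 g
    change T (Ec μ p hp χ g) = 0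
    have h2 := Ec_mem μ p hp χ g
    rw [Submodule.mem_span_singleton] at h2
    obtain ⟨a, ha⟩ := h2
    rw [← ha, map_smul, ht, smul_zero]
  have h2 := hS (Ec μ p hp χ) (Cop_mem μ p hp _)
  rw [h1, norm_zero] at h2
  have h3 : ‖Ec μ p hp χ‖ = 0 := by
    have := norm_nonneg (Ec μ p hp χ)
    nlinarith
  rw [norm_eq_zero] at h3
  have h4 := Ec_ec μ p hp χ
  rw [h3] at h4
  exact ec_ne_zero μ p χ h4.symm

theorem solve_Cop (F : C(G, ℂ))
    (hF : F ∈ Submodule.span ℂ (Set.range (ch : (G →ₜ* Circle) → C(G, ℂ)))) :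
    ∃ S ∈ MM μ p, T * S = Cop μ p hp F := by
  induction hF using Submodule.span_induction with
  | mem x hx =>
    obtain ⟨χ, rfl⟩ := hx
    obtain ⟨t, ht0, ht⟩ := symbol_ne μ p hp T hT c hc hS χ⁻¹
    refine ⟨t⁻¹ • Cop μ p hp (ch χ), (MM μ p).smul_mem (Cop_mem μ p hp _) _, ?_⟩
    ext1 g
    change T (t⁻¹ • Cop μ p hp (ch χ) g) = Cop μ p hp (ch χ) g
    have h2 := Ec_mem μ p hp χ⁻¹ g
    unfold Ec at h2
    rw [inv_inv, Submodule.mem_span_singleton] at h2
    obtain ⟨a, ha⟩ := h2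
    rw [← ha, map_smul, map_smul, ht, smul_smul, smul_smul]
    congr 1
    field_simp
  | zero =>
    refine ⟨0, (MM μ p).zero_mem, ?_⟩
    rw [mul_zero]
    have := Cop_smul μ p hp 0 (0 : C(G, ℂ))
    rw [zero_smul, zero_smul] at this
    exact this.symm
  | add x y _ _ hx hy =>
    obtain ⟨S, hS1, hS2⟩ := hx
    obtain ⟨R, hR1, hR2⟩ := hy
    refine ⟨S + R, (MM μ p).add_mem hS1 hR1, ?_⟩
    rw [mul_add, hS2, hR2, Cop_add]
  | smul a x _ hx =>
    obtain ⟨S, hS1, hS2⟩ := hx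
    refine ⟨a • S, (MM μ p).smul_mem hS1 _, ?_⟩
    rw [mul_smul_comm, hS2, Cop_smul]

/-- `T` is bounded below on `L^p` -/
theorem bounded_below (f : Lp ℂ p μ) : c * ‖f‖ ≤ ‖T f‖ := by
  -- for every ε
  have key : ∀ ε : ℝ, 0 < ε → c * (‖f‖ - ε * ‖f‖ - ε) ≤ (1 + ε) * ‖T f‖ := by
    intro ε hε
    let U : Set G := {y | ‖trans μ p y f - f‖ < ε}
    have hUo : IsOpen U :=
      isOpen_lt ((continuous_trans μ p hp f).sub continuous_const).norm continuous_const
    have h1U : (1 : G) ∈ U := by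
      change ‖trans μ p 1 f - f‖ < ε
      rw [trans_one μ p f hp, sub_self, norm_zero]
      exact hε
    obtain ⟨φ, hφ0, hφ1, hφ⟩ := exists_continuous_zero_one_of_isClosed (X := G)
      hUo.isClosed_compl (isClosed_singleton (x := (1 : G)))
      (Set.disjoint_singleton_right.2 (by simpa using h1U))
    have hφ11 : φ 1 = 1 := hφ1 rfl
    have hφn : ∀ y, 0 ≤ φ y := fun y => (hφ y).1
    have hI : 0 < ∫ y, φ y ∂μ := by
      refine φ.continuous.integral_pos_of_hasCompactSupport_nonneg_nonzero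
        (HasCompactSupport.of_compactSpace _) hφn (x := 1) ?_
      rw [hφ11]
      exact one_ne_zero
    set I : ℝ := ∫ y, φ y ∂μ with hIdef
    let k : C(G, ℂ) := ⟨fun y => ((φ y / I : ℝ) : ℂ),
      Complex.continuous_ofReal.comp (φ.continuous.div_const I)⟩
    have hk : ∀ y, k y = ((φ y / I : ℝ) : ℂ) := fun _ => rfl
    have hknorm : ∀ y, ‖k y‖ = φ y / I := by
      intro y
      rw [hk, Complex.norm_real, Real.norm_eq_abs, abs_of_nonneg (div_nonneg (hφn y) hI.le)]
    have hkint : ∫ y, ‖k y‖ ∂μ = 1 := by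
      simp_rw [hknorm]
      rw [integral_div, div_self hI.ne']
    have hkint' : ∫ y, k y ∂μ = 1 := by
      have h0 : ∫ y, k y ∂μ = ((∫ y, φ y / I ∂μ : ℝ) : ℂ) := integral_ofReal
      rw [h0, integral_div, div_self hI.ne', Complex.ofReal_one]
    have hk1 : ‖Cop μ p hp k f - f‖ ≤ ε := by
      have h1 : f = ∫ y, k y • f ∂μ := by
        rw [integral_smul_const, hkint', one_smul]
      have h2 : Cop μ p hp k f - f = ∫ y, k y • (trans μ p y f - f) ∂μ := by
        conv_lhs => rw [Cop_apply]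
        conv_lhs => arg 2; rw [h1]
        rw [← integral_sub]
        · congr 1
          funext y
          rw [smul_sub]
        · exact integrable_cont μ (k.continuous.smul (continuous_trans μ p hp f))
        · exact integrable_cont μ (k.continuous.smul continuous_const)
      rw [h2]
      refine (norm_integral_le_integral_norm _).trans ?_
      calc ∫ y, ‖k y • (trans μ p y f - f)‖ ∂μ ≤ ∫ y, ‖k y‖ * ε ∂μ := by
            apply integral_mono
            · exact (integrable_cont μ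
                (k.continuous.smul ((continuous_trans μ p hp f).sub continuous_const))).norm
            · exact integrable_cont μ (k.continuous.norm.mul continuous_const)
            · intro y
              change ‖k y • (trans μ p y f - f)‖ ≤ ‖k y‖ * ε
              rw [norm_smul]
              by_cases hy : y ∈ U
              · exact mul_le_mul_of_nonneg_left (le_of_lt hy) (norm_nonneg _)
              · have : φ y = 0 := hφ0 hy
                rw [hknorm, this]
                simp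
        _ = ε := by rw [integral_mul_const, hkint, one_mul]
    obtain ⟨F, hF, hkF⟩ := TP_dense μ k ε hε
    obtain ⟨S, hSM, hTS⟩ := solve_Cop μ p hp T hT c hc hS F hF
    have hFn : ‖Cop μ p hp F‖ ≤ 1 + ε := by
      have : Cop μ p hp F = Cop μ p hp k - Cop μ p hp (k - F) := by
        rw [Cop_sub, sub_sub_cancel]
      rw [this]
      refine (norm_sub_le _ _).trans ?_
      refine add_le_add ?_ ?_
      · exact (norm_Cop_le μ p hp k).trans_eq hkint
      · exact (norm_Cop_le' μ p hp _).trans hkF.le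
    have hSn : c * ‖S‖ ≤ 1 + ε := by
      refine (hS S hSM).trans ?_
      rw [hTS]
      exact hFn
    have hFf : ‖Cop μ p hp F f‖ ≤ ‖S‖ * ‖T f‖ := by
      rw [← hTS, mul_comm_of_CommT μ p hp T S hT hSM]
      exact S.le_opNorm (T f)
    have hlow : ‖f‖ - ε * ‖f‖ - ε ≤ ‖Cop μ p hp F f‖ := by
      have h1 : Cop μ p hp F f = f + ((Cop μ p hp k f - f) - Cop μ p hp (k - F) f) := by
        rw [Cop_sub]
        change _ = f + ((Cop μ p hp k f - f) - (Cop μ p hp k f - Cop μ p hp F f))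
        abel
      have h2 : ‖(Cop μ p hp k f - f) - Cop μ p hp (k - F) f‖ ≤ ε + ε * ‖f‖ := by
        refine (norm_sub_le _ _).trans (add_le_add hk1 ?_)
        refine ((Cop μ p hp (k - F)).le_opNorm f).trans ?_
        exact mul_le_mul_of_nonneg_right ((norm_Cop_le' μ p hp _).trans hkF.le) (norm_nonneg _)
      have h3 := norm_sub_le_norm_add f ((Cop μ p hp k f - f) - Cop μ p hp (k - F) f)
      rw [← h1] at h3
      linarith
    calc c * (‖f‖ - ε * ‖f‖ - ε) ≤ c * ‖Cop μ p hp F f‖ := mul_le_mul_of_nonneg_left hlow hc.le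
      _ ≤ c * (‖S‖ * ‖T f‖) := mul_le_mul_of_nonneg_left hFf hc.le
      _ = (c * ‖S‖) * ‖T f‖ := by ring
      _ ≤ (1 + ε) * ‖T f‖ := mul_le_mul_of_nonneg_right hSn (norm_nonneg _)
  have h1 : Tendsto (fun ε : ℝ => c * (‖f‖ - ε * ‖f‖ - ε)) (𝓝[>] 0)
      (𝓝 (c * (‖f‖ - 0 * ‖f‖ - 0))) := by
    apply Tendsto.mono_left _ nhdsWithin_le_nhds
    exact Continuous.tendsto (by fun_prop) 0
  have h2 : Tendsto (fun ε : ℝ => (1 + ε) * ‖T f‖) (𝓝[>] 0) (𝓝 ((1 + 0) * ‖T f‖)) := by
    apply Tendsto.mono_left _ nhdsWithin_le_nhds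
    exact Continuous.tendsto (by fun_prop) 0
  have h3 := le_of_tendsto_of_tendsto h1 h2 (by
    filter_upwards [self_mem_nhdsWithin] with ε hε
    exact key ε hε)
  simpa using h3

theorem T_injective : Function.Injective T := by
  rw [injective_iff_map_eq_zero]
  intro f hf
  have h := bounded_below μ p hp T hT c hc hS f
  rw [hf, norm_zero] at h
  have h2 := norm_nonneg f
  have : ‖f‖ = 0 := by nlinarith
  exact norm_eq_zero.1 this

theorem T_surjective : Function.Surjective T := by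
  have hanti : AntilipschitzWith (Real.toNNReal c⁻¹) T := by
    apply ContinuousLinearMap.antilipschitz_of_bound
    intro f
    have h := bounded_below μ p hp T hT c hc hS f
    rw [Real.coe_toNNReal _ (inv_nonneg.2 hc.le), inv_mul_eq_div, le_div_iff₀ hc, mul_comm]
    exact h
  have hcl : IsClosed (Set.range T) := hanti.isClosed_range T.uniformContinuous
  have hsub : (Submodule.span ℂ (Set.range (ec μ p : (G →ₜ* Circle) → Lp ℂ p μ)) : Set (Lp ℂ p μ)) ⊆
      Set.range T := by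
    have h1 : Submodule.span ℂ (Set.range (ec μ p : (G →ₜ* Circle) → Lp ℂ p μ)) ≤
        LinearMap.range (T : Lp ℂ p μ →ₗ[ℂ] Lp ℂ p μ) := by
      rw [Submodule.span_le]
      rintro _ ⟨χ, rfl⟩
      obtain ⟨t, ht0, ht⟩ := symbol_ne μ p hp T hT c hc hS χ
      refine ⟨t⁻¹ • ec μ p χ, ?_⟩
      change T (t⁻¹ • ec μ p χ) = ec μ p χ
      rw [map_smul, ht, smul_smul, inv_mul_cancel₀ ht0, one_smul]
    intro g hg
    obtain ⟨y, hy⟩ := h1 hg
    exact ⟨y, hy⟩
  have h2 := hcl.closure_subset_iff.2 hsub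
  rw [(ec_dense μ p hp).closure_eq] at h2
  intro g
  exact h2 (Set.mem_univ g)

/-- the inverse -/
theorem exists_inverse : ∃ R ∈ MM μ p, T * R = 1 ∧ R * T = 1 := by
  have hker : LinearMap.ker (T : Lp ℂ p μ →ₗ[ℂ] Lp ℂ p μ) = ⊥ :=
    LinearMap.ker_eq_bot.2 (T_injective μ p hp T hT c hc hS)
  have hran : LinearMap.range (T : Lp ℂ p μ →ₗ[ℂ] Lp ℂ p μ) = ⊤ :=
    LinearMap.range_eq_top.2 (T_surjective μ p hp T hT c hc hS)
  let e := ContinuousLinearEquiv.ofBijective T hker hran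
  have h1 : ∀ g, e.symm (T g) = g := fun g =>
    ContinuousLinearEquiv.ofBijective_symm_apply_apply T hker hran g
  have h2 : ∀ g, T (e.symm g) = g := fun g =>
    ContinuousLinearEquiv.ofBijective_apply_symm_apply T hker hran g
  refine ⟨(e.symm : Lp ℂ p μ →L[ℂ] Lp ℂ p μ), ?_, ?_, ?_⟩
  · intro x g
    change e.symm (trans μ p x g) = trans μ p x (e.symm g)
    have h3 : T (trans μ p x (e.symm g)) = trans μ p x g := by
      rw [hT, h2]
    rw [← h3, h1]
  · ext1 g
    exact h2 g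
  · ext1 g
    exact h1 g

end bb

/-- a non-invertible multiplier is a topological divisor of zero in the multiplier algebra -/
theorem exists_small (hp : p ≠ ∞) (T : MM μ p) (hT : ¬ IsUnit T) (c : ℝ) (hc : 0 < c) :
    ∃ S : MM μ p, ‖S‖ = 1 ∧ ‖T * S‖ < c := by
  by_contra hcon
  push Not at hcon
  apply hT
  have hS : ∀ S ∈ MM μ p, c * ‖S‖ ≤ ‖(T : Lp ℂ p μ →L[ℂ] Lp ℂ p μ) * S‖ := by
    intro S hSM
    by_cases h0 : S = 0
    · subst h0
      simp
    · have hn : 0 < ‖S‖ := norm_pos_iff.2 h0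
      let S' : MM μ p := ⟨((‖S‖⁻¹ : ℝ) : ℂ) • S, (MM μ p).smul_mem hSM _⟩
      have h1 : ‖S'‖ = 1 := by
        change ‖((‖S‖⁻¹ : ℝ) : ℂ) • S‖ = 1
        rw [norm_smul, Complex.norm_real, Real.norm_eq_abs, abs_of_pos (inv_pos.2 hn),
          inv_mul_cancel₀ hn.ne']
      have h2 := hcon S' h1
      have h3 : ‖T * S'‖ = ‖S‖⁻¹ * ‖(T : Lp ℂ p μ →L[ℂ] Lp ℂ p μ) * S‖ := by
        change ‖(T : Lp ℂ p μ →L[ℂ] Lp ℂ p μ) * (((‖S‖⁻¹ : ℝ) : ℂ) • S)‖ = _
        rw [mul_smul_comm, norm_smul, Complex.norm_real, Real.norm_eq_abs,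
          abs_of_pos (inv_pos.2 hn)]
      rw [h3, inv_mul_eq_div, le_div_iff₀ hn] at h2
      exact h2
  obtain ⟨R, hR, h1, h2⟩ := exists_inverse μ p hp (T : Lp ℂ p μ →L[ℂ] Lp ℂ p μ) T.2 c hc hS
  refine ⟨⟨T, ⟨R, hR⟩, Subtype.ext h1, Subtype.ext h2⟩, rfl⟩

theorem exists_tdz (hp : p ≠ ∞) (T : MM μ p) (hT : ¬ IsUnit T) :
    ∃ S : ℕ → MM μ p, (∀ n, ‖S n‖ = 1) ∧ Tendsto (fun n => ‖T * S n‖) atTop (𝓝 0) := by
  choose S hS1 hS2 using fun n : ℕ =>
    exists_small μ p hp T hT (1 / ((n : ℝ) + 1)) (by positivity)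
  refine ⟨S, hS1, ?_⟩
  refine squeeze_zero (fun n => norm_nonneg _) (fun n => (hS2 n).le) ?_
  exact tendsto_one_div_add_atTop_nhds_zero_nat

/-- spectral permanence -/
theorem spectral_permanence (hp : p ≠ ∞) (B : Type v) [NormedCommRing B] [NormedAlgebra ℂ B]
    (j : MM μ p →ₐ[ℂ] B) (hj : IsEmbedding j) (T : MM μ p) :
    spectrum ℂ (j T) = spectrum ℂ T := by
  apply Set.Subset.antisymm
  · exact AlgHom.spectrum_apply_subset j T
  · intro z hz hu
    rw [spectrum.mem_iff] at hz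
    obtain ⟨S, hS1, hS2⟩ := exists_tdz μ p hp _ hz
    have h1 : Tendsto (fun n => (algebraMap ℂ (MM μ p) z - T) * S n) atTop (𝓝 0) :=
      tendsto_zero_iff_norm_tendsto_zero.2 hS2
    have h2 : Tendsto (fun n => j ((algebraMap ℂ (MM μ p) z - T) * S n)) atTop (𝓝 (j 0)) :=
      (hj.continuous.tendsto 0).comp h1
    rw [spectrum.mem_resolventSet_iff] at hu
    obtain ⟨b, hb⟩ := hu.exists_left_inv
    have h3 : Tendsto (fun n => b * j ((algebraMap ℂ (MM μ p) z - T) * S n)) atTop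
        (𝓝 (b * j 0)) := h2.const_mul b
    have h4 : (fun n => b * j ((algebraMap ℂ (MM μ p) z - T) * S n)) = fun n => j (S n) := by
      funext n
      rw [map_mul, map_sub, AlgHom.commutes, ← mul_assoc, hb, one_mul]
    rw [h4, map_zero, mul_zero, ← map_zero j] at h3
    have h5 : Tendsto S atTop (𝓝 0) := hj.tendsto_nhds_iff.2 h3
    have h6 : Tendsto (fun n => ‖S n‖) atTop (𝓝 ‖(0 : MM μ p)‖) := h5.norm
    have h7 : (fun n => ‖S n‖) = fun _ => (1 : ℝ) := funext hS1
    have h8 : ‖(0 : MM μ p)‖ = 0 := by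
      change ‖(0 : Lp ℂ p μ →L[ℂ] Lp ℂ p μ)‖ = 0
      exact norm_zero
    rw [h7, h8] at h6
    exact one_ne_zero (tendsto_nhds_unique tendsto_const_nhds h6)

end Pool.Agent.H481R3.CG
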