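import Mathlib

set_option autoImplicit false

open Filter Topology
open scoped ENNReal

namespace Pool.Agent.H481R3.HS

/-! ### L0 : a signed measure on `[3/4, 7/8]` of mass one with small positive moments -/

theorem memlp_geom (a : ℝ) (h0 : 0 ≤ a) (h1 : a < 1) : Memℓp (fun u : ℕ => a ^ u) 2 := by
  apply memℓp_gen
  have h2 : (fun u : ℕ => ‖a ^ u‖ ^ (2 : ℝ≥0∞).toReal) = fun u : ℕ => (a ^ 2) ^ u := by
    funext u
    rw [Real.norm_of_nonneg (pow_nonneg h0 u)]
    simp only [ENNReal.toReal_ofNat, Real.rpow_ofNat]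
    rw [← pow_mul, ← pow_mul, mul_comm]
  rw [h2]
  apply summable_geometric_of_lt_one (by positivity)
  nlinarith

/-- the vector of powers of `a` -/
noncomputable def gv (a : Set.Icc (3 / 4 : ℝ) (7 / 8)) : lp (fun _ : ℕ => ℝ) 2 :=
  ⟨fun u => (a : ℝ) ^ u, memlp_geom a (by have := a.2.1; linarith) (by have := a.2.2; linarith)⟩

theorem gv_apply (a : Set.Icc (3 / 4 : ℝ) (7 / 8)) (u : ℕ) : (gv a : ℕ → ℝ) u = (a : ℝ) ^ u := rfl

theorem coeff_zero_of_orth (b : lp (fun _ : ℕ => ℝ) 2)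
    (hb : ∀ a : Set.Icc (3 / 4 : ℝ) (7 / 8), ∑' u : ℕ, (a : ℝ) ^ u * b u = 0) : ∀ u, b u = 0 := by
  -- the power series
  have hbd : ∀ u, ‖b u‖ ≤ ‖b‖ := fun u => lp.norm_apply_le_norm (by norm_num) b u
  let p : FormalMultilinearSeries ℝ ℝ ℝ := FormalMultilinearSeries.ofScalars ℝ (fun u => b u)
  have hr : (1 : ℝ≥0∞) ≤ p.radius := by
    have h1 : ((1 : NNReal) : ℝ≥0∞) ≤ p.radius := by
      apply p.le_radius_of_bound ‖b‖
      intro n
      have : ‖p n‖ ≤ ‖b n‖ := by
        have h := FormalMultilinearSeries.ofScalars_norm (𝕜 := ℝ) (E := ℝ) (fun u => b u) n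
        exact h.le
      simpa using this.trans (hbd n)
    simpa using h1
  have hf : HasFPowerSeriesOnBall p.sum p 0 p.radius :=
    p.hasFPowerSeriesOnBall (lt_of_lt_of_le zero_lt_one hr)
  have hsum : ∀ x : ℝ, p.sum x = ∑' u : ℕ, x ^ u * b u := by
    intro x
    unfold FormalMultilinearSeries.sum
    congr 1
    funext n
    have := FormalMultilinearSeries.ofScalars_apply_eq (𝕜 := ℝ) (E := ℝ) (fun u => b u) x n
    rw [this]
    simp [mul_comm]
  have han : AnalyticOnNhd ℝ p.sum (Metric.ball 0 1) := by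
    have h2 := hf.analyticOnNhd
    refine h2.mono ?_
    intro x hx
    have : edist x 0 < 1 := by
      rw [edist_dist]
      rw [Metric.mem_ball] at hx
      rw [← ENNReal.ofReal_one]
      exact (ENNReal.ofReal_lt_ofReal_iff one_pos).2 hx
    exact lt_of_lt_of_le this hr
  have hzero : Set.EqOn p.sum 0 (Metric.ball 0 1) := by
    apply han.eqOn_zero_of_preconnected_of_eventuallyEq_zero
      (convex_ball (0 : ℝ) 1).isPreconnected (z₀ := 13 / 16)
    · rw [Metric.mem_ball, Real.dist_eq]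
      norm_num
    · have : Set.Ioo (3 / 4 : ℝ) (7 / 8) ∈ 𝓝 (13 / 16 : ℝ) := Ioo_mem_nhds (by norm_num) (by norm_num)
      filter_upwards [this] with x hx
      rw [hsum]
      exact hb ⟨x, hx.1.le, hx.2.le⟩
  have hev : p.sum =ᶠ[𝓝 0] 0 := by
    filter_upwards [Metric.ball_mem_nhds (0 : ℝ) one_pos] with x hx
    exact hzero hx
  have hp0 : p = 0 := by
    have h3 : HasFPowerSeriesAt (0 : ℝ → ℝ) p 0 := hf.hasFPowerSeriesAt.congr hev
    exact h3.eq_zero
  intro u
  have h4 : p u = 0 := by rw [hp0]; rfl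
  have h5 : ‖p u‖ = ‖b u‖ := FormalMultilinearSeries.ofScalars_norm (𝕜 := ℝ) (E := ℝ) (fun u => b u) u
  rw [h4, norm_zero] at h5
  exact norm_eq_zero.1 h5.symm

theorem span_gv_dense :
    (Submodule.span ℝ (Set.range gv)).topologicalClosure = ⊤ := by
  rw [Submodule.topologicalClosure_eq_top_iff, Submodule.eq_bot_iff]
  intro b hb
  rw [Submodule.mem_orthogonal] at hb
  have h1 : ∀ u, b u = 0 := by
    apply coeff_zero_of_orth
    intro a
    have h2 := hb (gv a) (Submodule.subset_span ⟨a, rfl⟩)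
    rw [lp.inner_eq_tsum] at h2
    rw [← h2]
    congr 1
    funext u
    rw [gv_apply]
    simp [mul_comm]
  ext u
  exact h1 u

theorem exists_coeffs (ε : ℝ) (hε : 0 < ε) : ∃ (c : Set.Icc (3 / 4 : ℝ) (7 / 8) →₀ ℝ),
    |c.sum (fun _ r => r) - 1| ≤ ε ∧ ∀ u : ℕ, 1 ≤ u → |c.sum (fun a r => r * (a : ℝ) ^ u)| ≤ ε := by
  let e : lp (fun _ : ℕ => ℝ) 2 := lp.single 2 0 (1 : ℝ)
  have he : e ∈ closure ((Submodule.span ℝ (Set.range gv) : Submodule ℝ _) : Set _) := by
    have : e ∈ (Submodule.span ℝ (Set.range gv)).topologicalClosure := by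
      rw [span_gv_dense]; trivial
    exact this
  rw [Metric.mem_closure_iff] at he
  obtain ⟨y, hy, hey⟩ := he ε hε
  rw [SetLike.mem_coe, Finsupp.mem_span_range_iff_exists_finsupp] at hy
  obtain ⟨c, rfl⟩ := hy
  refine ⟨c, ?_, ?_⟩
  · have h1 := lp.norm_apply_le_norm (E := fun _ : ℕ => ℝ) (p := 2) (by norm_num)
      (e - c.sum fun i a => a • gv i) 0
    rw [← dist_eq_norm] at h1
    have h2 : (e - c.sum fun i a => a • gv i) 0 = 1 - c.sum (fun _ r => r) := by
      rw [lp.coeFn_sub, Pi.sub_apply]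
      have h3 : (e : ℕ → ℝ) 0 = 1 := by
        simp [e]
      rw [h3]
      congr 1
      rw [Finsupp.sum, lp.coeFn_sum, Finset.sum_apply, Finsupp.sum]
      apply Finset.sum_congr rfl
      intro i _
      rw [lp.coeFn_smul, Pi.smul_apply, gv_apply]
      simp
    rw [h2, Real.norm_eq_abs, abs_sub_comm] at h1
    exact h1.trans hey.le
  · intro u hu
    have h1 := lp.norm_apply_le_norm (E := fun _ : ℕ => ℝ) (p := 2) (by norm_num)
      (e - c.sum fun i a => a • gv i) u
    rw [← dist_eq_norm] at h1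
    have h2 : (e - c.sum fun i a => a • gv i) u = - c.sum (fun a r => r * (a : ℝ) ^ u) := by
      rw [lp.coeFn_sub, Pi.sub_apply]
      have h3 : (e : ℕ → ℝ) u = 0 := by
        have : u ≠ 0 := by omega
        simp [e, lp.single_apply_ne, this]
      rw [h3, zero_sub]
      congr 1
      rw [Finsupp.sum, lp.coeFn_sum, Finset.sum_apply, Finsupp.sum]
      apply Finset.sum_congr rfl
      intro i _
      rw [lp.coeFn_smul, Pi.smul_apply, gv_apply]
      simp
    rw [h2, Real.norm_eq_abs, abs_neg] at h1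
    exact h1.trans hey.le

end Pool.Agent.H481R3.HS
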