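import Mathlib
import Pool.Agent.H481R3.HSA

set_option autoImplicit false

open Filter Topology

namespace Pool.Agent.H481R3.HS

/-- the real value of a sign -/
def vl (v : ℤˣ) : ℝ := ((v : ℤ) : ℝ)

theorem vl_one : vl 1 = 1 := by simp [vl]
theorem vl_neg_one : vl (-1) = -1 := by simp [vl]
theorem vl_mul (v w : ℤˣ) : vl (v * w) = vl v * vl w := by simp [vl]
theorem vl_or (v : ℤˣ) : vl v = 1 ∨ vl v = -1 := by
  rcases Int.units_eq_one_or v with h | h
  · left; rw [h, vl_one]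
  · right; rw [h, vl_neg_one]
theorem vl_sq (v : ℤˣ) : vl v * vl v = 1 := by
  rcases vl_or v with h | h <;> rw [h] <;> norm_num
theorem abs_vl (v : ℤˣ) : |vl v| = 1 := by
  rcases vl_or v with h | h <;> rw [h] <;> norm_num

theorem sum_units (f : ℤˣ → ℝ) : ∑ v, f v = f 1 + f (-1) := by
  rw [UnitsInt.univ, Finset.sum_insert (by decide), Finset.sum_singleton]

theorem sum_prod {N : ℕ} (f : Fin N → ℤˣ → ℝ) :
    ∑ w : Fin N → ℤˣ, ∏ j, f j (w j) = ∏ j, ∑ v, f j v := by
  rw [Finset.prod_univ_sum, Fintype.piFinset_univ]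

/-- the product density -/
noncomputable def R {N : ℕ} (a : ℝ) (w : Fin N → ℤˣ) : ℝ := ∏ j, ((1 + a * vl (w j)) / 2)

theorem R_nonneg {N : ℕ} (a : ℝ) (h0 : 0 ≤ a) (h1 : a ≤ 1) (w : Fin N → ℤˣ) : 0 ≤ R a w := by
  apply Finset.prod_nonneg
  intro j _
  rcases vl_or (w j) with h | h <;> rw [h] <;> linarith

theorem sum_R {N : ℕ} (a : ℝ) : ∑ w : Fin N → ℤˣ, R a w = 1 := by
  unfold R
  rw [sum_prod (fun _ v => (1 + a * vl v) / 2)]
  apply Finset.prod_eq_one
  intro j _
  rw [sum_units, vl_one, vl_neg_one]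
  ring

theorem sum_R_U {N : ℕ} (a : ℝ) (U : Finset (Fin N)) :
    ∑ w : Fin N → ℤˣ, R a w * ∏ i ∈ U, vl (w i) = a ^ U.card := by
  have h1 : ∀ w : Fin N → ℤˣ, R a w * ∏ i ∈ U, vl (w i) =
      ∏ j, (((1 + a * vl (w j)) / 2) * (if j ∈ U then vl (w j) else 1)) := by
    intro w
    rw [Finset.prod_mul_distrib]
    unfold R
    congr 1
    rw [Finset.prod_ite_mem, Finset.univ_inter]
  simp_rw [h1]
  rw [sum_prod (fun j v => ((1 + a * vl v) / 2) * (if j ∈ U then vl v else 1))]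
  have h2 : ∀ j : Fin N, ∑ v, ((1 + a * vl v) / 2) * (if j ∈ U then vl v else 1) =
      if j ∈ U then a else 1 := by
    intro j
    rw [sum_units, vl_one, vl_neg_one]
    split_ifs <;> ring
  simp_rw [h2]
  rw [Finset.prod_ite_mem, Finset.univ_inter, Finset.prod_const]

theorem sum_R_pair {N : ℕ} (a : ℝ) (i k : Fin N) :
    ∑ w : Fin N → ℤˣ, R a w * ((vl (w i) - a) * (vl (w k) - a)) = if i = k then 1 - a ^ 2 else 0 := by
  have h1 : ∀ w : Fin N → ℤˣ, R a w * ((vl (w i) - a) * (vl (w k) - a)) =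
      ∏ j, (((1 + a * vl (w j)) / 2) * ((if j = i then (vl (w j) - a) else 1) *
        (if j = k then (vl (w j) - a) else 1))) := by
    intro w
    rw [Finset.prod_mul_distrib, Finset.prod_mul_distrib]
    unfold R
    congr 2
    · rw [Finset.prod_ite_eq']; simp
    · rw [Finset.prod_ite_eq']; simp
  simp_rw [h1]
  rw [sum_prod (fun j v => ((1 + a * vl v) / 2) * ((if j = i then (vl v - a) else 1) *
        (if j = k then (vl v - a) else 1)))]
  have h2 : ∀ j : Fin N, ∑ v, ((1 + a * vl v) / 2) * ((if j = i then (vl v - a) else 1) *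
        (if j = k then (vl v - a) else 1)) =
      if j = i then (if j = k then 1 - a ^ 2 else 0) else (if j = k then 0 else 1) := by
    intro j
    rw [sum_units, vl_one, vl_neg_one]
    split_ifs <;> ring
  simp_rw [h2]
  by_cases hik : i = k
  · subst hik
    rw [if_pos rfl]
    have : ∀ j : Fin N, (if j = i then (if j = i then 1 - a ^ 2 else 0) else (if j = i then 0 else 1))
        = if j = i then 1 - a ^ 2 else 1 := by
      intro j; split_ifs <;> rfl
    simp_rw [this]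
    rw [Finset.prod_ite_eq']; simp
  · rw [if_neg hik]
    apply Finset.prod_eq_zero (Finset.mem_univ i)
    rw [if_pos rfl, if_neg hik]

theorem sum_R_var {N : ℕ} (a : ℝ) :
    ∑ w : Fin N → ℤˣ, R a w * (∑ j, (vl (w j) - a)) ^ 2 = N * (1 - a ^ 2) := by
  have h1 : ∀ w : Fin N → ℤˣ, R a w * (∑ j, (vl (w j) - a)) ^ 2 =
      ∑ i, ∑ k, R a w * ((vl (w i) - a) * (vl (w k) - a)) := by
    intro w
    rw [sq, Finset.sum_mul_sum, Finset.mul_sum]
    apply Finset.sum_congr rfl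
    intro i _
    rw [Finset.mul_sum]
  simp_rw [h1]
  rw [Finset.sum_comm]
  have h2 : ∀ i : Fin N, ∑ w : Fin N → ℤˣ, ∑ k, R a w * ((vl (w i) - a) * (vl (w k) - a)) =
      1 - a ^ 2 := by
    intro i
    rw [Finset.sum_comm]
    simp_rw [sum_R_pair]
    simp
  simp_rw [h2]
  rw [Finset.sum_const, Finset.card_univ, Fintype.card_fin, nsmul_eq_mul]

theorem tail_R {N : ℕ} (hN : 1 ≤ N) (a : ℝ) (h0 : 3 / 4 ≤ a) (h1 : a ≤ 1) :
    ∑ w : Fin N → ℤˣ, (if (N : ℝ) / 2 ≤ ∑ j, vl (w j) then 0 else R a w) ≤ 16 / N := by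
  have hN' : (0 : ℝ) < N := by exact_mod_cast hN
  have h2 : ∀ w : Fin N → ℤˣ, (if (N : ℝ) / 2 ≤ ∑ j, vl (w j) then 0 else R a w) ≤
      R a w * (∑ j, (vl (w j) - a)) ^ 2 * (16 / N ^ 2) := by
    intro w
    have hR := R_nonneg a (by linarith) h1 w
    split_ifs with h
    · positivity
    · push Not at h
      have h3 : ∑ j, (vl (w j) - a) ≤ - (N / 4) := by
        rw [Finset.sum_sub_distrib]
        simp only [Finset.sum_const, Finset.card_univ, Fintype.card_fin, nsmul_eq_mul]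
        nlinarith
      have h4 : (N / 4 : ℝ) ^ 2 ≤ (∑ j, (vl (w j) - a)) ^ 2 := by nlinarith
      have h5 : 1 ≤ (∑ j, (vl (w j) - a)) ^ 2 * (16 / N ^ 2) := by
        rw [mul_div_assoc', le_div_iff₀ (by positivity)]
        nlinarith
      calc R a w = R a w * 1 := (mul_one _).symm
        _ ≤ R a w * ((∑ j, (vl (w j) - a)) ^ 2 * (16 / N ^ 2)) := mul_le_mul_of_nonneg_left h5 hR
        _ = _ := by ring
  refine (Finset.sum_le_sum (fun w _ => h2 w)).trans ?_
  rw [← Finset.sum_mul, sum_R_var]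
  have h6 : (N : ℝ) * (1 - a ^ 2) * (16 / N ^ 2) = (1 - a ^ 2) * (16 / N) := by
    field_simp
  rw [h6]
  have h7 : 0 ≤ (16 : ℝ) / N := by positivity
  nlinarith [sq_nonneg a]

/-- the finite lemma -/
theorem exists_Q (ε : ℝ) (hε : 0 < ε) : ∃ (N : ℕ) (Q : (Fin N → ℤˣ) → ℝ), 1 ≤ N ∧
    ∑ w, Q w = 1 ∧
    (∀ U : Finset (Fin N), U.Nonempty → |∑ w, Q w * ∏ i ∈ U, vl (w i)| ≤ ε) ∧
    (∀ w, Q w ≠ 0 → (N : ℝ) / 2 ≤ ∑ j, vl (w j)) := by
  set η : ℝ := min (ε / 4) (1 / 4) with hη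
  have hη0 : 0 < η := lt_min (by linarith) (by norm_num)
  have hη1 : η ≤ 1 / 4 := min_le_right _ _
  have hη2 : η ≤ ε / 4 := min_le_left _ _
  obtain ⟨c, hc1, hcu⟩ := exists_coeffs η hη0
  set C : ℝ := c.sum (fun _ r => |r|) with hC
  obtain ⟨N0, hN0⟩ := exists_nat_ge (16 * C / η)
  set N : ℕ := N0 + 1 with hN
  have hN1 : 1 ≤ N := by omega
  have hNpos : (0 : ℝ) < N := by exact_mod_cast hN1
  have hCN : C * (16 / N) ≤ η := by
    have : 16 * C / η ≤ N := hN0.trans (by rw [hN]; push_cast; linarith)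
    rw [div_le_iff₀ hη0] at this
    rw [mul_div_assoc', div_le_iff₀ hNpos]
    linarith
  let Q0 : (Fin N → ℤˣ) → ℝ := fun w => c.sum (fun a r => r * R (a : ℝ) w)
  let Q1 : (Fin N → ℤˣ) → ℝ := fun w => if (N : ℝ) / 2 ≤ ∑ j, vl (w j) then Q0 w else 0
  have herr : ∀ g : (Fin N → ℤˣ) → ℝ, (∀ w, |g w| ≤ 1) →
      |∑ w, Q1 w * g w - ∑ w, Q0 w * g w| ≤ η := by
    intro g hg
    rw [← Finset.sum_sub_distrib]
    refine (Finset.abs_sum_le_sum_abs _ _).trans ?_
    have h1 : ∀ w, |Q1 w * g w - Q0 w * g w| ≤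
        c.sum (fun a r => |r| * (if (N : ℝ) / 2 ≤ ∑ j, vl (w j) then 0 else R (a : ℝ) w)) := by
      intro w
      by_cases h : (N : ℝ) / 2 ≤ ∑ j, vl (w j)
      · simp only [Q1, if_pos h, sub_self, abs_zero, mul_zero]
        simp [Finsupp.sum]
      · simp only [Q1, if_neg h, zero_mul, zero_sub, abs_neg, abs_mul]
        have h2 : |Q0 w| ≤ c.sum (fun a r => |r| * R (a : ℝ) w) := by
          simp only [Q0, Finsupp.sum]
          refine (Finset.abs_sum_le_sum_abs _ _).trans ?_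
          apply Finset.sum_le_sum
          intro a _
          rw [abs_mul, abs_of_nonneg (R_nonneg (a : ℝ) (by have := a.2.1; linarith)
            (by have := a.2.2; linarith) w)]
        calc |Q0 w| * |g w| ≤ |Q0 w| * 1 := mul_le_mul_of_nonneg_left (hg w) (abs_nonneg _)
          _ ≤ _ := by rw [mul_one]; exact h2
    refine (Finset.sum_le_sum (fun w _ => h1 w)).trans ?_
    simp only [Finsupp.sum]
    rw [Finset.sum_comm]
    calc ∑ a ∈ c.support, ∑ w : Fin N → ℤˣ, |c a| * (if (N : ℝ) / 2 ≤ ∑ j, vl (w j) then 0 else R (a : ℝ) w)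
        ≤ ∑ a ∈ c.support, |c a| * (16 / N) := by
          apply Finset.sum_le_sum
          intro a _
          rw [← Finset.mul_sum]
          exact mul_le_mul_of_nonneg_left (tail_R hN1 a a.2.1 (by have := a.2.2; linarith))
            (abs_nonneg _)
      _ = C * (16 / N) := by
          rw [hC, Finsupp.sum, Finset.sum_mul]
      _ ≤ η := hCN
  have hmom : ∀ U : Finset (Fin N), ∑ w, Q0 w * ∏ i ∈ U, vl (w i) =
      c.sum (fun a r => r * (a : ℝ) ^ U.card) := by
    intro U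
    simp only [Q0, Finsupp.sum]
    simp_rw [Finset.sum_mul]
    rw [Finset.sum_comm]
    apply Finset.sum_congr rfl
    intro a _
    simp_rw [mul_assoc]
    rw [← Finset.mul_sum, sum_R_U]
  have hprod : ∀ (U : Finset (Fin N)) (w : Fin N → ℤˣ), |∏ i ∈ U, vl (w i)| ≤ 1 := by
    intro U w
    rw [Finset.abs_prod]
    apply le_of_eq
    apply Finset.prod_eq_one
    intro i _
    exact abs_vl _
  set s : ℝ := ∑ w, Q1 w with hs
  have hs1 : |s - 1| ≤ 2 * η := by
    have h1 := herr (fun _ => 1) (fun w => by simp)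
    simp only [mul_one] at h1
    have h2 : ∑ w, Q0 w = c.sum (fun _ r => r) := by
      have := hmom ∅
      simpa using this
    rw [h2] at h1
    calc |s - 1| = |(s - c.sum (fun _ r => r)) + (c.sum (fun _ r => r) - 1)| := by congr 1; ring
      _ ≤ |s - c.sum (fun _ r => r)| + |c.sum (fun _ r => r) - 1| := abs_add_le _ _
      _ ≤ η + η := add_le_add h1 hc1
      _ = 2 * η := by ring
  have hs2 : 1 / 2 ≤ s := by
    have := (abs_le.1 hs1).1
    linarith
  refine ⟨N, fun w => Q1 w / s, hN1, ?_, ?_, ?_⟩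
  · rw [← Finset.sum_div, div_self (by linarith)]
  · intro U hU
    have h1 := herr (fun w => ∏ i ∈ U, vl (w i)) (hprod U)
    rw [hmom] at h1
    have h2 := hcu U.card (Finset.card_pos.2 hU)
    have h3 : |∑ w, Q1 w * ∏ i ∈ U, vl (w i)| ≤ 2 * η := by
      calc |∑ w, Q1 w * ∏ i ∈ U, vl (w i)| =
          |(∑ w, Q1 w * ∏ i ∈ U, vl (w i) - c.sum (fun a r => r * (a : ℝ) ^ U.card)) +
            c.sum (fun a r => r * (a : ℝ) ^ U.card)| := by congr 1; ring
        _ ≤ _ := abs_add_le _ _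
        _ ≤ η + η := add_le_add h1 h2
        _ = 2 * η := by ring
    have h4 : ∑ w, Q1 w / s * ∏ i ∈ U, vl (w i) = (∑ w, Q1 w * ∏ i ∈ U, vl (w i)) / s := by
      rw [Finset.sum_div]
      apply Finset.sum_congr rfl
      intro w _
      ring
    rw [h4, abs_div, abs_of_pos (by linarith : 0 < s), div_le_iff₀ (by linarith)]
    nlinarith
  · intro w hw
    by_contra h
    apply hw
    simp only [Q1, if_neg h, zero_div]

end Pool.Agent.H481R3.HS
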