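import Mathlib
import Pool.Agent.H481R3.HSA2

set_option autoImplicit false

open Filter Topology

namespace Pool.Agent.H481R3.HS

/-- the Cantor group -/
abbrev CG : Type := ℕ → ℤˣ

/-- Walsh functions -/
noncomputable def W (T : Finset ℕ) (x : CG) : ℂ := ∏ i ∈ T, ((vl (x i) : ℝ) : ℂ)

/-- evaluation of a finite combination of point masses -/
noncomputable def ev (m : CG →₀ ℝ) (g : CG → ℂ) : ℂ := m.sum (fun p c => (c : ℂ) * g p)

/-- total mass -/
noncomputable def tv (m : CG →₀ ℝ) : ℝ := m.sum (fun _ c => |c|)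

theorem tv_nonneg (m : CG →₀ ℝ) : 0 ≤ tv m := Finset.sum_nonneg (fun _ _ => abs_nonneg _)

/-- functions depending on the first `n` coordinates -/
def Lev {α : Type} (n : ℕ) (g : CG → α) : Prop := ∀ x y : CG, (∀ i < n, x i = y i) → g x = g y

/-- glue -/
def glue (n : ℕ) (p : CG) {N : ℕ} (y : Fin N → ℤˣ) : CG :=
  fun i => if i < n then p i else if h : i - n < N then y ⟨i - n, h⟩ else 1

theorem glue_lt (n : ℕ) (p : CG) {N : ℕ} (y : Fin N → ℤˣ) (i : ℕ) (h : i < n) :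
    glue n p y i = p i := by simp [glue, h]

theorem glue_add (n : ℕ) (p : CG) {N : ℕ} (y : Fin N → ℤˣ) (j : Fin N) :
    glue n p y (n + j) = y j := by
  have h1 : ¬ (n + (j : ℕ) < n) := by omega
  have h2 : n + (j : ℕ) - n < N := by have := j.2; omega
  unfold glue
  rw [if_neg h1, dif_pos h2]
  congr 1
  apply Fin.ext
  simp

theorem glue_ge (n : ℕ) (p : CG) {N : ℕ} (y : Fin N → ℤˣ) (i : ℕ) (h : n + N ≤ i) :
    glue n p y i = 1 := by
  have h1 : ¬ (i < n) := by omega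
  have h2 : ¬ (i - n < N) := by omega
  unfold glue
  rw [if_neg h1, dif_neg h2]

/-- the next system of point masses -/
noncomputable def push (n : ℕ) (m : CG →₀ ℝ) (φ : CG → ℤˣ) {N : ℕ} (Q : (Fin N → ℤˣ) → ℝ) :
    CG →₀ ℝ :=
  m.sum (fun p c => ∑ w, Finsupp.single (glue n p (fun j => φ p * w j)) (c * Q w))

theorem ev_single (p : CG) (c : ℝ) (g : CG → ℂ) : ev (Finsupp.single p c) g = (c : ℂ) * g p := by
  unfold ev
  rw [Finsupp.sum_single_index]
  simp

theorem ev_add (m m' : CG →₀ ℝ) (g : CG → ℂ) : ev (m + m') g = ev m g + ev m' g := by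
  unfold ev
  rw [Finsupp.sum_add_index']
  · intro a; simp
  · intro a b c; push_cast; ring

theorem ev_zero (g : CG → ℂ) : ev 0 g = 0 := by
  unfold ev
  exact Finsupp.sum_zero_index

theorem ev_sum {ι : Type} (s : Finset ι) (m : ι → (CG →₀ ℝ)) (g : CG → ℂ) :
    ev (∑ i ∈ s, m i) g = ∑ i ∈ s, ev (m i) g := by
  classical
  induction s using Finset.induction_on with
  | empty => simp [ev_zero]
  | insert a s ha ih => rw [Finset.sum_insert ha, Finset.sum_insert ha, ev_add, ih]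

theorem ev_push (n : ℕ) (m : CG →₀ ℝ) (φ : CG → ℤˣ) {N : ℕ} (Q : (Fin N → ℤˣ) → ℝ)
    (g : CG → ℂ) : ev (push n m φ Q) g =
      m.sum (fun p c => (c : ℂ) * ∑ w, (Q w : ℂ) * g (glue n p (fun j => φ p * w j))) := by
  unfold push
  rw [Finsupp.sum, ev_sum, Finsupp.sum]
  apply Finset.sum_congr rfl
  intro p _
  rw [ev_sum, Finset.mul_sum]
  apply Finset.sum_congr rfl
  intro w _
  rw [ev_single]
  push_cast
  ring

theorem norm_ev_le (m : CG →₀ ℝ) (g : CG → ℂ) (C : ℝ) (hC : ∀ p ∈ m.support, ‖g p‖ ≤ C) :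
    ‖ev m g‖ ≤ tv m * C := by
  unfold ev tv
  rw [Finsupp.sum, Finsupp.sum, Finset.sum_mul]
  refine (norm_sum_le _ _).trans (Finset.sum_le_sum (fun p hp => ?_))
  rw [norm_mul, Complex.norm_real, Real.norm_eq_abs]
  exact mul_le_mul_of_nonneg_left (hC p hp) (abs_nonneg _)

theorem ev_congr (m : CG →₀ ℝ) (g g' : CG → ℂ) (h : ∀ p ∈ m.support, g p = g' p) :
    ev m g = ev m g' := by
  unfold ev
  exact Finset.sum_congr rfl (fun p hp => by simp only [h p hp])

theorem ev_addf (m : CG →₀ ℝ) (g g' : CG → ℂ) : ev m (g + g') = ev m g + ev m g' := by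
  unfold ev
  rw [Finsupp.sum, Finsupp.sum, Finsupp.sum, ← Finset.sum_add_distrib]
  exact Finset.sum_congr rfl (fun p hp => by rw [Pi.add_apply]; ring)

theorem ev_subf (m : CG →₀ ℝ) (g g' : CG → ℂ) : ev m (g - g') = ev m g - ev m g' := by
  unfold ev
  rw [Finsupp.sum, Finsupp.sum, Finsupp.sum, ← Finset.sum_sub_distrib]
  exact Finset.sum_congr rfl (fun p hp => by rw [Pi.sub_apply]; ring)

theorem ev_smulf (m : CG →₀ ℝ) (c : ℂ) (g : CG → ℂ) : ev m (c • g) = c * ev m g := by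
  unfold ev
  rw [Finsupp.sum, Finsupp.sum, Finset.mul_sum]
  exact Finset.sum_congr rfl (fun p hp => by rw [Pi.smul_apply, smul_eq_mul]; ring)

/-- the support of `push` -/
theorem mem_push (n : ℕ) (m : CG →₀ ℝ) (φ : CG → ℤˣ) {N : ℕ} (Q : (Fin N → ℤˣ) → ℝ) (q : CG)
    (hq : q ∈ (push n m φ Q).support) : ∃ p ∈ m.support, ∃ w, Q w ≠ 0 ∧
      q = glue n p (fun j => φ p * w j) := by
  classical
  by_contra hcon
  push Not at hcon
  rw [Finsupp.mem_support_iff] at hq
  apply hq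
  unfold push
  rw [Finsupp.sum, Finsupp.finset_sum_apply]
  apply Finset.sum_eq_zero
  intro p hp
  rw [Finsupp.finset_sum_apply]
  apply Finset.sum_eq_zero
  intro w _
  by_cases hw : Q w = 0
  · rw [hw, mul_zero, Finsupp.single_zero]; rfl
  · rw [Finsupp.single_apply, if_neg]
    exact fun h => hcon p hp w hw h.symm

theorem ev_push_lev (n : ℕ) (m : CG →₀ ℝ) (φ : CG → ℤˣ) {N : ℕ} (Q : (Fin N → ℤˣ) → ℝ)
    (hQ : ∑ w, Q w = 1) (g : CG → ℂ) (hg : ∀ p (y : Fin N → ℤˣ), p ∈ m.support → g (glue n p y) = g p) :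
    ev (push n m φ Q) g = ev m g := by
  rw [ev_push]
  unfold ev
  apply Finset.sum_congr rfl
  intro p hp
  simp only
  congr 1
  simp_rw [hg p _ hp]
  rw [← Finset.sum_mul]
  have : (∑ w, (Q w : ℂ)) = 1 := by exact_mod_cast congrArg (fun r : ℝ => (r : ℂ)) hQ
  rw [this, one_mul]

theorem W_glue (n : ℕ) (p : CG) {N : ℕ} (y : Fin N → ℤˣ) (T : Finset ℕ) :
    W T (glue n p y) = (∏ i ∈ T.filter (· < n), ((vl (p i) : ℝ) : ℂ)) *
      ∏ j ∈ Finset.univ.filter (fun j : Fin N => n + (j : ℕ) ∈ T), ((vl (y j) : ℝ) : ℂ) := by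
  unfold W
  rw [← Finset.prod_filter_mul_prod_filter_not T (· < n)]
  congr 1
  · apply Finset.prod_congr rfl
    intro i hi
    rw [Finset.mem_filter] at hi
    rw [glue_lt n p y i hi.2]
  · rw [← Finset.prod_filter_mul_prod_filter_not (T.filter (fun i => ¬ i < n)) (· < n + N)]
    have h2 : ∏ i ∈ (T.filter (fun i => ¬ i < n)).filter (fun i => ¬ i < n + N),
        ((vl (glue n p y i) : ℝ) : ℂ) = 1 := by
      apply Finset.prod_eq_one
      intro i hi
      rw [Finset.mem_filter] at hi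
      rw [glue_ge n p y i (by omega), vl_one]
      simp
    rw [h2, mul_one]
    symm
    apply Finset.prod_bij (fun (j : Fin N) _ => n + (j : ℕ))
    · intro j hj
      rw [Finset.mem_filter] at hj
      rw [Finset.mem_filter, Finset.mem_filter]
      have := j.2
      exact ⟨⟨hj.2, by omega⟩, by omega⟩
    · intro j _ k _ h
      apply Fin.ext
      omega
    · intro i hi
      rw [Finset.mem_filter, Finset.mem_filter] at hi
      refine ⟨⟨i - n, by omega⟩, ?_, ?_⟩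
      · rw [Finset.mem_filter]
        refine ⟨Finset.mem_univ _, ?_⟩
        have : n + (i - n) = i := by omega
        simp only
        rw [this]
        exact hi.1.1
      · simp only
        omega
    · intro j _
      rw [glue_add]

theorem norm_prod_vl {ι : Type} (s : Finset ι) (f : ι → ℤˣ) : ‖∏ i ∈ s, ((vl (f i) : ℝ) : ℂ)‖ = 1 := by
  rw [norm_prod]
  apply Finset.prod_eq_one
  intro i _
  rw [Complex.norm_real, Real.norm_eq_abs, abs_vl]

/-- a Walsh function meeting the new block has small integral -/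
theorem ev_push_W (n : ℕ) (m : CG →₀ ℝ) (φ : CG → ℤˣ) {N : ℕ} (Q : (Fin N → ℤˣ) → ℝ)
    (ε : ℝ) (hε : 0 ≤ ε)
    (hQ : ∀ U : Finset (Fin N), U.Nonempty → |∑ w, Q w * ∏ i ∈ U, vl (w i)| ≤ ε)
    (T : Finset ℕ) (hT : ∃ j : Fin N, n + (j : ℕ) ∈ T) : ‖ev (push n m φ Q) (W T)‖ ≤ tv m * ε := by
  rw [ev_push]
  unfold tv
  rw [Finsupp.sum, Finsupp.sum, Finset.sum_mul]
  refine (norm_sum_le _ _).trans (Finset.sum_le_sum (fun p hp => ?_))
  rw [norm_mul, Complex.norm_real, Real.norm_eq_abs]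
  refine mul_le_mul_of_nonneg_left ?_ (abs_nonneg _)
  set U : Finset (Fin N) := Finset.univ.filter (fun j : Fin N => n + (j : ℕ) ∈ T) with hU
  have h1 : ∀ w : Fin N → ℤˣ, (Q w : ℂ) * W T (glue n p (fun j => φ p * w j)) =
      ((∏ i ∈ T.filter (· < n), ((vl (p i) : ℝ) : ℂ)) * ∏ j ∈ U, ((vl (φ p) : ℝ) : ℂ)) *
        ((Q w * ∏ i ∈ U, vl (w i) : ℝ) : ℂ) := by
    intro w
    rw [W_glue]
    have : ∏ j ∈ U, ((vl (φ p * w j) : ℝ) : ℂ) =
        (∏ j ∈ U, ((vl (φ p) : ℝ) : ℂ)) * ∏ j ∈ U, ((vl (w j) : ℝ) : ℂ) := by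
      rw [← Finset.prod_mul_distrib]
      apply Finset.prod_congr rfl
      intro j _
      rw [vl_mul]
      push_cast
      ring
    rw [this]
    push_cast
    ring
  simp_rw [h1]
  rw [← Finset.mul_sum, norm_mul, norm_mul, norm_prod_vl, norm_prod_vl U (fun _ => φ p), one_mul,
    one_mul, ← Complex.ofReal_sum, Complex.norm_real, Real.norm_eq_abs]
  apply hQ
  obtain ⟨j, hj⟩ := hT
  exact ⟨j, by rw [hU, Finset.mem_filter]; exact ⟨Finset.mem_univ _, hj⟩⟩

end Pool.Agent.H481R3.HS
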