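import Mathlib
import Pool.Agent.H481R3.HSB

set_option autoImplicit false

open Filter Topology

namespace Pool.Agent.H481R3.HS

theorem Lev.mono {α : Type} {n n' : ℕ} (h : n ≤ n') {g : CG → α} (hg : Lev n g) : Lev n' g :=
  fun x y hxy => hg x y (fun i hi => hxy i (by omega))

theorem Lev.glue {α : Type} {n : ℕ} {g : CG → α} (hg : Lev n g) (n' : ℕ) (h : n ≤ n') (p : CG)
    {N : ℕ} (y : Fin N → ℤˣ) : g (glue n' p y) = g p :=
  hg _ _ (fun i hi => glue_lt n' p y i (by omega))

/-! ### enumeration of the locally constant sign functions -/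

/-- codes of sign functions -/
abbrev Code : Type := Σ n : ℕ, ((Fin n → ℤˣ) → ℤˣ)

theorem exists_enum : ∃ f : ℕ → Code, Function.Surjective f := exists_surjective_nat Code

/-- the enumeration -/
noncomputable def en : ℕ → Code := exists_enum.choose

theorem en_surj : Function.Surjective en := exists_enum.choose_spec

/-- the sign function used at stage `k` if the level is `n` -/
noncomputable def phi (k n : ℕ) : CG → ℤˣ := fun x =>
  if (en (Nat.unpair k).1).1 ≤ n then (en (Nat.unpair k).1).2 (fun i => x i) else 1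

theorem phi_lev (k n : ℕ) : Lev n (phi k n) := by
  intro x y hxy
  unfold phi
  split_ifs with h
  · have : (fun i : Fin (en (Nat.unpair k).1).1 => x i) = fun i : Fin (en (Nat.unpair k).1).1 => y i := by
      funext i
      exact hxy i (by have := i.2; omega)
    rw [this]
  · rfl

/-- the extension of a finite pattern by ones -/
def ext1 {n : ℕ} (y : Fin n → ℤˣ) : CG := fun i => if h : i < n then y ⟨i, h⟩ else 1

theorem exists_stage (n : ℕ) (φ : CG → ℤˣ) (hφ : Lev n φ) (K : ℕ) :
    ∃ k, K ≤ k ∧ ∀ n', n ≤ n' → phi k n' = φ := by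
  obtain ⟨i, hi⟩ := en_surj ⟨n, fun y => φ (ext1 y)⟩
  refine ⟨Nat.pair i K, Nat.right_le_pair i K, ?_⟩
  intro n' hn
  funext x
  unfold phi
  rw [Nat.unpair_pair]
  simp only
  rw [hi, if_pos hn]
  apply hφ
  intro j hj
  simp [ext1, hj]

/-! ### the states -/

/-- a stage of the construction -/
structure St where
  /-- level -/
  n : ℕ
  /-- masses -/
  m : CG →₀ ℝ
  /-- the set -/
  E : Set CG

/-- the precision at stage `k` -/
noncomputable def prec (k : ℕ) (s : St) : ℝ := 1 / ((tv s.m + 1) * 2 ^ k)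

theorem prec_pos (k : ℕ) (s : St) : 0 < prec k s := by
  unfold prec
  have := tv_nonneg s.m
  positivity

/-- block length -/
noncomputable def bN (k : ℕ) (s : St) : ℕ := (exists_Q (prec k s) (prec_pos k s)).choose

/-- block density -/
noncomputable def bQ (k : ℕ) (s : St) : (Fin (bN k s) → ℤˣ) → ℝ :=
  (exists_Q (prec k s) (prec_pos k s)).choose_spec.choose

theorem bQ_spec (k : ℕ) (s : St) : 1 ≤ bN k s ∧ ∑ w, bQ k s w = 1 ∧
    (∀ U : Finset (Fin (bN k s)), U.Nonempty → |∑ w, bQ k s w * ∏ i ∈ U, vl (w i)| ≤ prec k s) ∧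
    (∀ w, bQ k s w ≠ 0 → (bN k s : ℝ) / 2 ≤ ∑ j, vl (w j)) :=
  (exists_Q (prec k s) (prec_pos k s)).choose_spec.choose_spec

/-- the average of the Rademacher functions of the block -/
noncomputable def av (n N : ℕ) (x : CG) : ℝ := (∑ j : Fin N, vl (x (n + j))) / N

/-- next stage -/
noncomputable def next (k : ℕ) (s : St) : St where
  n := s.n + bN k s
  m := push s.n s.m (phi k s.n) (bQ k s)
  E := s.E ∩ {x | 1 / 2 ≤ vl (phi k s.n x) * av s.n (bN k s) x}

/-- the stages -/
noncomputable def st : ℕ → St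
  | 0 => ⟨0, Finsupp.single 1 1, Set.univ⟩
  | k + 1 => next k (st k)

theorem st_zero : st 0 = ⟨0, Finsupp.single 1 1, Set.univ⟩ := rfl
theorem st_succ (k : ℕ) : st (k + 1) = next k (st k) := rfl

theorem n_succ (k : ℕ) : (st (k + 1)).n = (st k).n + bN k (st k) := rfl
theorem m_succ (k : ℕ) : (st (k + 1)).m = push (st k).n (st k).m (phi k (st k).n) (bQ k (st k)) := rfl
theorem E_succ (k : ℕ) : (st (k + 1)).E = (st k).E ∩
    {x | 1 / 2 ≤ vl (phi k (st k).n x) * av (st k).n (bN k (st k)) x} := rfl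

theorem le_n (k : ℕ) : k ≤ (st k).n := by
  induction k with
  | zero => exact Nat.zero_le _
  | succ k ih =>
    rw [n_succ]
    have := (bQ_spec k (st k)).1
    omega

theorem n_mono {j k : ℕ} (h : j ≤ k) : (st j).n ≤ (st k).n := by
  induction k, h using Nat.le_induction with
  | base => exact le_rfl
  | succ k _ ih =>
    rw [n_succ]
    omega

theorem E_anti {j k : ℕ} (h : j ≤ k) : (st k).E ⊆ (st j).E := by
  induction k, h using Nat.le_induction with
  | base => exact le_rfl
  | succ k _ ih =>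
    rw [E_succ]
    exact Set.inter_subset_left.trans ih

theorem av_lev (n N : ℕ) : Lev (n + N) (av n N) := by
  intro x y hxy
  unfold av
  congr 1
  apply Finset.sum_congr rfl
  intro j _
  rw [hxy (n + j) (by have := j.2; omega)]

theorem E_lev (k : ℕ) : Lev (st k).n (fun x => x ∈ (st k).E) := by
  induction k with
  | zero =>
    intro x y _
    simp [st_zero]
  | succ k ih =>
    intro x y hxy
    have h1 : (x ∈ (st k).E) = (y ∈ (st k).E) := (ih.mono (n_mono (Nat.le_succ k))) x y hxy
    have h2 : phi k (st k).n x = phi k (st k).n y :=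
      ((phi_lev k (st k).n).mono (n_mono (Nat.le_succ k))) x y hxy
    have h3 : av (st k).n (bN k (st k)) x = av (st k).n (bN k (st k)) y := av_lev _ _ x y hxy
    simp only [E_succ, Set.mem_inter_iff, Set.mem_setOf_eq]
    rw [h1, h2, h3]

/-- the masses have ones as tails -/
theorem supp_tail (k : ℕ) : ∀ p ∈ (st k).m.support, ∀ i, (st k).n ≤ i → p i = 1 := by
  induction k with
  | zero =>
    intro p hp i _
    have h1 : p ∈ (Finsupp.single (1 : CG) (1 : ℝ)).support := hp
    have h2 := Finsupp.support_single_subset h1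
    rw [Finset.mem_singleton] at h2
    rw [h2]
    rfl
  | succ k ih =>
    intro q hq i hi
    rw [m_succ] at hq
    obtain ⟨p, hp, w, hw, rfl⟩ := mem_push _ _ _ _ _ hq
    rw [glue_ge]
    exact hi

/-- the masses are in the set -/
theorem supp_E (k : ℕ) : ∀ p ∈ (st k).m.support, p ∈ (st k).E := by
  induction k with
  | zero =>
    intro p hp
    exact Set.mem_univ p
  | succ k ih =>
    intro q hq
    rw [m_succ] at hq
    obtain ⟨p, hp, w, hw, rfl⟩ := mem_push _ _ _ _ _ hq
    rw [E_succ]
    refine ⟨?_, ?_⟩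
    · have := (E_lev k).glue (st k).n le_rfl p (fun j => phi k (st k).n p * w j)
      simp only [eq_iff_iff] at this
      exact this.2 (ih p hp)
    · rw [Set.mem_setOf_eq, (phi_lev k (st k).n).glue (st k).n le_rfl p]
      unfold av
      simp_rw [glue_add, vl_mul]
      rw [← Finset.mul_sum, ← mul_div_assoc, ← mul_assoc, vl_sq, one_mul]
      have h1 := (bQ_spec k (st k)).2.2.2 w hw
      have h2 := (bQ_spec k (st k)).1
      have h3 : (0 : ℝ) < bN k (st k) := by exact_mod_cast h2
      rw [le_div_iff₀ h3]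
      linarith

/-- consistency -/
theorem ev_succ_lev (k : ℕ) (g : CG → ℂ) (hg : Lev (st k).n g) :
    ev (st (k + 1)).m g = ev (st k).m g := by
  rw [m_succ]
  apply ev_push_lev _ _ _ _ (bQ_spec k (st k)).2.1
  intro p y _
  exact hg.glue _ le_rfl p y

theorem ev_lev {j k : ℕ} (h : j ≤ k) (g : CG → ℂ) (hg : Lev (st j).n g) :
    ev (st k).m g = ev (st j).m g := by
  induction k, h using Nat.le_induction with
  | base => rfl
  | succ k hk ih =>
    rw [ev_succ_lev k g (hg.mono (n_mono hk)), ih]

theorem ev_one (k : ℕ) : ev (st k).m (fun _ => 1) = 1 := by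
  rw [ev_lev (Nat.zero_le k) (fun _ => 1) (fun _ _ _ => rfl)]
  rw [st_zero, ev_single]
  simp

theorem W_lev (n : ℕ) (T : Finset ℕ) (hT : ∀ i ∈ T, i < n) : Lev n (W T) := by
  intro x y hxy
  unfold W
  apply Finset.prod_congr rfl
  intro i hi
  rw [hxy i (hT i hi)]

/-- new Walsh functions have small integrals -/
theorem ev_succ_W (k : ℕ) (T : Finset ℕ)
    (hT : ∃ j : Fin (bN k (st k)), (st k).n + (j : ℕ) ∈ T) :
    ‖ev (st (k + 1)).m (W T)‖ ≤ 1 / 2 ^ k := by
  rw [m_succ]
  refine (ev_push_W _ _ _ _ (prec k (st k)) (prec_pos _ _).le (bQ_spec k (st k)).2.2.1 T hT).trans ?_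
  unfold prec
  have h1 := tv_nonneg (st k).m
  rw [mul_one_div, div_le_div_iff₀ (by positivity) (by positivity)]
  nlinarith [pow_pos (two_pos : (0 : ℝ) < 2) k]

/-- all Walsh functions have integrals at most one -/
theorem ev_W (k : ℕ) (T : Finset ℕ) : ‖ev (st k).m (W T)‖ ≤ 1 := by
  induction k with
  | zero =>
    rw [st_zero, ev_single]
    unfold W
    rw [norm_mul, norm_prod_vl]
    simp
  | succ k ih =>
    by_cases hT : ∃ j : Fin (bN k (st k)), (st k).n + (j : ℕ) ∈ T
    · refine (ev_succ_W k T hT).trans ?_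
      rw [div_le_one (by positivity)]
      exact one_le_pow₀ (by norm_num)
    · have : ev (st (k + 1)).m (W T) = ev (st k).m (W T) := by
        rw [m_succ]
        apply ev_push_lev _ _ _ _ (bQ_spec k (st k)).2.1
        intro p y hp
        rw [W_glue]
        have h2 : Finset.univ.filter (fun j : Fin (bN k (st k)) => (st k).n + (j : ℕ) ∈ T) = ∅ := by
          rw [Finset.filter_eq_empty_iff]
          intro j _ hj
          exact hT ⟨j, hj⟩
        rw [h2, Finset.prod_empty, mul_one]
        unfold W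
        rw [← Finset.prod_filter_mul_prod_filter_not T (· < (st k).n)]
        have h3 : ∏ i ∈ T.filter (fun i => ¬ i < (st k).n), ((vl (p i) : ℝ) : ℂ) = 1 := by
          apply Finset.prod_eq_one
          intro i hi
          rw [Finset.mem_filter] at hi
          rw [supp_tail k p hp i (by omega), vl_one]
          simp
        rw [h3, mul_one]
      rw [this]
      exact ih

/-- the averages have small integrals -/
theorem ev_av (k j : ℕ) (h : k + 1 ≤ j) :
    ‖ev (st j).m (fun x => (av (st k).n (bN k (st k)) x : ℂ))‖ ≤ 1 / 2 ^ k := by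
  have h0 : Lev (st (k + 1)).n (fun x => (av (st k).n (bN k (st k)) x : ℂ)) := by
    intro x y hxy
    simp only
    rw [av_lev (st k).n (bN k (st k)) x y hxy]
  rw [ev_lev h _ h0]
  have hN : (0 : ℝ) < bN k (st k) := by exact_mod_cast (bQ_spec k (st k)).1
  have h1 : (fun x => (av (st k).n (bN k (st k)) x : ℂ)) =
      fun x => ∑ j : Fin (bN k (st k)), ((bN k (st k) : ℝ) : ℂ)⁻¹ * W {(st k).n + (j : ℕ)} x := by
    funext x
    unfold av W
    simp_rw [Finset.prod_singleton]
    rw [← Finset.mul_sum]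
    push_cast
    rw [div_eq_inv_mul]
  rw [h1]
  have h2 : ev (st (k + 1)).m (fun x => ∑ j : Fin (bN k (st k)), ((bN k (st k) : ℝ) : ℂ)⁻¹ *
      W {(st k).n + (j : ℕ)} x) = ∑ j : Fin (bN k (st k)), ((bN k (st k) : ℝ) : ℂ)⁻¹ *
      ev (st (k + 1)).m (W {(st k).n + (j : ℕ)}) := by
    unfold ev
    simp only [Finsupp.sum]
    simp_rw [Finset.mul_sum]
    rw [Finset.sum_comm]
    apply Finset.sum_congr rfl
    intro j _
    apply Finset.sum_congr rfl
    intro p _
    ring
  rw [h2]
  refine (norm_sum_le _ _).trans ?_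
  have h3 : ∀ j : Fin (bN k (st k)), ‖((bN k (st k) : ℝ) : ℂ)⁻¹ *
      ev (st (k + 1)).m (W {(st k).n + (j : ℕ)})‖ ≤ (bN k (st k) : ℝ)⁻¹ * (1 / 2 ^ k) := by
    intro j
    rw [norm_mul, norm_inv, Complex.norm_real, Real.norm_of_nonneg hN.le]
    exact mul_le_mul_of_nonneg_left (ev_succ_W k _ ⟨j, Finset.mem_singleton_self _⟩)
      (inv_nonneg.2 hN.le)
  refine (Finset.sum_le_sum (fun j _ => h3 j)).trans ?_
  rw [Finset.sum_const, Finset.card_univ, Fintype.card_fin, nsmul_eq_mul, ← mul_assoc,
    mul_inv_cancel₀ hN.ne', one_mul]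

end Pool.Agent.H481R3.HS
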