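import Mathlib
import Pool.Agent.H481R3.HSC

set_option autoImplicit false

open Filter Topology

namespace Pool.Agent.H481R3.HS

/-- the set -/
def EE : Set CG := ⋂ k, (st k).E

theorem EE_sub (k : ℕ) : EE ⊆ (st k).E := Set.iInter_subset _ k

theorem abs_av_le (n N : ℕ) (x : CG) : |av n N x| ≤ 1 := by
  unfold av
  rw [abs_div]
  rcases Nat.eq_zero_or_pos N with h | h
  · subst h; simp
  · rw [div_le_one (by rw [abs_pos]; exact_mod_cast h.ne')]
    refine (Finset.abs_sum_le_sum_abs _ _).trans ?_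
    simp_rw [abs_vl]
    simp [abs_of_nonneg]

theorem abs_sub_av (v : ℤˣ) (t : ℝ) (ht : |t| ≤ 1) (h : 1 / 2 ≤ vl v * t) : |vl v - t| ≤ 1 / 2 := by
  have h1 := abs_le.1 ht
  rcases vl_or v with hv | hv <;> rw [hv] at h ⊢ <;> rw [abs_le] <;> constructor <;> linarith

theorem near_av (k : ℕ) (x : CG) (hx : x ∈ (st (k + 1)).E) :
    |vl (phi k (st k).n x) - av (st k).n (bN k (st k)) x| ≤ 1 / 2 := by
  rw [E_succ] at hx
  exact abs_sub_av _ _ (abs_av_le _ _ _) hx.2

/-! ### the functional is not bounded on sign functions -/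

/-- truncation -/
def trn (n : ℕ) (x : CG) : CG := fun i => if i < n then x i else 1

theorem trn_lev (n : ℕ) : Lev n (trn n) := by
  intro x y hxy
  funext i
  unfold trn
  split_ifs with h
  · exact hxy i h
  · rfl

/-- the sign function of a system of masses -/
noncomputable def sgn (n : ℕ) (m : CG →₀ ℝ) (x : CG) : ℤˣ := if m (trn n x) < 0 then -1 else 1

theorem sgn_lev (n : ℕ) (m : CG →₀ ℝ) : Lev n (sgn n m) := by
  intro x y hxy
  unfold sgn
  rw [trn_lev n x y hxy]

theorem ev_sgn (k : ℕ) : ev (st k).m (fun x => ((vl (sgn (st k).n (st k).m x) : ℝ) : ℂ)) =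
    ((tv (st k).m : ℝ) : ℂ) := by
  unfold ev tv
  rw [Finsupp.sum, Finsupp.sum, Complex.ofReal_sum]
  apply Finset.sum_congr rfl
  intro p hp
  have h1 : trn (st k).n p = p := by
    funext i
    unfold trn
    split_ifs with h
    · rfl
    · exact (supp_tail k p hp i (by omega)).symm
  rw [← Complex.ofReal_mul]
  congr 1
  unfold sgn
  rw [h1]
  split_ifs with h
  · rw [vl_neg_one, abs_of_neg h]; ring
  · rw [vl_one, abs_of_nonneg (not_lt.1 h)]; ring

theorem tv_half (M : ℝ) (hM : ∀ k, tv (st k).m ≤ M) : ∀ k, tv (st k).m ≤ M / 2 := by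
  intro k
  have key : ∀ K : ℕ, tv (st k).m ≤ M / 2 + 1 / 2 ^ K := by
    intro K
    obtain ⟨j, hj, hphi⟩ := exists_stage (st k).n (sgn (st k).n (st k).m) (sgn_lev _ _) (max K k)
    have hjK : K ≤ j := (le_max_left _ _).trans hj
    have hjk : k ≤ j := (le_max_right _ _).trans hj
    have hphi' := hphi (st j).n (n_mono hjk)
    set φ : CG → ℤˣ := sgn (st k).n (st k).m with hφ
    have hL : Lev (st k).n (fun x => ((vl (φ x) : ℝ) : ℂ)) := by
      intro x y hxy
      have h0 : φ x = φ y := sgn_lev (st k).n (st k).m x y hxy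
      simp only
      rw [h0]
    have h1 : ((tv (st k).m : ℝ) : ℂ) = ev (st (j + 1)).m (fun x => ((vl (φ x) : ℝ) : ℂ)) := by
      rw [ev_lev (by omega : k ≤ j + 1) _ hL]
      exact (ev_sgn k).symm
    have h2 : (fun x => ((vl (φ x) : ℝ) : ℂ)) =
        (fun x => ((vl (φ x) : ℝ) : ℂ) - (av (st j).n (bN j (st j)) x : ℂ)) +
        (fun x => (av (st j).n (bN j (st j)) x : ℂ)) := by
      funext x
      simp
    rw [h2, ev_addf] at h1
    have h3 : ‖ev (st (j + 1)).m (fun x => ((vl (φ x) : ℝ) : ℂ) - (av (st j).n (bN j (st j)) x : ℂ))‖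
        ≤ tv (st (j + 1)).m * (1 / 2) := by
      apply norm_ev_le
      intro p hp
      have h4 := near_av j p (supp_E (j + 1) p hp)
      rw [hphi'] at h4
      rw [← Complex.ofReal_sub, Complex.norm_real]
      exact h4
    have h5 := ev_av j (j + 1) le_rfl
    have h6 : tv (st k).m = ‖((tv (st k).m : ℝ) : ℂ)‖ := by
      rw [Complex.norm_real, Real.norm_of_nonneg (tv_nonneg _)]
    rw [h6, h1]
    refine (norm_add_le _ _).trans (add_le_add (h3.trans ?_) (h5.trans ?_))
    · have := hM (j + 1)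
      linarith
    · apply one_div_le_one_div_of_le (by positivity)
      exact pow_le_pow_right₀ (by norm_num) hjK
  have h7 : Tendsto (fun K : ℕ => M / 2 + (1 / 2 : ℝ) ^ K) atTop (𝓝 (M / 2 + 0)) :=
    tendsto_const_nhds.add (tendsto_pow_atTop_nhds_zero_of_lt_one (by norm_num) (by norm_num))
  rw [add_zero] at h7
  apply ge_of_tendsto h7
  filter_upwards with K
  have := key K
  rwa [one_div_pow]

theorem not_bdd (C : ℝ) (hC : ∀ (k : ℕ) (φ : CG → ℤˣ), Lev (st k).n φ →
    ‖ev (st k).m (fun x => ((vl (φ x) : ℝ) : ℂ))‖ ≤ C) : False := by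
  have h1 : ∀ k, tv (st k).m ≤ C := by
    intro k
    have := hC k _ (sgn_lev (st k).n (st k).m)
    rw [ev_sgn, Complex.norm_real, Real.norm_of_nonneg (tv_nonneg _)] at this
    exact this
  have h2 : ∀ r : ℕ, ∀ k, tv (st k).m ≤ C * (1 / 2) ^ r := by
    intro r
    induction r with
    | zero => simpa using h1
    | succ r ih =>
      intro k
      have := tv_half _ ih k
      rw [pow_succ]
      linarith
  have h3 : tv (st 0).m = 1 := by
    rw [st_zero]
    unfold tv
    rw [Finsupp.sum_single_index]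
    · simp
    · simp
  have h4 : Tendsto (fun r : ℕ => C * (1 / 2 : ℝ) ^ r) atTop (𝓝 (C * 0)) :=
    (tendsto_pow_atTop_nhds_zero_of_lt_one (by norm_num) (by norm_num)).const_mul C
  rw [mul_zero] at h4
  have h5 : (1 : ℝ) ≤ 0 := by
    apply ge_of_tendsto h4
    filter_upwards with r
    have := h2 r 0
    rwa [h3] at this
  linarith

/-! ### the Fourier algebra norm -/

/-- `f` has a representation with absolute sum at most `r` -/
def AN (f : CG → ℂ) (r : ℝ) : Prop := ∃ a : Finset ℕ → ℂ, Summable (fun T => ‖a T‖) ∧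
  ∑' T, ‖a T‖ ≤ r ∧ ∀ x, f x = ∑' T, a T * W T x

theorem norm_W (T : Finset ℕ) (x : CG) : ‖W T x‖ = 1 := norm_prod_vl _ _

theorem summable_aW (a : Finset ℕ → ℂ) (ha : Summable (fun T => ‖a T‖)) (x : CG) :
    Summable (fun T => a T * W T x) := by
  apply Summable.of_norm
  refine ha.congr (fun T => ?_)
  rw [norm_mul, norm_W, mul_one]

theorem AN.mono {f : CG → ℂ} {r s : ℝ} (h : AN f r) (hrs : r ≤ s) : AN f s := by
  obtain ⟨a, h1, h2, h3⟩ := h
  exact ⟨a, h1, h2.trans hrs, h3⟩

theorem AN.nonneg {f : CG → ℂ} {r : ℝ} (h : AN f r) : 0 ≤ r := by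
  obtain ⟨a, h1, h2, h3⟩ := h
  exact (tsum_nonneg (fun _ => norm_nonneg _)).trans h2

theorem AN.add {f g : CG → ℂ} {r s : ℝ} (hf : AN f r) (hg : AN g s) : AN (f + g) (r + s) := by
  obtain ⟨a, h1, h2, h3⟩ := hf
  obtain ⟨b, k1, k2, k3⟩ := hg
  have hle : ∀ T, ‖a T + b T‖ ≤ ‖a T‖ + ‖b T‖ := fun T => norm_add_le _ _
  have hs : Summable (fun T => ‖a T + b T‖) :=
    Summable.of_nonneg_of_le (fun _ => norm_nonneg _) hle (h1.add k1)
  refine ⟨fun T => a T + b T, hs, ?_, ?_⟩
  · calc ∑' T, ‖a T + b T‖ ≤ ∑' T, (‖a T‖ + ‖b T‖) := hs.tsum_le_tsum hle (h1.add k1)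
      _ = ∑' T, ‖a T‖ + ∑' T, ‖b T‖ := h1.tsum_add k1
      _ ≤ r + s := add_le_add h2 k2
  · intro x
    rw [Pi.add_apply, h3, k3, ← (summable_aW a h1 x).tsum_add (summable_aW b k1 x)]
    congr 1
    funext T
    ring

theorem AN.smul {f : CG → ℂ} {r : ℝ} (hf : AN f r) (c : ℂ) : AN (c • f) (‖c‖ * r) := by
  obtain ⟨a, h1, h2, h3⟩ := hf
  refine ⟨fun T => c * a T, ?_, ?_, ?_⟩
  · simp_rw [norm_mul]
    exact h1.mul_left _
  · simp_rw [norm_mul]
    rw [tsum_mul_left]
    exact mul_le_mul_of_nonneg_left h2 (norm_nonneg _)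
  · intro x
    rw [Pi.smul_apply, h3, smul_eq_mul, ← tsum_mul_left]
    congr 1
    funext T
    ring

theorem AN.neg {f : CG → ℂ} {r : ℝ} (hf : AN f r) : AN (-f) r := by
  have := hf.smul (-1)
  simpa using this

theorem AN.sub {f g : CG → ℂ} {r s : ℝ} (hf : AN f r) (hg : AN g s) : AN (f - g) (r + s) := by
  rw [sub_eq_add_neg]
  exact hf.add hg.neg

theorem AN_W (T : Finset ℕ) : AN (W T) 1 := by
  classical
  refine ⟨fun S => if S = T then 1 else 0, ?_, ?_, ?_⟩
  · apply summable_of_ne_finset_zero (s := {T})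
    intro S hS
    rw [Finset.mem_singleton] at hS
    simp [hS]
  · rw [tsum_eq_single T]
    · simp
    · intro S hS
      simp [hS]
  · intro x
    rw [tsum_eq_single T]
    · simp
    · intro S hS
      simp [hS]

theorem AN_zero : AN 0 0 := by
  refine ⟨fun _ => 0, by simpa using summable_zero, by simp, by simp⟩

theorem AN.sum {ι : Type} (s : Finset ι) (f : ι → CG → ℂ) (r : ι → ℝ) (h : ∀ i ∈ s, AN (f i) (r i)) :
    AN (∑ i ∈ s, f i) (∑ i ∈ s, r i) := by
  classical
  induction s using Finset.induction_on with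
  | empty => simpa using AN_zero
  | insert a s ha ih =>
    rw [Finset.sum_insert ha, Finset.sum_insert ha]
    exact (h a (Finset.mem_insert_self _ _)).add (ih (fun i hi => h i (Finset.mem_insert_of_mem hi)))

theorem AN.bound {f : CG → ℂ} {r : ℝ} (hf : AN f r) (x : CG) : ‖f x‖ ≤ r := by
  obtain ⟨a, h1, h2, h3⟩ := hf
  rw [h3]
  refine (norm_tsum_le_tsum_norm ?_).trans ?_
  · refine h1.congr (fun T => ?_)
    rw [norm_mul, norm_W, mul_one]
  · refine le_trans (le_of_eq ?_) h2
    congr 1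
    funext T
    rw [norm_mul, norm_W, mul_one]

theorem W_symmDiff (S T : Finset ℕ) (x : CG) : W S x * W T x = W (symmDiff S T) x := by
  have hsq : ∀ i, ((vl (x i) : ℝ) : ℂ) * ((vl (x i) : ℝ) : ℂ) = 1 := by
    intro i
    rw [← Complex.ofReal_mul, vl_sq, Complex.ofReal_one]
  have h1 : W S x = W (S \ T) x * W (S ∩ T) x := by
    unfold W
    rw [← Finset.prod_union (Finset.disjoint_left.2 (fun i hi hi' => by
      rw [Finset.mem_sdiff] at hi; rw [Finset.mem_inter] at hi'; exact hi.2 hi'.2)),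
      Finset.sdiff_union_inter]
  have h2 : W T x = W (T \ S) x * W (S ∩ T) x := by
    unfold W
    rw [Finset.inter_comm, ← Finset.prod_union (Finset.disjoint_left.2 (fun i hi hi' => by
      rw [Finset.mem_sdiff] at hi; rw [Finset.mem_inter] at hi'; exact hi.2 hi'.2)),
      Finset.sdiff_union_inter]
  have h3 : W (symmDiff S T) x = W (S \ T) x * W (T \ S) x := by
    unfold W
    rw [symmDiff_def, Finset.sup_eq_union, Finset.prod_union]
    exact Finset.disjoint_left.2 (fun i hi hi' => by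
      rw [Finset.mem_sdiff] at hi hi'; exact hi.2 hi'.1)
  have h4 : W (S ∩ T) x * W (S ∩ T) x = 1 := by
    unfold W
    rw [← Finset.prod_mul_distrib]
    exact Finset.prod_eq_one (fun i _ => hsq i)
  rw [h1, h2, h3]
  calc W (S \ T) x * W (S ∩ T) x * (W (T \ S) x * W (S ∩ T) x) =
      W (S \ T) x * W (T \ S) x * (W (S ∩ T) x * W (S ∩ T) x) := by ring
    _ = _ := by rw [h4, mul_one]

/-- the change of variables `(U, T) ↦ (U ∆ T, T)` -/
def shear : Finset ℕ × Finset ℕ ≃ Finset ℕ × Finset ℕ where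
  toFun p := (symmDiff p.1 p.2, p.2)
  invFun p := (symmDiff p.1 p.2, p.2)
  left_inv p := by simp
  right_inv p := by simp

theorem AN.mul {f g : CG → ℂ} {r s : ℝ} (hf : AN f r) (hg : AN g s) : AN (f * g) (r * s) := by
  have hr := hf.nonneg
  obtain ⟨a, h1, h2, h3⟩ := hf
  obtain ⟨b, k1, k2, k3⟩ := hg
  let F : Finset ℕ × Finset ℕ → ℂ := fun p => a p.1 * b p.2
  have hF : Summable (fun p => ‖F p‖) := by
    have := Summable.mul_of_nonneg h1 k1 (fun _ => norm_nonneg _) (fun _ => norm_nonneg _)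
    refine this.congr (fun p => ?_)
    simp only [F, norm_mul]
  have hFe : Summable (fun p => ‖F (shear p)‖) := shear.summable_iff.2 hF
  have hFe2 : ∀ U, Summable (fun T => ‖F (shear (U, T))‖) := fun U => hFe.prod_factor U
  have hsum : Summable (fun U => ∑' T, ‖F (shear (U, T))‖) := hFe.prod
  let c : Finset ℕ → ℂ := fun U => ∑' T, F (shear (U, T))
  have hc : ∀ U, ‖c U‖ ≤ ∑' T, ‖F (shear (U, T))‖ := fun U => norm_tsum_le_tsum_norm (hFe2 U)
  have hcs : Summable (fun U => ‖c U‖) :=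
    Summable.of_nonneg_of_le (fun _ => norm_nonneg _) hc hsum
  refine ⟨c, hcs, ?_, ?_⟩
  · calc ∑' U, ‖c U‖ ≤ ∑' U, ∑' T, ‖F (shear (U, T))‖ := hcs.tsum_le_tsum hc hsum
      _ = ∑' p, ‖F (shear p)‖ := (hFe.tsum_prod' hFe2).symm
      _ = ∑' p, ‖F p‖ := shear.tsum_eq (fun p => ‖F p‖)
      _ = (∑' S, ‖a S‖) * ∑' T, ‖b T‖ := by
          have h5 : Summable (fun p : Finset ℕ × Finset ℕ => ‖a p.1‖ * ‖b p.2‖) :=
            Summable.mul_of_nonneg h1 k1 (fun _ => norm_nonneg _) (fun _ => norm_nonneg _)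
          rw [h1.tsum_mul_tsum k1 h5]
          simp only [F, norm_mul]
      _ ≤ r * s := mul_le_mul h2 k2 (tsum_nonneg (fun _ => norm_nonneg _)) hr
  · intro x
    rw [Pi.mul_apply, h3, k3]
    have h6 : Summable (fun S => ‖a S * W S x‖) := by
      refine h1.congr (fun T => ?_)
      rw [norm_mul, norm_W, mul_one]
    have h7 : Summable (fun S => ‖b S * W S x‖) := by
      refine k1.congr (fun T => ?_)
      rw [norm_mul, norm_W, mul_one]
    rw [tsum_mul_tsum_of_summable_norm h6 h7]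
    have h8 : (fun z : Finset ℕ × Finset ℕ => a z.1 * W z.1 x * (b z.2 * W z.2 x)) =
        fun z => F z * W (symmDiff z.1 z.2) x := by
      funext z
      rw [← W_symmDiff]
      simp only [F]
      ring
    rw [h8, ← shear.tsum_eq]
    have h9 : (fun z : Finset ℕ × Finset ℕ => F (shear z) * W (symmDiff (shear z).1 (shear z).2) x) =
        fun z => F (shear z) * W z.1 x := by
      funext z
      congr 2
      simp [shear]
    rw [h9]
    have h10 : Summable (fun z : Finset ℕ × Finset ℕ => F (shear z) * W z.1 x) := by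
      apply Summable.of_norm
      refine hFe.congr (fun T => ?_)
      change ‖F (shear T)‖ = ‖F (shear T) * W T.1 x‖
      rw [norm_mul (F (shear T)), norm_W, mul_one]
    rw [h10.tsum_prod' (fun U => by
      apply Summable.of_norm
      refine (hFe2 U).congr (fun T => ?_)
      change ‖F (shear (U, T))‖ = ‖F (shear (U, T)) * W U x‖
      rw [norm_mul (F (shear (U, T))), norm_W, mul_one])]
    congr 1
    funext U
    change ∑' T, F (shear (U, T)) * W U x = c U * W U x
    rw [tsum_mul_right]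

end Pool.Agent.H481R3.HS
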