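import Mathlib
import Pool.Agent.H481R3.HSD

set_option autoImplicit false

open Filter Topology

namespace Pool.Agent.H481R3.HS

instance : DiscreteTopology ℤˣ := inferInstance
instance : CompactSpace CG := inferInstance
instance : T2Space CG := inferInstance

theorem AN.tsum {f : ℕ → CG → ℂ} {r : ℕ → ℝ} (h : ∀ m, AN (f m) (r m)) (hr : Summable r) :
    AN (fun x => ∑' m, f m x) (∑' m, r m) := by
  choose a h1 h2 h3 using h
  have hnn : 0 ≤ fun p : ℕ × Finset ℕ => ‖a p.1 p.2‖ := fun _ => norm_nonneg _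
  have hsum : Summable (fun p : ℕ × Finset ℕ => ‖a p.1 p.2‖) := by
    rw [summable_prod_of_nonneg hnn]
    refine ⟨h1, ?_⟩
    exact Summable.of_nonneg_of_le (fun m => tsum_nonneg (fun _ => norm_nonneg _)) h2 hr
  have hswap : Summable (fun p : Finset ℕ × ℕ => ‖a p.2 p.1‖) :=
    (Equiv.prodComm (Finset ℕ) ℕ).summable_iff.2 hsum
  have hT : ∀ T, Summable (fun m => ‖a m T‖) := fun T => hswap.prod_factor T
  have hle : ∀ T, ‖∑' m, a m T‖ ≤ ∑' m, ‖a m T‖ := fun T => norm_tsum_le_tsum_norm (hT T)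
  have hs2 : Summable (fun T => ∑' m, ‖a m T‖) := hswap.prod
  have hs : Summable (fun T => ‖∑' m, a m T‖) :=
    Summable.of_nonneg_of_le (fun _ => norm_nonneg _) hle hs2
  refine ⟨fun T => ∑' m, a m T, hs, ?_, ?_⟩
  · calc ∑' T, ‖∑' m, a m T‖ ≤ ∑' T, ∑' m, ‖a m T‖ := hs.tsum_le_tsum hle hs2
      _ = ∑' p : Finset ℕ × ℕ, ‖a p.2 p.1‖ := (hswap.tsum_prod' hT).symm
      _ = ∑' p : ℕ × Finset ℕ, ‖a p.1 p.2‖ :=
          (Equiv.prodComm (Finset ℕ) ℕ).tsum_eq (fun p : ℕ × Finset ℕ => ‖a p.1 p.2‖)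
      _ = ∑' m, ∑' T, ‖a m T‖ := hsum.tsum_prod' h1
      _ ≤ ∑' m, r m := by
          refine Summable.tsum_le_tsum h2 ?_ hr
          exact Summable.of_nonneg_of_le (fun m => tsum_nonneg (fun _ => norm_nonneg _)) h2 hr
  · intro x
    have h4 : Summable (fun p : ℕ × Finset ℕ => a p.1 p.2 * W p.2 x) := by
      apply Summable.of_norm
      refine hsum.congr (fun p => ?_)
      rw [norm_mul, norm_W, mul_one]
    have h5 : Summable (fun p : Finset ℕ × ℕ => a p.2 p.1 * W p.1 x) :=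
      (Equiv.prodComm (Finset ℕ) ℕ).summable_iff.2 h4
    calc ∑' m, f m x = ∑' m, ∑' T, a m T * W T x := by
          congr 1; funext m; exact h3 m x
      _ = ∑' p : ℕ × Finset ℕ, a p.1 p.2 * W p.2 x :=
          (h4.tsum_prod' (fun m => summable_aW (a m) (h1 m) x)).symm
      _ = ∑' p : Finset ℕ × ℕ, a p.2 p.1 * W p.1 x :=
          ((Equiv.prodComm (Finset ℕ) ℕ).tsum_eq (fun p : ℕ × Finset ℕ => a p.1 p.2 * W p.2 x)).symm
      _ = ∑' T, ∑' m, a m T * W T x := h5.tsum_prod' (fun T => h5.prod_factor T)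
      _ = ∑' T, (∑' m, a m T) * W T x := by
          congr 1; funext T; rw [tsum_mul_right]

/-- elements of the Fourier algebra have small integrals -/
theorem AN.ev {f : CG → ℂ} {r : ℝ} (hf : AN f r) (k : ℕ) : ‖ev (st k).m f‖ ≤ r := by
  obtain ⟨a, h1, h2, h3⟩ := hf
  have h4 : HS.ev (st k).m f = ∑' T, a T * HS.ev (st k).m (W T) := by
    unfold HS.ev
    simp only [Finsupp.sum]
    have h5 : ∀ p : CG, ((st k).m p : ℂ) * f p = ∑' T, ((st k).m p : ℂ) * (a T * W T p) := by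
      intro p
      rw [h3, tsum_mul_left]
    simp_rw [h5]
    rw [← Summable.tsum_finsetSum (fun p _ => (summable_aW a h1 p).mul_left _)]
    congr 1
    funext T
    rw [Finset.mul_sum]
    apply Finset.sum_congr rfl
    intro p _
    ring
  rw [h4]
  have h6 : ∀ T, ‖a T * HS.ev (st k).m (W T)‖ ≤ ‖a T‖ := by
    intro T
    rw [norm_mul]
    calc ‖a T‖ * ‖HS.ev (st k).m (W T)‖ ≤ ‖a T‖ * 1 :=
          mul_le_mul_of_nonneg_left (ev_W k T) (norm_nonneg _)
      _ = ‖a T‖ := mul_one _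
  have h7 : Summable (fun T => ‖a T * HS.ev (st k).m (W T)‖) :=
    Summable.of_nonneg_of_le (fun _ => norm_nonneg _) h6 h1
  refine (norm_tsum_le_tsum_norm h7).trans ?_
  exact (h7.tsum_le_tsum h6 h1).trans h2

theorem continuous_W (T : Finset ℕ) : Continuous (W T) := by
  unfold W
  apply continuous_finset_prod
  intro i _
  apply Complex.continuous_ofReal.comp
  exact (continuous_of_discreteTopology (f := vl)).comp (continuous_apply i)

theorem AN.continuous {f : CG → ℂ} {r : ℝ} (hf : AN f r) : Continuous f := by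
  obtain ⟨a, h1, h2, h3⟩ := hf
  have : f = fun x => ∑' T, a T * W T x := funext h3
  rw [this]
  apply continuous_tsum (fun T => continuous_const.mul (continuous_W T)) h1
  intro T x
  change ‖a T * W T x‖ ≤ ‖a T‖
  rw [norm_mul, norm_W, mul_one]

theorem Lev.continuous {α : Type} [TopologicalSpace α] {n : ℕ} {g : CG → α} (hg : Lev n g) :
    Continuous g := by
  have h1 : g = (fun y : Fin n → ℤˣ => g (ext1 y)) ∘ (fun x : CG => fun i : Fin n => x i) := by
    funext x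
    apply hg
    intro i hi
    simp [ext1, hi]
  rw [h1]
  apply (continuous_of_discreteTopology).comp
  exact continuous_pi (fun i => continuous_apply _)

/-- approximation by functions of finitely many coordinates -/
theorem AN.approx {f : CG → ℂ} {r : ℝ} (hf : AN f r) (δ : ℝ) (hδ : 0 < δ) :
    ∃ (n : ℕ) (P : CG → ℂ), Lev n P ∧ (∃ s, AN P s) ∧ AN (f - P) δ := by
  classical
  obtain ⟨a, h1, h2, h3⟩ := hf
  obtain ⟨F, hF⟩ : ∃ F : Finset (Finset ℕ), ∑' T, ‖a T‖ - ∑ T ∈ F, ‖a T‖ < δ := by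
    have h4 := h1.hasSum
    have h5 := (h4.eventually (lt_mem_nhds (by linarith : ∑' T, ‖a T‖ - δ < ∑' T, ‖a T‖))).exists
    obtain ⟨F, hF⟩ := h5
    exact ⟨F, by linarith⟩
  obtain ⟨n, hn⟩ : ∃ n : ℕ, ∀ T ∈ F, ∀ i ∈ T, i < n := by
    refine ⟨(F.sup id).sup id + 1, ?_⟩
    intro T hT i hi
    have h6 : T ≤ F.sup id := Finset.le_sup (f := id) hT
    have h7 : i ∈ F.sup id := h6 hi
    have h8 : id i ≤ (F.sup id).sup id := Finset.le_sup h7
    simp only [id] at h8 ⊢
    omega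
  refine ⟨n, fun x => ∑ T ∈ F, a T * W T x, ?_, ?_, ?_⟩
  · intro x y hxy
    apply Finset.sum_congr rfl
    intro T hT
    rw [W_lev n T (hn T hT) x y hxy]
  · have h9 := AN.sum F (fun T => a T • W T) (fun T => ‖a T‖ * 1) (fun T _ => (AN_W T).smul (a T))
    refine ⟨∑ T ∈ F, ‖a T‖ * 1, ?_⟩
    have h10 : (fun x => ∑ T ∈ F, a T * W T x) = ∑ T ∈ F, a T • W T := by
      funext x
      rw [Finset.sum_apply]
      rfl
    rw [h10]
    exact h9
  · let b : Finset ℕ → ℂ := fun T => if T ∈ F then 0 else a T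
    have hb : ∀ T, ‖b T‖ ≤ ‖a T‖ := by
      intro T
      simp only [b]
      split_ifs
      · simp
      · exact le_rfl
    have hbs : Summable (fun T => ‖b T‖) := Summable.of_nonneg_of_le (fun _ => norm_nonneg _) hb h1
    let c : Finset ℕ → ℂ := fun T => if T ∈ F then a T else 0
    have hcs0 : Summable (fun T => ‖c T‖) := by
      apply summable_of_ne_finset_zero (s := F)
      intro T hT
      simp [c, hT]
    have hab : ∀ T, ‖a T‖ = ‖b T‖ + ‖c T‖ := by
      intro T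
      simp only [b, c]
      split_ifs <;> simp
    have hcsum : ∑' T, ‖c T‖ = ∑ T ∈ F, ‖a T‖ := by
      rw [tsum_eq_sum (s := F)]
      · apply Finset.sum_congr rfl
        intro T hT
        simp [c, hT]
      · intro T hT
        simp [c, hT]
    refine ⟨b, hbs, ?_, ?_⟩
    · have h11 : ∑' T, ‖a T‖ = ∑' T, ‖b T‖ + ∑' T, ‖c T‖ := by
        rw [← hbs.tsum_add hcs0]
        congr 1
        funext T
        exact hab T
      rw [hcsum] at h11
      linarith
    · intro x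
      rw [Pi.sub_apply, h3]
      have h12 : ∑' T, a T * W T x = ∑' T, b T * W T x + ∑' T, c T * W T x := by
        rw [← (summable_aW b hbs x).tsum_add (summable_aW c hcs0 x)]
        congr 1
        funext T
        simp only [b, c]
        split_ifs <;> ring
      have h13 : ∑' T, c T * W T x = ∑ T ∈ F, a T * W T x := by
        rw [tsum_eq_sum (s := F)]
        · apply Finset.sum_congr rfl
          intro T hT
          simp [c, hT]
        · intro T hT
          simp [c, hT]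
      rw [h12, h13]
      ring

/-! ### functions of finitely many coordinates are in the algebra -/

theorem AN_one : AN (fun _ => 1) 1 := by
  have := AN_W ∅
  have h : W ∅ = fun _ => 1 := by
    funext x
    simp [W]
  rwa [h] at this

theorem AN.prod {ι : Type} (s : Finset ι) (f : ι → CG → ℂ) (h : ∀ i ∈ s, AN (f i) 1) :
    AN (∏ i ∈ s, f i) 1 := by
  classical
  induction s using Finset.induction_on with
  | empty => rw [Finset.prod_empty]; exact AN_one
  | insert a s ha ih =>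
    rw [Finset.prod_insert ha]
    have := (h a (Finset.mem_insert_self _ _)).mul
      (ih (fun i hi => h i (Finset.mem_insert_of_mem hi)))
    simpa using this

/-- indicator of a cylinder -/
noncomputable def cyl (n : ℕ) (y : Fin n → ℤˣ) (x : CG) : ℂ :=
  ∏ i : Fin n, ((1 + (vl (y i) : ℂ) * (vl (x i) : ℂ)) / 2)

theorem cyl_AN (n : ℕ) (y : Fin n → ℤˣ) : AN (cyl n y) 1 := by
  have h : cyl n y = ∏ i : Fin n, (fun x : CG => (1 + (vl (y i) : ℂ) * (vl (x i) : ℂ)) / 2) := by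
    funext x
    rw [Finset.prod_apply]
    rfl
  rw [h]
  apply AN.prod
  intro i _
  have h1 : (fun x : CG => (1 + (vl (y i) : ℂ) * (vl (x i) : ℂ)) / 2) =
      (1 / 2 : ℂ) • (fun _ => (1 : ℂ)) + ((vl (y i) : ℂ) / 2) • W {(i : ℕ)} := by
    funext x
    simp only [Pi.add_apply, Pi.smul_apply, smul_eq_mul, W, Finset.prod_singleton]
    ring
  rw [h1]
  refine ((AN_one.smul (1 / 2 : ℂ)).add ((AN_W {(i : ℕ)}).smul ((vl (y i) : ℂ) / 2))).mono ?_
  rw [norm_div, norm_div, Complex.norm_real, Real.norm_eq_abs, abs_vl]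
  norm_num

theorem cyl_self (n : ℕ) (x : CG) : cyl n (fun i => x i) x = 1 := by
  unfold cyl
  apply Finset.prod_eq_one
  intro i _
  have : (vl (x i) : ℂ) * (vl (x i) : ℂ) = 1 := by
    rw [← Complex.ofReal_mul, vl_sq, Complex.ofReal_one]
  rw [this]
  norm_num

theorem cyl_ne (n : ℕ) (y : Fin n → ℤˣ) (x : CG) (h : y ≠ fun i : Fin n => x i) :
    cyl n y x = 0 := by
  obtain ⟨i, hi⟩ : ∃ i, y i ≠ x i := by
    by_contra hcon
    push Not at hcon
    exact h (funext hcon)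
  unfold cyl
  apply Finset.prod_eq_zero (Finset.mem_univ i)
  have : (vl (y i) : ℂ) * (vl (x i) : ℂ) = -1 := by
    rcases Int.units_eq_one_or (y i) with h1 | h1 <;> rcases Int.units_eq_one_or (x i) with h2 | h2
    · exact absurd (h1.trans h2.symm) hi
    · rw [h1, h2, vl_one, vl_neg_one]; norm_num
    · rw [h1, h2, vl_one, vl_neg_one]; norm_num
    · exact absurd (h1.trans h2.symm) hi
  rw [this]
  norm_num

theorem AN_lev (n : ℕ) (g : CG → ℂ) (hg : Lev n g) (B : ℝ) (hB : ∀ x, ‖g x‖ ≤ B) :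
    AN g (2 ^ n * B) := by
  classical
  have h1 : g = ∑ y : Fin n → ℤˣ, (g (ext1 y)) • cyl n y := by
    funext x
    rw [Finset.sum_apply, Finset.sum_eq_single (fun i : Fin n => x i)]
    · rw [Pi.smul_apply, cyl_self, smul_eq_mul, mul_one]
      apply hg
      intro i hi
      simp [ext1, hi]
    · intro y _ hy
      rw [Pi.smul_apply, cyl_ne n y x hy, smul_zero]
    · intro h
      exact absurd (Finset.mem_univ _) h
  rw [h1]
  refine (AN.sum Finset.univ (fun y : Fin n → ℤˣ => (g (ext1 y)) • cyl n y)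
    (fun y => ‖g (ext1 y)‖ * 1) (fun y _ => (cyl_AN n y).smul _)).mono ?_
  calc ∑ y : Fin n → ℤˣ, ‖g (ext1 y)‖ * 1 ≤ ∑ _y : Fin n → ℤˣ, B := by
        apply Finset.sum_le_sum
        intro y _
        rw [mul_one]
        exact hB _
    _ = 2 ^ n * B := by
        rw [Finset.sum_const, Finset.card_univ, nsmul_eq_mul]
        congr 1
        simp

/-! ### functions vanishing near the set -/

/-- `f` vanishes near `EE` -/
def VN (f : CG → ℂ) : Prop := ∃ U : Set CG, IsOpen U ∧ EE ⊆ U ∧ ∀ x ∈ U, f x = 0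

theorem isClopen_of_lev (n : ℕ) (A : Set CG) (h : Lev n (fun x => x ∈ A)) : IsClopen A := by
  classical
  have h1 : Lev n (fun x => decide (x ∈ A)) := by
    intro x y hxy
    have h2 : (x ∈ A) = (y ∈ A) := h x y hxy
    simp only [h2]
  have h3 : A = (fun x => decide (x ∈ A)) ⁻¹' {true} := by
    ext x
    simp
  rw [h3]
  exact (isClopen_discrete _).preimage h1.continuous

theorem E_clopen (k : ℕ) : IsClopen (st k).E := isClopen_of_lev _ _ (E_lev k)

theorem EE_closed : IsClosed EE := isClosed_iInter (fun k => (E_clopen k).isClosed)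

theorem EE_compact : IsCompact EE := EE_closed.isCompact

/-- the sets shrink to `EE` -/
theorem exists_E_sub (U : Set CG) (hU : IsOpen U) (hE : EE ⊆ U) : ∃ k, (st k).E ⊆ U := by
  apply exists_subset_nhds_of_isCompact (V := fun k => (st k).E)
  · intro i j
    exact ⟨max i j, E_anti (le_max_left _ _), E_anti (le_max_right _ _)⟩
  · intro k
    exact (E_clopen k).isClosed.isCompact
  · intro x hx
    exact hU.mem_nhds (hE hx)

/-- integrals of functions vanishing near `EE` are eventually zero -/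
theorem VN.ev {f : CG → ℂ} (hf : VN f) : ∃ k0, ∀ k, k0 ≤ k → HS.ev (st k).m f = 0 := by
  obtain ⟨U, hU, hE, hz⟩ := hf
  obtain ⟨k0, hk0⟩ := exists_E_sub U hU hE
  refine ⟨k0, fun k hk => ?_⟩
  unfold HS.ev
  rw [Finsupp.sum]
  apply Finset.sum_eq_zero
  intro p hp
  rw [hz p (hk0 (E_anti hk (supp_E k p hp))), mul_zero]

theorem VN.add {f g : CG → ℂ} (hf : VN f) (hg : VN g) : VN (f + g) := by
  obtain ⟨U, h1, h2, h3⟩ := hf
  obtain ⟨V, k1, k2, k3⟩ := hg
  refine ⟨U ∩ V, h1.inter k1, Set.subset_inter h2 k2, fun x hx => ?_⟩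
  rw [Pi.add_apply, h3 x hx.1, k3 x hx.2, add_zero]

theorem VN.mul_left {f : CG → ℂ} (hf : VN f) (g : CG → ℂ) : VN (g * f) := by
  obtain ⟨U, h1, h2, h3⟩ := hf
  refine ⟨U, h1, h2, fun x hx => ?_⟩
  rw [Pi.mul_apply, h3 x hx, mul_zero]

theorem VN.mul_right {f : CG → ℂ} (hf : VN f) (g : CG → ℂ) : VN (f * g) := by
  rw [mul_comm]
  exact hf.mul_left g

theorem VN_zero : VN 0 := ⟨Set.univ, isOpen_univ, Set.subset_univ _, fun _ _ => rfl⟩

/-! ### the quotient norm -/

/-- membership in the Fourier algebra -/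
def InA (f : CG → ℂ) : Prop := ∃ r, AN f r

theorem InA.add {f g : CG → ℂ} (hf : InA f) (hg : InA g) : InA (f + g) := by
  obtain ⟨r, hr⟩ := hf; obtain ⟨s, hs⟩ := hg; exact ⟨_, hr.add hs⟩

theorem InA.sub {f g : CG → ℂ} (hf : InA f) (hg : InA g) : InA (f - g) := by
  obtain ⟨r, hr⟩ := hf; obtain ⟨s, hs⟩ := hg; exact ⟨_, hr.sub hs⟩

theorem InA.mul {f g : CG → ℂ} (hf : InA f) (hg : InA g) : InA (f * g) := by
  obtain ⟨r, hr⟩ := hf; obtain ⟨s, hs⟩ := hg; exact ⟨_, hr.mul hs⟩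

theorem InA.smul {f : CG → ℂ} (hf : InA f) (c : ℂ) : InA (c • f) := by
  obtain ⟨r, hr⟩ := hf; exact ⟨_, hr.smul c⟩

theorem InA_zero : InA 0 := ⟨0, AN_zero⟩

theorem InA_lev (n : ℕ) (g : CG → ℂ) (hg : Lev n g) : InA g := by
  obtain ⟨B, hB⟩ : ∃ B : ℝ, ∀ x, ‖g x‖ ≤ B := by
    refine ⟨∑ y : Fin n → ℤˣ, ‖g (ext1 y)‖, fun x => ?_⟩
    have h1 : g x = g (ext1 (fun i : Fin n => x i)) := by
      apply hg
      intro i hi
      simp [ext1, hi]
    rw [h1]
    exact Finset.single_le_sum (f := fun y : Fin n → ℤˣ => ‖g (ext1 y)‖)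
      (fun _ _ => norm_nonneg _) (Finset.mem_univ (fun i : Fin n => x i))
  exact ⟨_, AN_lev n g hg B hB⟩

/-- the norm of `f` modulo functions vanishing near `EE` is at most `r` -/
def BN (f : CG → ℂ) (r : ℝ) : Prop := ∃ g, InA g ∧ VN g ∧ AN (f - g) r

theorem BN.mono {f : CG → ℂ} {r s : ℝ} (h : BN f r) (hrs : r ≤ s) : BN f s := by
  obtain ⟨g, h1, h2, h3⟩ := h
  exact ⟨g, h1, h2, h3.mono hrs⟩

theorem BN.inA {f : CG → ℂ} {r : ℝ} (h : BN f r) : InA f := by
  obtain ⟨g, h1, h2, h3⟩ := h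
  have := InA.add (⟨r, h3⟩ : InA (f - g)) h1
  simpa using this

theorem BN.nonneg {f : CG → ℂ} {r : ℝ} (h : BN f r) : 0 ≤ r := by
  obtain ⟨g, h1, h2, h3⟩ := h
  exact h3.nonneg

theorem AN.bn {f : CG → ℂ} {r : ℝ} (h : AN f r) : BN f r :=
  ⟨0, InA_zero, VN_zero, by simpa using h⟩

theorem BN.add {f g : CG → ℂ} {r s : ℝ} (hf : BN f r) (hg : BN g s) : BN (f + g) (r + s) := by
  obtain ⟨u, h1, h2, h3⟩ := hf
  obtain ⟨v, k1, k2, k3⟩ := hg
  refine ⟨u + v, h1.add k1, h2.add k2, ?_⟩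
  have : f + g - (u + v) = (f - u) + (g - v) := by abel
  rw [this]
  exact h3.add k3

theorem BN.smul {f : CG → ℂ} {r : ℝ} (hf : BN f r) (c : ℂ) : BN (c • f) (‖c‖ * r) := by
  obtain ⟨u, h1, h2, h3⟩ := hf
  refine ⟨c • u, h1.smul c, ?_, ?_⟩
  · obtain ⟨U, a1, a2, a3⟩ := h2
    refine ⟨U, a1, a2, fun x hx => ?_⟩
    rw [Pi.smul_apply, a3 x hx, smul_zero]
  · rw [← smul_sub]
    exact h3.smul c

theorem BN.neg {f : CG → ℂ} {r : ℝ} (hf : BN f r) : BN (-f) r := by
  have := hf.smul (-1)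
  simpa using this

theorem BN.sub {f g : CG → ℂ} {r s : ℝ} (hf : BN f r) (hg : BN g s) : BN (f - g) (r + s) := by
  rw [sub_eq_add_neg]
  exact hf.add hg.neg

theorem BN.mul {f g : CG → ℂ} {r s : ℝ} (hf : BN f r) (hg : BN g s) : BN (f * g) (r * s) := by
  have hgA := hg.inA
  obtain ⟨u, h1, h2, h3⟩ := hf
  obtain ⟨v, k1, k2, k3⟩ := hg
  refine ⟨u * g + (f - u) * v, (h1.mul hgA).add (InA.mul ⟨r, h3⟩ k1),
    (h2.mul_right g).add (k2.mul_left _), ?_⟩
  have : f * g - (u * g + (f - u) * v) = (f - u) * (g - v) := by ring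
  rw [this]
  exact h3.mul k3

/-- `f` is in the closure of the functions vanishing near `EE` -/
def JJ (f : CG → ℂ) : Prop := ∀ ε : ℝ, 0 < ε → BN f ε

theorem JJ.inA {f : CG → ℂ} (h : JJ f) : InA f := (h 1 one_pos).inA

theorem JJ.add {f g : CG → ℂ} (hf : JJ f) (hg : JJ g) : JJ (f + g) := by
  intro ε hε
  have := (hf (ε / 2) (half_pos hε)).add (hg (ε / 2) (half_pos hε))
  rwa [add_halves] at this

theorem JJ.neg {f : CG → ℂ} (hf : JJ f) : JJ (-f) := fun ε hε => (hf ε hε).neg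

theorem JJ.sub {f g : CG → ℂ} (hf : JJ f) (hg : JJ g) : JJ (f - g) := by
  rw [sub_eq_add_neg]
  exact hf.add hg.neg

theorem JJ.mul_left {f g : CG → ℂ} (hf : JJ f) (hg : InA g) : JJ (g * f) := by
  obtain ⟨s, hs⟩ := hg
  intro ε hε
  have hs0 := hs.nonneg
  have h1 := hs.bn.mul (hf (ε / (s + 1)) (by positivity))
  refine h1.mono ?_
  rw [mul_div_assoc', div_le_iff₀ (by positivity)]
  nlinarith

theorem JJ.smul {f : CG → ℂ} (hf : JJ f) (c : ℂ) : JJ (c • f) := by
  have h1 : c • f = (fun _ => c) * f := by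
    funext x
    rfl
  rw [h1]
  exact hf.mul_left (InA_lev 0 _ (fun _ _ _ => rfl))

theorem JJ.ev {f : CG → ℂ} (hf : JJ f) (ε : ℝ) (hε : 0 < ε) :
    ∃ k0, ∀ k, k0 ≤ k → ‖HS.ev (st k).m f‖ ≤ ε := by
  obtain ⟨g, h1, h2, h3⟩ := hf ε hε
  obtain ⟨k0, hk0⟩ := h2.ev
  refine ⟨k0, fun k hk => ?_⟩
  have h4 : f = (f - g) + g := by abel
  rw [h4, ev_addf, hk0 k hk, add_zero]
  exact h3.ev k

end Pool.Agent.H481R3.HS
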