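import Mathlib
import Pool.Agent.H481R3.HSE

set_option autoImplicit false

open Filter Topology

namespace Pool.Agent.H481R3.HS

theorem trn_idem (n n' : ℕ) (h : n ≤ n') (x : CG) (i : ℕ) (hi : i < n) : trn n' x i = x i := by
  unfold trn
  rw [if_pos (by omega)]

/-- uniform approximation of continuous functions by functions of finitely many coordinates -/
theorem exists_trn (f : CG → ℝ) (hf : Continuous f) (ε : ℝ) (hε : 0 < ε) :
    ∃ n, ∀ x, |f x - f (trn n x)| < ε := by
  classical
  have h1 : ∀ x : CG, ∃ n : ℕ, ∀ y : CG, (∀ i < n, y i = x i) → |f y - f x| < ε / 2 := by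
    intro x
    have hopen : IsOpen {y : CG | |f y - f x| < ε / 2} :=
      isOpen_lt ((hf.sub continuous_const).abs) continuous_const
    rw [isOpen_pi_iff] at hopen
    obtain ⟨I, u, hu, hsub⟩ := hopen x (by simp [half_pos hε])
    refine ⟨I.sup id + 1, fun y hy => ?_⟩
    apply hsub
    intro i hi
    have h2 : i ≤ I.sup id := Finset.le_sup (f := id) hi
    rw [hy i (by omega)]
    exact (hu i hi).2
  choose N hN using h1
  have hcov : (Set.univ : Set CG) ⊆ ⋃ x : CG, {y : CG | ∀ i < N x, y i = x i} := by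
    intro x _
    rw [Set.mem_iUnion]
    exact ⟨x, fun i _ => rfl⟩
  have hopen : ∀ x : CG, IsOpen {y : CG | ∀ i < N x, y i = x i} := by
    intro x
    have : IsClopen {y : CG | ∀ i < N x, y i = x i} := by
      apply isClopen_of_lev (N x)
      intro y z hyz
      simp only [Set.mem_setOf_eq, eq_iff_iff]
      constructor
      · intro h i hi
        rw [← hyz i hi]; exact h i hi
      · intro h i hi
        rw [hyz i hi]; exact h i hi
    exact this.isOpen
  obtain ⟨t, ht⟩ := isCompact_univ.elim_finite_subcover _ hopen hcov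
  refine ⟨t.sup N, fun x => ?_⟩
  obtain ⟨z, hz⟩ := Set.mem_iUnion.1 (ht (Set.mem_univ x))
  obtain ⟨hzt, hxz⟩ := Set.mem_iUnion.1 hz
  have hle : N z ≤ t.sup N := Finset.le_sup hzt
  have h3 : |f x - f z| < ε / 2 := hN z x hxz
  have h4 : |f (trn (t.sup N) x) - f z| < ε / 2 := by
    apply hN z
    intro i hi
    rw [trn_idem (N z) _ hle x i hi]
    exact hxz i hi
  calc |f x - f (trn (t.sup N) x)| = |(f x - f z) - (f (trn (t.sup N) x) - f z)| := by
        congr 1; ring
    _ ≤ |f x - f z| + |f (trn (t.sup N) x) - f z| := abs_sub _ _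
    _ < ε := by linarith

/-- the average as a complex function -/
noncomputable def avc (k : ℕ) (x : CG) : ℂ := (av (st k).n (bN k (st k)) x : ℂ)

theorem avc_AN (k : ℕ) : AN (avc k) 1 := by
  have hN : (0 : ℝ) < bN k (st k) := by exact_mod_cast (bQ_spec k (st k)).1
  have h1 : avc k = ∑ j : Fin (bN k (st k)), ((bN k (st k) : ℝ) : ℂ)⁻¹ • W {(st k).n + (j : ℕ)} := by
    funext x
    rw [Finset.sum_apply]
    unfold avc av W
    simp only [Pi.smul_apply, smul_eq_mul, Finset.prod_singleton]
    rw [← Finset.mul_sum]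
    push_cast
    rw [div_eq_inv_mul]
  rw [h1]
  refine (AN.sum Finset.univ _ (fun _ => ‖((bN k (st k) : ℝ) : ℂ)⁻¹‖ * 1)
    (fun j _ => (AN_W _).smul _)).mono ?_
  rw [Finset.sum_const, Finset.card_univ, Fintype.card_fin, nsmul_eq_mul, norm_inv,
    Complex.norm_real, Real.norm_of_nonneg hN.le, mul_one, mul_inv_cancel₀ hN.ne']

/-- the average as a continuous function on `EE` -/
noncomputable def avE (k : ℕ) : C(EE, ℝ) :=
  ⟨fun x => av (st k).n (bN k (st k)) x, (av_lev (st k).n (bN k (st k))).continuous.comp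
    continuous_subtype_val⟩

instance : CompactSpace EE := isCompact_iff_compactSpace.1 EE_compact

theorem helson_step (u : C(EE, ℝ)) (M : ℝ) (hM : 0 < M) (hu : ‖u‖ ≤ M) :
    ∃ k, ‖u - (M / 2) • avE k‖ ≤ (7 / 8) * M := by
  obtain ⟨U, hU⟩ := u.exists_extension (e := ((↑) : EE → CG))
    (EE_closed.isClosedEmbedding_subtypeVal)
  obtain ⟨n, hn⟩ := exists_trn U U.continuous (M / 8) (by positivity)
  let φ : CG → ℤˣ := fun x => if 0 < U (trn n x) then 1 else -1
  have hφ : Lev n φ := by
    intro x y hxy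
    simp only [φ]
    rw [trn_lev n x y hxy]
  obtain ⟨k, hk, hphi⟩ := exists_stage n φ hφ n
  have hphi' := hphi (st k).n (hk.trans (le_n k))
  refine ⟨k, ?_⟩
  rw [ContinuousMap.norm_le _ (by positivity)]
  intro x
  have hx1 : (x : CG) ∈ (st (k + 1)).E := EE_sub (k + 1) x.2
  have h1 := near_av k x hx1
  rw [hphi'] at h1
  have h2 : |u x| ≤ M := (u.norm_coe_le_norm x).trans hu
  have hUx : U x = u x := DFunLike.congr_fun hU x
  have h3 := hn x
  rw [hUx] at h3
  have h4 := abs_le.1 h1
  have h5 := abs_le.1 h2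
  have h6 := abs_lt.1 h3
  rw [Real.norm_eq_abs]
  change |u x - (M / 2) * av (st k).n (bN k (st k)) x| ≤ _
  by_cases h7 : 0 < U (trn n x)
  · have h8 : vl (φ x) = 1 := by simp only [φ, if_pos h7, vl_one]
    rw [h8] at h4
    rw [abs_le]
    constructor <;> nlinarith
  · have h8 : vl (φ x) = -1 := by simp only [φ, if_neg h7, vl_neg_one]
    rw [h8] at h4
    rw [abs_le]
    push Not at h7
    constructor <;> nlinarith

theorem helson_real (u : C(EE, ℝ)) (M : ℝ) (hM : 0 < M) (hu : ‖u‖ ≤ M) :
    ∃ f : CG → ℂ, AN f (4 * M) ∧ ∀ x : EE, f x = (u x : ℂ) := by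
  classical
  let Mm : ℕ → ℝ := fun m => M * (7 / 8) ^ m
  have hMm : ∀ m, 0 < Mm m := fun m => by positivity
  let κ : ℕ → C(EE, ℝ) → ℕ := fun m w =>
    if h : ‖w‖ ≤ Mm m then (helson_step w (Mm m) (hMm m) h).choose else 0
  let v : ℕ → C(EE, ℝ) := fun m =>
    Nat.rec u (fun m w => w - (Mm m / 2) • avE (κ m w)) m
  have v0 : v 0 = u := rfl
  have vs : ∀ m, v (m + 1) = v m - (Mm m / 2) • avE (κ m (v m)) := fun m => rfl
  have hv : ∀ m, ‖v m‖ ≤ Mm m := by
    intro m
    induction m with
    | zero => rw [v0]; simpa [Mm] using hu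
    | succ m ih =>
      rw [vs]
      have h1 : κ m (v m) = (helson_step (v m) (Mm m) (hMm m) ih).choose := by
        simp only [κ, dif_pos ih]
      rw [h1]
      refine (helson_step (v m) (Mm m) (hMm m) ih).choose_spec.trans ?_
      simp only [Mm]
      rw [pow_succ]
      linarith
  have htel : ∀ m, ∑ i ∈ Finset.range m, (Mm i / 2) • avE (κ i (v i)) = u - v m := by
    intro m
    induction m with
    | zero => simp [v0]
    | succ m ih => rw [Finset.sum_range_succ, ih, vs]; abel
  have hMs : Summable Mm := (summable_geometric_of_lt_one (by norm_num) (by norm_num)).mul_left M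
  have hMt : ∑' m, Mm m = 8 * M := by
    simp only [Mm]
    rw [tsum_mul_left, tsum_geometric_of_lt_one (by norm_num) (by norm_num)]
    ring
  refine ⟨fun x => ∑' m, ((Mm m / 2 : ℝ) : ℂ) * avc (κ m (v m)) x, ?_, ?_⟩
  · have h1 : ∀ m, AN (((Mm m / 2 : ℝ) : ℂ) • avc (κ m (v m))) (Mm m / 2) := by
      intro m
      refine ((avc_AN _).smul _).mono ?_
      rw [Complex.norm_real, Real.norm_of_nonneg (by have := hMm m; positivity), mul_one]
    have h2 := AN.tsum h1 (hMs.div_const 2)
    refine h2.mono ?_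
    rw [tsum_div_const, hMt]
    linarith
  · intro x
    have h1 : HasSum (fun m => (Mm m / 2) * avE (κ m (v m)) x) (u x) := by
      have hsm : Summable (fun m => (Mm m / 2) * avE (κ m (v m)) x) := by
        apply Summable.of_norm_bounded (hMs.div_const 2)
        intro m
        rw [norm_mul, Real.norm_of_nonneg (by have := hMm m; positivity)]
        calc Mm m / 2 * ‖avE (κ m (v m)) x‖ ≤ Mm m / 2 * 1 := by
              apply mul_le_mul_of_nonneg_left _ (by have := hMm m; positivity)
              exact abs_av_le _ _ _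
          _ = Mm m / 2 := mul_one _
      have h2 : Tendsto (fun m => ∑ i ∈ Finset.range m, (Mm i / 2) * avE (κ i (v i)) x) atTop
          (𝓝 (u x)) := by
        have h3 : (fun m => ∑ i ∈ Finset.range m, (Mm i / 2) * avE (κ i (v i)) x) =
            fun m => u x - v m x := by
          funext m
          have := DFunLike.congr_fun (htel m) x
          rw [ContinuousMap.sum_apply] at this
          exact this
        rw [h3]
        have h4 : Tendsto (fun m => v m x) atTop (𝓝 0) := by
          apply squeeze_zero_norm (a := Mm)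
          · intro m
            exact ((v m).norm_coe_le_norm x).trans (hv m)
          · exact hMs.tendsto_atTop_zero
        have := h4.const_sub (u x)
        rwa [sub_zero] at this
      exact (hsm.hasSum_iff_tendsto_nat).2 h2
    have h5 := h1.mapL Complex.ofRealCLM
    have h6 : (u x : ℂ) = ∑' m, (((Mm m / 2) * avE (κ m (v m)) x : ℝ) : ℂ) := h5.tsum_eq.symm
    rw [h6]
    apply tsum_congr
    intro m
    rw [Complex.ofReal_mul]
    rfl

theorem helson (u : C(EE, ℂ)) : ∃ f : CG → ℂ, InA f ∧ ∀ x : EE, f x = u x := by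
  let ur : C(EE, ℝ) := ⟨fun x => (u x).re, Complex.continuous_re.comp u.continuous⟩
  let ui : C(EE, ℝ) := ⟨fun x => (u x).im, Complex.continuous_im.comp u.continuous⟩
  obtain ⟨f, hf, hf2⟩ := helson_real ur (‖ur‖ + 1) (by positivity) (by linarith)
  obtain ⟨g, hg, hg2⟩ := helson_real ui (‖ui‖ + 1) (by positivity) (by linarith)
  refine ⟨f + Complex.I • g, InA.add ⟨_, hf⟩ (InA.smul ⟨_, hg⟩ _), fun x => ?_⟩
  rw [Pi.add_apply, Pi.smul_apply, hf2, hg2, smul_eq_mul, mul_comm]
  exact Complex.re_add_im (u x)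

/-- `EE` is not a set of synthesis -/
theorem not_synthesis : ∃ f : CG → ℂ, InA f ∧ (∀ x ∈ EE, f x = 0) ∧ ¬ JJ f := by
  by_contra hcon
  push Not at hcon
  apply not_bdd 5
  intro k φ hφ
  have hφc : Lev (st k).n (fun x => ((vl (φ x) : ℝ) : ℂ)) := by
    intro x y hxy
    simp only
    rw [hφ x y hxy]
  let u : C(EE, ℝ) := ⟨fun x => vl (φ x), (show Continuous (fun x : CG => vl (φ x)) from
    (show Lev (st k).n (fun x => vl (φ x)) from fun x y hxy => by
      simp only
      rw [hφ x y hxy]).continuous).comp continuous_subtype_val⟩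
  have hu : ‖u‖ ≤ 1 := by
    rw [ContinuousMap.norm_le _ zero_le_one]
    intro x
    exact (abs_vl _).le
  obtain ⟨g, hg, hg2⟩ := helson_real u 1 one_pos hu
  have hJ : JJ ((fun x => ((vl (φ x) : ℝ) : ℂ)) - g) := by
    apply hcon
    · exact (InA_lev _ _ hφc).sub ⟨_, hg⟩
    · intro x hx
      rw [Pi.sub_apply, hg2 ⟨x, hx⟩]
      exact sub_self _
  obtain ⟨k0, hk0⟩ := hJ.ev 1 one_pos
  have h1 := hk0 (max k k0) (le_max_right _ _)
  rw [ev_subf, ev_lev (le_max_left k k0) _ hφc] at h1
  have h2 := hg.ev (max k k0)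
  calc ‖ev (st k).m (fun x => ((vl (φ x) : ℝ) : ℂ))‖ =
      ‖(ev (st k).m (fun x => ((vl (φ x) : ℝ) : ℂ)) - ev (st (max k k0)).m g) +
        ev (st (max k k0)).m g‖ := by congr 1; ring
    _ ≤ 1 + 4 * 1 := (norm_add_le _ _).trans (add_le_add h1 h2)
    _ = 5 := by norm_num

end Pool.Agent.H481R3.HS
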