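import Mathlib
import Pool.Agent.H481R3.HSF

set_option autoImplicit false

open Filter Topology

namespace Pool.Agent.H481R3.HS

theorem AN.pow {f : CG → ℂ} {r : ℝ} (hf : AN f r) (m : ℕ) : AN (f ^ m) (r ^ m) := by
  induction m with
  | zero => rw [pow_zero, pow_zero]; exact AN_one
  | succ m ih => rw [pow_succ, pow_succ]; exact ih.mul hf

theorem InA.pow {f : CG → ℂ} (hf : InA f) (m : ℕ) : InA (f ^ m) := by
  obtain ⟨r, hr⟩ := hf
  exact ⟨_, hr.pow m⟩

/-- functions of the algebra vanishing on `EE` are quasinilpotent modulo functions vanishing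
near `EE` -/
theorem quasinilp (h : CG → ℂ) (hA : InA h) (hE : ∀ x ∈ EE, h x = 0) (δ : ℝ) (hδ : 0 < δ) :
    ∃ C : ℝ, ∀ m : ℕ, BN (h ^ m) (C * (2 * δ) ^ m) := by
  classical
  obtain ⟨r, hr⟩ := hA
  obtain ⟨n, P, hP, ⟨s, hs⟩, happ⟩ := hr.approx δ hδ
  let P1 : CG → ℂ := fun x => if ‖P x‖ ≤ δ then P x else 0
  have hP1 : Lev n P1 := by
    intro x y hxy
    simp only [P1]
    rw [hP x y hxy]
  have hP1n : ∀ x, ‖P1 x‖ ≤ δ := by
    intro x
    simp only [P1]
    split_ifs with hx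
    · exact hx
    · simpa using hδ.le
  have hPE : ∀ x ∈ EE, ‖P x‖ ≤ δ := by
    intro x hx
    have := happ.bound x
    rw [Pi.sub_apply, hE x hx, zero_sub, norm_neg] at this
    exact this
  let q : CG → ℂ := (h - P) + P1
  have hq : ∀ m, AN (q ^ m) (2 ^ n * (2 * δ) ^ m) := by
    intro m
    have h1 : q ^ m = ∑ k ∈ Finset.range (m + 1), ((m.choose k : ℕ) : ℂ) • ((h - P) ^ k * P1 ^ (m - k)) := by
      rw [add_pow]
      apply Finset.sum_congr rfl
      intro k _
      funext x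
      simp only [Pi.mul_apply, Pi.smul_apply, smul_eq_mul, Pi.pow_apply, Pi.natCast_apply]
      ring
    rw [h1]
    have h2 : ∀ k, AN (((m.choose k : ℕ) : ℂ) • ((h - P) ^ k * P1 ^ (m - k)))
        (‖((m.choose k : ℕ) : ℂ)‖ * (δ ^ k * (2 ^ n * δ ^ (m - k)))) := by
      intro k
      refine ((happ.pow k).mul ?_).smul _
      apply AN_lev n
      · intro x y hxy
        rw [Pi.pow_apply, Pi.pow_apply, hP1 x y hxy]
      · intro x
        rw [Pi.pow_apply, norm_pow]
        exact pow_le_pow_left₀ (norm_nonneg _) (hP1n x) _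
    refine (AN.sum (Finset.range (m + 1)) _ _ (fun k _ => h2 k)).mono ?_
    apply le_of_eq
    rw [two_mul, add_pow, Finset.mul_sum]
    apply Finset.sum_congr rfl
    intro k _
    rw [Complex.norm_natCast]
    ring
  refine ⟨2 ^ n, fun m => ⟨h ^ m - q ^ m, ?_, ?_, ?_⟩⟩
  · exact (InA.pow ⟨r, hr⟩ m).sub ⟨_, hq m⟩
  · refine ⟨{x | ‖P x‖ ≤ δ}, ?_, hPE, ?_⟩
    · apply (isClopen_of_lev n _ _).isOpen
      intro x y hxy
      simp only [Set.mem_setOf_eq]
      rw [hP x y hxy]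
    · intro x hx
      have h3 : q x = h x := by
        simp only [q, P1, Pi.add_apply, Pi.sub_apply]
        rw [if_pos (show ‖P x‖ ≤ δ from hx)]
        ring
      rw [Pi.sub_apply, Pi.pow_apply, Pi.pow_apply, h3, sub_self]
  · rw [sub_sub_cancel]
    exact hq m

/-- cylinder sets -/
def Cy (A : Set CG) : Prop := ∃ n, Lev n (fun x => x ∈ A)

theorem Cy.diff {A B : Set CG} (hA : Cy A) (hB : Cy B) : Cy (A \ B) := by
  obtain ⟨n, hn⟩ := hA
  obtain ⟨m, hm⟩ := hB
  refine ⟨max n m, fun x y hxy => ?_⟩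
  have h1 : (x ∈ A) = (y ∈ A) := (hn.mono (le_max_left _ _)) x y hxy
  have h2 : (x ∈ B) = (y ∈ B) := (hm.mono (le_max_right _ _)) x y hxy
  simp only [Set.mem_diff, h1, h2]

theorem Cy.inter {A B : Set CG} (hA : Cy A) (hB : Cy B) : Cy (A ∩ B) := by
  obtain ⟨n, hn⟩ := hA
  obtain ⟨m, hm⟩ := hB
  refine ⟨max n m, fun x y hxy => ?_⟩
  have h1 : (x ∈ A) = (y ∈ A) := (hn.mono (le_max_left _ _)) x y hxy
  have h2 : (x ∈ B) = (y ∈ B) := (hm.mono (le_max_right _ _)) x y hxy
  simp only [Set.mem_inter_iff, h1, h2]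

theorem Cy_univ : Cy Set.univ := ⟨0, fun x y _ => by simp⟩

open Classical in
/-- indicator function -/
noncomputable def ind (A : Set CG) : CG → ℂ := fun x => if x ∈ A then 1 else 0

theorem ind_lev {A : Set CG} {n : ℕ} (h : Lev n (fun x => x ∈ A)) : Lev n (ind A) := by
  intro x y hxy
  have h1 : (x ∈ A) = (y ∈ A) := h x y hxy
  unfold ind
  by_cases hx : x ∈ A
  · have hy : y ∈ A := h1 ▸ hx
    rw [if_pos hx, if_pos hy]
  · have hy : y ∉ A := h1 ▸ hx
    rw [if_neg hx, if_neg hy]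

theorem ind_pos {A : Set CG} {x : CG} (h : x ∈ A) : ind A x = 1 := if_pos h
theorem ind_neg {A : Set CG} {x : CG} (h : x ∉ A) : ind A x = 0 := if_neg h

theorem ind_InA {A : Set CG} (h : Cy A) : InA (ind A) := by
  obtain ⟨n, hn⟩ := h
  exact InA_lev n _ (ind_lev hn)

/-- the indicator on `EE` -/
noncomputable def indE (A : Set CG) (h : Cy A) : C(EE, ℂ) :=
  ⟨fun x => ind A x, (ind_lev h.choose_spec).continuous.comp continuous_subtype_val⟩

theorem indE_apply (A : Set CG) (h : Cy A) (x : EE) : indE A h x = ind A x := rfl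

theorem norm_indE (A : Set CG) (h : Cy A) : ‖indE A h‖ ≤ 1 := by
  rw [ContinuousMap.norm_le _ zero_le_one]
  intro x
  rw [indE_apply]
  by_cases hx : (x : CG) ∈ A
  · rw [ind_pos hx]; simp
  · rw [ind_neg hx]; simp

theorem indE_sq (A : Set CG) (h : Cy A) : indE A h * indE A h = indE A h := by
  ext x
  rw [ContinuousMap.mul_apply, indE_apply]
  by_cases hx : (x : CG) ∈ A
  · rw [ind_pos hx]; simp
  · rw [ind_neg hx]; simp

section main
variable (θ : C(EE, ℂ) → (CG → ℂ)) (hA : ∀ u, InA (θ u))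
  (hE : ∀ (u : C(EE, ℂ)) (x : CG) (hx : x ∈ EE), θ u x = u ⟨x, hx⟩)
  (hadd : ∀ u v, JJ (θ (u + v) - θ u - θ v))
  (hsmul : ∀ (c : ℂ) u, JJ (θ (c • u) - c • θ u))
  (hmul : ∀ u v, JJ (θ (u * v) - θ u * θ v))
include hA hE hmul

/-- idempotents lift uniquely -/
theorem idem_unique (K : Set CG) (hK : Cy K) : JJ (θ (indE K hK) - ind K) := by
  set p : CG → ℂ := θ (indE K hK) with hp
  set q : CG → ℂ := ind K with hq
  have hpA : InA p := hA _
  have hqA : InA q := ind_InA hK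
  have hhA : InA (p - q) := hpA.sub hqA
  have hhE : ∀ x ∈ EE, (p - q) x = 0 := by
    intro x hx
    rw [Pi.sub_apply, hp, hE _ x hx, hq]
    exact sub_self _
  have h1 : JJ (p - p * p) := by
    have := hmul (indE K hK) (indE K hK)
    rwa [indE_sq] at this
  have h1A : InA (fun _ : CG => (1 : ℂ)) := ⟨1, AN_one⟩
  have h2 : JJ ((p - q) ^ 3 - (p - q)) := by
    have h3 : (p - q) ^ 3 - (p - q) = ((3 : ℂ) • q - (p + fun _ => 1)) * (p - p * p) := by
      funext x
      simp only [Pi.sub_apply, Pi.pow_apply, Pi.mul_apply, Pi.add_apply, Pi.smul_apply, smul_eq_mul]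
      by_cases hx : x ∈ K
      · have : q x = 1 := ind_pos hx
        rw [this]; ring
      · have : q x = 0 := ind_neg hx
        rw [this]; ring
    rw [h3]
    exact h1.mul_left ((hqA.smul _).sub (hpA.add h1A))
  have h4 : ∀ k : ℕ, JJ ((p - q) ^ (3 ^ k) - (p - q)) := by
    intro k
    induction k with
    | zero =>
      rw [pow_zero, pow_one, sub_self]
      exact fun ε hε => (AN_zero.bn).mono hε.le
    | succ k ih =>
      have h5 : (p - q) ^ (3 ^ (k + 1)) - (p - q) =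
          (((p - q) ^ (3 ^ k)) ^ 2 + ((p - q) ^ (3 ^ k)) * (p - q) + (p - q) ^ 2) *
            ((p - q) ^ (3 ^ k) - (p - q)) + ((p - q) ^ 3 - (p - q)) := by
        rw [pow_succ 3 k, pow_mul]
        ring
      rw [h5]
      refine (ih.mul_left ?_).add h2
      exact (((hhA.pow _).pow 2).add ((hhA.pow _).mul hhA)).add (hhA.pow 2)
  obtain ⟨C, hC⟩ := quasinilp (p - q) hhA hhE (1 / 4) (by norm_num)
  intro ε hε
  obtain ⟨k, hk⟩ : ∃ k : ℕ, C * (2 * (1 / 4)) ^ (3 ^ k) ≤ ε / 2 := by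
    have h6 : Tendsto (fun k : ℕ => C * (2 * (1 / 4) : ℝ) ^ (3 ^ k)) atTop (𝓝 (C * 0)) := by
      apply Tendsto.const_mul
      exact (tendsto_pow_atTop_nhds_zero_of_lt_one (by norm_num) (by norm_num)).comp
        (tendsto_pow_atTop_atTop_of_one_lt (by norm_num))
    rw [mul_zero] at h6
    obtain ⟨k, hk⟩ := (h6.eventually (gt_mem_nhds (half_pos hε))).exists
    exact ⟨k, hk.le⟩
  have h7 : p - q = (p - q) ^ (3 ^ k) - ((p - q) ^ (3 ^ k) - (p - q)) := by abel
  rw [h7]
  refine (((hC (3 ^ k)).mono hk).sub (h4 k (ε / 2) (half_pos hε))).mono ?_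
  rw [add_halves]

end main

/-! ### disjoint sequences -/

/-- unbounded indicator norms below `V` -/
def Bad (V : Set CG) : Prop := ∀ M : ℝ, ∃ K, Cy K ∧ K ⊆ V ∧ ¬ BN (ind K) M

theorem ind_split (K L : Set CG) : ind L = ind (L ∩ K) + ind (L \ K) := by
  funext x
  rw [Pi.add_apply]
  by_cases h1 : x ∈ L
  · by_cases h2 : x ∈ K
    · rw [ind_pos h1, ind_pos (show x ∈ L ∩ K from ⟨h1, h2⟩), ind_neg (fun h => h.2 h2), add_zero]
    · rw [ind_pos h1, ind_neg (fun h : x ∈ L ∩ K => h2 h.2), ind_pos (show x ∈ L \ K from ⟨h1, h2⟩),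
        zero_add]
  · rw [ind_neg h1, ind_neg (fun h : x ∈ L ∩ K => h1 h.1), ind_neg (fun h : x ∈ L \ K => h1 h.1),
      add_zero]

theorem bad_split (V : Set CG) (hV : Cy V) (hB : Bad V) (c : ℝ) :
    ∃ D, Cy D ∧ D ⊆ V ∧ ¬ BN (ind D) c ∧ Bad (V \ D) := by
  obtain ⟨rV, hrV⟩ := ind_InA hV
  have hrV0 := hrV.nonneg
  obtain ⟨K, hK, hKV, hKn⟩ := hB (c + rV)
  have h1 : ¬ BN (ind K) c := fun h => hKn (h.mono (by linarith))
  have h2 : ¬ BN (ind (V \ K)) c := by
    intro h
    apply hKn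
    have h3 : ind K = ind V - ind (V \ K) := by
      have := ind_split K V
      rw [Set.inter_eq_right.2 hKV] at this
      rw [this]
      abel
    rw [h3]
    exact (hrV.bn.sub h).mono (by linarith)
  by_cases h4 : Bad (V \ K)
  · exact ⟨K, hK, hKV, h1, h4⟩
  · refine ⟨V \ K, hV.diff hK, Set.diff_subset, h2, ?_⟩
    have h5 : V \ (V \ K) = K := by
      rw [Set.diff_diff_right_self, Set.inter_eq_right.2 hKV]
    rw [h5]
    by_contra h6
    unfold Bad at h4 h6
    push Not at h4 h6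
    obtain ⟨M1, hM1⟩ := h4
    obtain ⟨M2, hM2⟩ := h6
    obtain ⟨L, hL, hLV, hLn⟩ := hB (M2 + M1)
    apply hLn
    rw [ind_split K L]
    refine (hM2 (L ∩ K) (hL.inter hK) Set.inter_subset_right).add
      (hM1 (L \ K) (hL.diff hK) (Set.diff_subset_diff_left hLV))

theorem exists_disjoint (hB : Bad Set.univ) : ∃ D : ℕ → Set CG, (∀ n, Cy (D n)) ∧
    (∀ n, ¬ BN (ind (D n)) (16 ^ n)) ∧ (∀ n m, n < m → ∀ x, x ∈ D n → x ∉ D m) := by
  choose! F hF using fun (V : Set CG) (n : ℕ) => fun (h : Cy V ∧ Bad V) =>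
    bad_split V h.1 h.2 (16 ^ n)
  let V : ℕ → Set CG := fun n => Nat.rec Set.univ (fun n V => V \ F V n) n
  have hV0 : V 0 = Set.univ := rfl
  have hVs : ∀ n, V (n + 1) = V n \ F (V n) n := fun n => rfl
  have hV : ∀ n, Cy (V n) ∧ Bad (V n) := by
    intro n
    induction n with
    | zero => exact ⟨Cy_univ, hB⟩
    | succ n ih =>
      rw [hVs]
      exact ⟨ih.1.diff (hF (V n) n ih).1, (hF (V n) n ih).2.2.2⟩
  have hanti : ∀ n m, n ≤ m → V m ⊆ V n := by
    intro n m h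
    induction m, h using Nat.le_induction with
    | base => exact le_rfl
    | succ m _ ih => rw [hVs]; exact Set.diff_subset.trans ih
  refine ⟨fun n => F (V n) n, fun n => (hF (V n) n (hV n)).1,
    fun n => (hF (V n) n (hV n)).2.2.1, ?_⟩
  intro n m hnm x hxn hxm
  have h1 : x ∈ V m := (hF (V m) m (hV m)).2.1 hxm
  have h2 : x ∈ V (n + 1) := hanti (n + 1) m hnm h1
  rw [hVs] at h2
  exact h2.2 hxn

section main2
variable (θ : C(EE, ℂ) → (CG → ℂ)) (hA : ∀ u, InA (θ u))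
  (hE : ∀ (u : C(EE, ℂ)) (x : CG) (hx : x ∈ EE), θ u x = u ⟨x, hx⟩)
  (hsmul : ∀ (c : ℂ) u, JJ (θ (c • u) - c • θ u))
  (hmul : ∀ u v, JJ (θ (u * v) - θ u * θ v))
include hA hE hsmul hmul

theorem not_bad : ¬ Bad Set.univ := by
  intro hB
  obtain ⟨D, hD, hDn, hdis⟩ := exists_disjoint hB
  have hdis' : ∀ n m x, x ∈ D n → x ∈ D m → n = m := by
    intro n m x h1 h2
    rcases lt_trichotomy n m with h | h | h
    · exact absurd h2 (hdis n m h x h1)
    · exact h
    · exact absurd h1 (hdis m n h x h2)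
  -- general sums
  have hsum : ∀ g : ℕ → ℕ, Summable (fun j : ℕ => ((1 / 2 : ℂ) ^ j) • indE (D (g j)) (hD (g j))) := by
    intro g
    apply Summable.of_norm_bounded (g := fun j : ℕ => (1 / 2 : ℝ) ^ j)
      (summable_geometric_of_lt_one (by norm_num) (by norm_num))
    intro j
    rw [norm_smul, norm_pow]
    calc ‖(1 / 2 : ℂ)‖ ^ j * ‖indE (D (g j)) (hD (g j))‖ ≤ (1 / 2) ^ j * 1 := by
          have h1 : ‖(1 / 2 : ℂ)‖ = 1 / 2 := by norm_num
          rw [h1]
          exact mul_le_mul_of_nonneg_left (norm_indE _ _) (by positivity)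
      _ = (1 / 2) ^ j := mul_one _
  let S : (ℕ → ℕ) → C(EE, ℂ) := fun g => ∑' j : ℕ, ((1 / 2 : ℂ) ^ j) • indE (D (g j)) (hD (g j))
  have hS : ∀ g (x : EE), S g x = ∑' j : ℕ, ((1 / 2 : ℂ) ^ j) * ind (D (g j)) x := by
    intro g x
    simp only [S]
    rw [← ContinuousMap.tsum_apply (hsum g) x]
    rfl
  have hS1 : ∀ (g : ℕ → ℕ), Function.Injective g → ∀ (x : EE) j, (x : CG) ∈ D (g j) →
      S g x = (1 / 2 : ℂ) ^ j := by
    intro g hg x j hx
    rw [hS, tsum_eq_single j]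
    · rw [ind_pos hx, mul_one]
    · intro i hi
      rw [ind_neg, mul_zero]
      intro h
      exact hi (hg (hdis' _ _ _ h hx))
  have hS0 : ∀ (g : ℕ → ℕ) (x : EE), (∀ j, (x : CG) ∉ D (g j)) → S g x = 0 := by
    intro g x hx
    rw [hS]
    have : (fun j : ℕ => ((1 / 2 : ℂ) ^ j) * ind (D (g j)) x) = fun _ => 0 := by
      funext j
      rw [ind_neg (hx j), mul_zero]
    rw [this, tsum_zero]
  choose R hR using fun i : ℕ => hA (S (fun j => Nat.pair i j))
  have hj : ∀ i, ∃ j : ℕ, R i < 2 ^ j := fun i => pow_unbounded_of_one_lt _ (by norm_num)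
  choose jj hjj using hj
  set y : C(EE, ℂ) := S (fun i => Nat.pair i (jj i)) with hy
  obtain ⟨Ry, hRy⟩ := hA y
  have hRy0 := hRy.nonneg
  have hinj1 : ∀ i, Function.Injective (fun j => Nat.pair i j) := by
    intro i a b h
    exact (Nat.pair_eq_pair.1 h).2
  have hinj2 : Function.Injective (fun i => Nat.pair i (jj i)) := by
    intro a b h
    exact (Nat.pair_eq_pair.1 h).1
  have hprod : ∀ i, S (fun j => Nat.pair i j) * y =
      ((1 / 2 : ℂ) ^ (i + jj i)) • indE (D (Nat.pair i (jj i))) (hD _) := by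
    intro i
    ext x
    rw [ContinuousMap.mul_apply, ContinuousMap.smul_apply, indE_apply, smul_eq_mul]
    by_cases hx : (x : CG) ∈ D (Nat.pair i (jj i))
    · rw [hS1 _ (hinj1 i) x (jj i) hx, hy, hS1 _ hinj2 x i hx, ind_pos hx, pow_add]
      ring
    · rw [ind_neg hx, mul_zero]
      by_cases hx2 : ∃ j, (x : CG) ∈ D (Nat.pair i j)
      · obtain ⟨j, hj⟩ := hx2
        have : y x = 0 := by
          rw [hy]
          apply hS0
          intro i' hi'
          have h3 := hdis' _ _ _ hj hi'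
          have h4 := Nat.pair_eq_pair.1 h3
          apply hx
          rw [h4.1]
          exact hi'
        rw [this, mul_zero]
      · push Not at hx2
        rw [hS0 _ x hx2, zero_mul]
  have hfin : ∀ i : ℕ, (2 : ℝ) ^ i < Ry + 1 := by
    intro i
    have hRi0 := (hR i).nonneg
    set n := Nat.pair i (jj i) with hn
    set J := i + jj i with hJ
    set c : ℂ := (1 / 2 : ℂ) ^ J with hc
    have e1 := hmul (S (fun j => Nat.pair i j)) y
    rw [hprod i] at e1
    have e2 := hsmul c (indE (D n) (hD n))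
    have e3 := (idem_unique θ hA hE hmul (D n) (hD n)).smul c
    have h1 : c • ind (D n) = θ (S (fun j => Nat.pair i j)) * θ y +
        (θ (c • indE (D n) (hD n)) - θ (S (fun j => Nat.pair i j)) * θ y) -
        (θ (c • indE (D n) (hD n)) - c • θ (indE (D n) (hD n))) -
        c • (θ (indE (D n) (hD n)) - ind (D n)) := by
      rw [smul_sub]
      abel
    have h2 : BN (c • ind (D n)) (R i * Ry + 1) := by
      rw [h1]
      refine (((((hR i).mul hRy).bn.add (e1 (1 / 3) (by norm_num))).sub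
        (e2 (1 / 3) (by norm_num))).sub (e3 (1 / 3) (by norm_num))).mono ?_
      linarith
    have hc0 : c ≠ 0 := by
      rw [hc]
      exact pow_ne_zero _ (by norm_num)
    have h3 : BN (ind (D n)) (2 ^ J * (R i * Ry + 1)) := by
      have := h2.smul c⁻¹
      rw [smul_smul, inv_mul_cancel₀ hc0, one_smul] at this
      have h4 : ‖c⁻¹‖ = 2 ^ J := by
        have h41 : ‖(1 / 2 : ℂ)‖ = 1 / 2 := by norm_num
        rw [hc, norm_inv, norm_pow, h41, one_div, inv_pow, inv_inv]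
      rwa [h4] at this
    have h5 : (16 : ℝ) ^ n < 2 ^ J * (R i * Ry + 1) := by
      by_contra h6
      push Not at h6
      exact hDn n (h3.mono h6)
    have h7 : (4 : ℝ) ^ J ≤ 16 ^ n := by
      have h8 : J ≤ 2 * n := by
        have := Nat.left_le_pair i (jj i)
        have := Nat.right_le_pair i (jj i)
        omega
      calc (4 : ℝ) ^ J ≤ 4 ^ (2 * n) := pow_le_pow_right₀ (by norm_num) h8
        _ = 16 ^ n := by rw [pow_mul]; norm_num
    have h9 : (4 : ℝ) ^ J = 2 ^ J * 2 ^ J := by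
      rw [← mul_pow]; norm_num
    have h10 : (2 : ℝ) ^ J < R i * Ry + 1 := by
      have h11 : (2 : ℝ) ^ J * 2 ^ J < 2 ^ J * (R i * Ry + 1) := by
        rw [← h9]; exact h7.trans_lt h5
      exact lt_of_mul_lt_mul_left h11 (by positivity)
    rw [hJ, pow_add] at h10
    have h12 := hjj i
    have h13 : (1 : ℝ) ≤ 2 ^ (jj i) := one_le_pow₀ (by norm_num)
    have h14 : (2 : ℝ) ^ i * 2 ^ (jj i) < (Ry + 1) * 2 ^ (jj i) := by nlinarith
    exact lt_of_mul_lt_mul_right h14 (by positivity)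
  obtain ⟨i, hi⟩ := pow_unbounded_of_one_lt (Ry + 1) (by norm_num : (1 : ℝ) < 2)
  exact absurd (hfin i) (not_lt.2 hi.le)

/-- there is no such lifting -/
theorem no_lifting : False := by
  have h1 := not_bad θ hA hE hsmul hmul
  unfold Bad at h1
  push Not at h1
  obtain ⟨M, hM⟩ := h1
  apply not_bdd (2 * M + 1)
  intro k φ hφ
  have hcy : Cy {x | φ x = 1} := ⟨(st k).n, fun x y hxy => by
    simp only [Set.mem_setOf_eq]
    rw [hφ x y hxy]⟩
  have hφc : Lev (st k).n (fun x => ((vl (φ x) : ℝ) : ℂ)) := by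
    intro x y hxy
    simp only
    rw [hφ x y hxy]
  have h2 : (fun x => ((vl (φ x) : ℝ) : ℂ)) = (2 : ℂ) • ind {x | φ x = 1} - (fun _ => 1) := by
    funext x
    rw [Pi.sub_apply, Pi.smul_apply, smul_eq_mul]
    by_cases hx : φ x = 1
    · rw [ind_pos (show x ∈ {x | φ x = 1} from hx), hx, vl_one]
      norm_num
    · rw [ind_neg (show x ∉ {x | φ x = 1} from hx)]
      have : φ x = -1 := (Int.units_eq_one_or (φ x)).resolve_left hx
      rw [this, vl_neg_one]
      norm_num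
  have h3 : BN (fun x => ((vl (φ x) : ℝ) : ℂ)) (2 * M + 1) := by
    rw [h2]
    have := ((hM _ hcy (Set.subset_univ _)).smul 2).sub AN_one.bn
    simpa using this
  obtain ⟨g, hg1, hg2, hg3⟩ := h3
  obtain ⟨k0, hk0⟩ := hg2.ev
  have h4 := hg3.ev (max k k0)
  rw [ev_subf, hk0 _ (le_max_right _ _), sub_zero, ev_lev (le_max_left k k0) _ hφc] at h4
  exact h4

end main2

end Pool.Agent.H481R3.HS
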