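import Mathlib
import Pool.Agent.H481R3.HSG

set_option autoImplicit false

open Filter Topology MeasureTheory

namespace Pool.Agent.H481R3.HS

/-! ### the dual group of the Cantor group -/

/-- signs in the circle -/
noncomputable def sg1 : ℤˣ →* Circle where
  toFun v := ⟨(vl v : ℂ), mem_sphere_zero_iff_norm.2 (by
    rw [Complex.norm_real, Real.norm_eq_abs, abs_vl])⟩
  map_one' := by
    apply Circle.ext
    change (vl 1 : ℂ) = 1
    rw [vl_one, Complex.ofReal_one]
  map_mul' v w := by
    apply Circle.ext
    change (vl (v * w) : ℂ) = (vl v : ℂ) * (vl w : ℂ)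
    rw [vl_mul, Complex.ofReal_mul]

theorem sg1_coe (v : ℤˣ) : ((sg1 v : Circle) : ℂ) = (vl v : ℂ) := rfl

/-- Walsh characters -/
noncomputable def wch (T : Finset ℕ) : PontryaginDual CG :=
  { toFun := fun x => ∏ i ∈ T, sg1 (x i)
    map_one' := by
      apply Finset.prod_eq_one
      intro i _
      rw [Pi.one_apply, map_one]
    map_mul' := fun x y => by
      rw [← Finset.prod_mul_distrib]
      apply Finset.prod_congr rfl
      intro i _
      rw [Pi.mul_apply, map_mul]
    continuous_toFun := by
      apply continuous_finset_prod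
      intro i _
      exact (continuous_of_discreteTopology (f := sg1)).comp (continuous_apply i) }

theorem wch_apply (T : Finset ℕ) (x : CG) : wch T x = ∏ i ∈ T, sg1 (x i) := rfl

theorem wch_coe (T : Finset ℕ) (x : CG) : ((wch T x : Circle) : ℂ) = W T x := by
  rw [wch_apply]
  unfold W
  have : ((∏ i ∈ T, sg1 (x i) : Circle) : ℂ) = ∏ i ∈ T, ((sg1 (x i) : Circle) : ℂ) :=
    map_prod Circle.coeHom _ _
  rw [this]
  rfl

theorem wch_inj : Function.Injective wch := by
  intro T T' h
  ext i
  have h1 : ∀ S : Finset ℕ, ((wch S (Pi.mulSingle i (-1 : ℤˣ)) : Circle) : ℂ) = if i ∈ S then -1 else 1 := by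
    intro S
    rw [wch_coe]
    unfold W
    have h2 : ∀ j, ((vl ((Pi.mulSingle i (-1 : ℤˣ) : CG) j) : ℝ) : ℂ) = if j = i then -1 else 1 := by
      intro j
      by_cases hj : j = i
      · subst hj
        rw [Pi.mulSingle_eq_same, vl_neg_one]
        simp
      · rw [Pi.mulSingle_eq_of_ne hj, vl_one]
        simp [hj]
    simp_rw [h2]
    rw [Finset.prod_ite_eq']
  have h3 := h1 T
  rw [h, h1 T'] at h3
  by_cases hT : i ∈ T <;> by_cases hT' : i ∈ T' <;> simp only [hT, hT', if_true, if_false, iff_true,
    iff_false, not_true_eq_false, not_false_eq_true] at h3 ⊢ <;> norm_num at h3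

theorem sq_one (x : CG) : x * x = 1 := by
  funext i
  rw [Pi.mul_apply, Pi.one_apply]
  exact Int.units_mul_self _

theorem chi_or (χ : PontryaginDual CG) (x : CG) : ((χ x : Circle) : ℂ) = 1 ∨ ((χ x : Circle) : ℂ) = -1 := by
  have h1 : χ x * χ x = 1 := by
    rw [← map_mul, sq_one, map_one]
  have h2 : ((χ x : Circle) : ℂ) * ((χ x : Circle) : ℂ) = 1 := by
    rw [← Circle.coe_mul, h1, Circle.coe_one]
  exact mul_self_eq_one_iff.1 h2

theorem chi_level (χ : PontryaginDual CG) : ∃ n : ℕ, ∀ x : CG, (∀ i < n, x i = 1) → χ x = 1 := by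
  have hcont : Continuous (fun x : CG => ((χ x : Circle) : ℂ)) :=
    continuous_subtype_val.comp (map_continuous χ)
  have hopen : IsOpen {x : CG | ((χ x : Circle) : ℂ) ≠ -1} := isOpen_ne.preimage hcont
  rw [isOpen_pi_iff] at hopen
  obtain ⟨I, u, hu, hsub⟩ := hopen 1 (by
    change ((χ 1 : Circle) : ℂ) ≠ -1
    rw [map_one, Circle.coe_one]
    norm_num)
  refine ⟨I.sup id + 1, fun x hx => ?_⟩
  have h1 : x ∈ {x : CG | ((χ x : Circle) : ℂ) ≠ -1} := by
    apply hsub
    intro i hi
    have h2 : i ≤ I.sup id := Finset.le_sup (f := id) hi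
    rw [hx i (by omega)]
    exact (hu i hi).2
  apply Circle.ext
  rw [Circle.coe_one]
  exact (chi_or χ x).resolve_right h1

theorem trn_eq_prod (n : ℕ) (x : CG) : trn n x = ∏ i ∈ Finset.range n, Pi.mulSingle i (x i) := by
  funext j
  rw [Finset.prod_apply]
  have h1 : ∀ i, (Pi.mulSingle i (x i) : CG) j = if i = j then x j else 1 := by
    intro i
    by_cases h : i = j
    · subst h; simp
    · rw [Pi.mulSingle_eq_of_ne (fun h' => h h'.symm), if_neg h]
  simp_rw [h1]
  rw [Finset.prod_ite_eq']
  unfold trn
  simp only [Finset.mem_range]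

theorem wch_surj : Function.Surjective wch := by
  classical
  intro χ
  obtain ⟨n, hn⟩ := chi_level χ
  refine ⟨(Finset.range n).filter (fun i => ((χ (Pi.mulSingle i (-1 : ℤˣ)) : Circle) : ℂ) = -1), ?_⟩
  apply PontryaginDual.ext
  intro x
  apply Circle.ext
  rw [wch_coe]
  have h1 : χ x = χ (trn n x) := by
    have h2 : χ (x * trn n x) = 1 := by
      apply hn
      intro i hi
      rw [Pi.mul_apply]
      unfold trn
      rw [if_pos hi]
      exact Int.units_mul_self _
    rw [map_mul] at h2
    have h3 : χ (trn n x) * χ (trn n x) = 1 := by rw [← map_mul, sq_one, map_one]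
    calc χ x = χ x * (χ (trn n x) * χ (trn n x)) := by rw [h3, mul_one]
      _ = (χ x * χ (trn n x)) * χ (trn n x) := by rw [mul_assoc]
      _ = χ (trn n x) := by rw [h2, one_mul]
  rw [h1, trn_eq_prod, map_prod]
  have h4 : ((∏ i ∈ Finset.range n, χ (Pi.mulSingle i (x i)) : Circle) : ℂ) =
      ∏ i ∈ Finset.range n, ((χ (Pi.mulSingle i (x i)) : Circle) : ℂ) :=
    map_prod Circle.coeHom _ _
  rw [h4]
  unfold W
  rw [Finset.prod_filter]
  apply Finset.prod_congr rfl
  intro i _
  rcases Int.units_eq_one_or (x i) with h5 | h5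
  · rw [h5, vl_one, Pi.mulSingle_one, map_one]
    simp
  · rw [h5, vl_neg_one]
    rcases chi_or χ (Pi.mulSingle i (-1 : ℤˣ)) with h6 | h6
    · rw [h6, if_neg (by norm_num)]
    · rw [h6, if_pos rfl]
      simp

/-- the dual group -/
noncomputable def wE : Finset ℕ ≃ PontryaginDual CG := Equiv.ofBijective wch ⟨wch_inj, wch_surj⟩

instance : Countable (PontryaginDual CG) := wE.symm.injective.countable

section meas
variable [MeasurableSpace (PontryaginDual CG)] [BorelSpace (PontryaginDual CG)]

theorem count_haar : (Measure.count : Measure (PontryaginDual CG)).IsHaarMeasure := by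
  apply Measure.isHaarMeasure_of_isCompact_nonempty_interior _ ({1} : Set (PontryaginDual CG))
    isCompact_singleton
  · rw [(isOpen_discrete _).interior_eq]
    exact Set.singleton_nonempty _
  · rw [Measure.count_singleton]
    exact one_ne_zero
  · rw [Measure.count_singleton]
    exact ENNReal.one_ne_top

theorem integral_count_eq {E : Type} [NormedAddCommGroup E] [NormedSpace ℝ E] [CompleteSpace E]
    (f : PontryaginDual CG → E) (hf : Integrable f Measure.count) :
    ∫ χ, f χ ∂Measure.count = ∑' T : Finset ℕ, f (wch T) := by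
  rw [integral_countable hf]
  have h1 : ∀ χ : PontryaginDual CG, (Measure.count : Measure (PontryaginDual CG)).real {χ} • f χ = f χ := by
    intro χ
    rw [Measure.real, Measure.count_singleton]
    simp
  simp_rw [h1]
  exact (wE.tsum_eq f).symm

theorem AN_iff (f : CG → ℂ) (r : ℝ) : AN f r ↔ ∃ φ : PontryaginDual CG → ℂ,
    Integrable φ Measure.count ∧ ∫ χ, ‖φ χ‖ ∂Measure.count ≤ r ∧
      ∀ x, f x = ∫ χ, φ χ * ((χ x : Circle) : ℂ) ∂Measure.count := by
  constructor
  · rintro ⟨a, h1, h2, h3⟩
    let φ : PontryaginDual CG → ℂ := fun χ => a (wE.symm χ)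
    have hφw : ∀ T, φ (wch T) = a T := by
      intro T
      simp only [φ]
      congr 1
      exact wE.symm_apply_apply T
    have hφ : Integrable φ Measure.count := by
      rw [integrable_count_iff]
      exact (wE.symm.summable_iff (f := fun T => ‖a T‖)).2 h1
    refine ⟨φ, hφ, ?_, ?_⟩
    · rw [integral_count_eq _ hφ.norm]
      simp_rw [hφw]
      exact h2
    · intro x
      rw [integral_count_eq]
      · simp_rw [hφw, wch_coe]
        exact h3 x
      · rw [integrable_count_iff]
        rw [integrable_count_iff] at hφ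
        refine hφ.congr (fun χ => ?_)
        rw [norm_mul, Circle.norm_coe, mul_one]
  · rintro ⟨φ, h1, h2, h3⟩
    refine ⟨fun T => φ (wch T), ?_, ?_, ?_⟩
    · rw [integrable_count_iff] at h1
      exact (wE.summable_iff (f := fun χ => ‖φ χ‖)).2 h1
    · rw [integral_count_eq _ h1.norm] at h2
      exact h2
    · intro x
      rw [h3, integral_count_eq]
      · simp_rw [wch_coe]
      · rw [integrable_count_iff]
        rw [integrable_count_iff] at h1
        refine h1.congr (fun χ => ?_)
        rw [norm_mul, Circle.norm_coe, mul_one]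

end meas

theorem not_discrete : ¬ DiscreteTopology CG := by
  intro h
  have h1 : Finite CG := finite_of_compact_of_discrete
  haveI : Nontrivial ℤˣ := ⟨⟨1, -1, by decide⟩⟩
  haveI : Infinite CG := Pi.infinite_of_left
  exact not_finite CG

end Pool.Agent.H481R3.HS
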