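import Mathlib

set_option autoImplicit false

namespace Pool.Agent.H481R3.OM

theorem pairE (α β c : ℂ) (K : ℝ) (hK : 1 ≤ K) (hβ : ‖β‖ ≤ ‖α‖)
    (x1 x2 y1 y2 p q : ℂ) (hx1 : ‖x1‖ ≤ 2) (hx2 : ‖x2‖ ≤ 2) (hy1 : ‖y1‖ ≤ 2) (hy2 : ‖y2‖ ≤ 2)
    (hp : ‖p‖ ≤ 1) (hq : ‖q‖ ≤ 1)
    (e : α * q + β * p + x1 * y2 + x2 * y1 + (x1 * q + p * y1) / K + (x2 * q + p * y2) / K
      + p * q / (K * K) = c) :
    ‖x1 * y2 + x2 * y1 - c‖ ≤ 2 * ‖α‖ + 9 / K := by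
  have hK0 : 0 < K := by linarith
  have h1 : x1 * y2 + x2 * y1 - c = -(α * q + β * p + (x1 * q + p * y1) / K
      + (x2 * q + p * y2) / K + p * q / (K * K)) := by
    rw [← e]; ring
  have hKn : ‖(K : ℂ)‖ = K := by rw [Complex.norm_real, Real.norm_of_nonneg hK0.le]
  have a1 : ‖α * q‖ ≤ ‖α‖ := by
    rw [norm_mul]; exact mul_le_of_le_one_right (norm_nonneg _) hq
  have a2 : ‖β * p‖ ≤ ‖α‖ := by
    rw [norm_mul]; exact (mul_le_of_le_one_right (norm_nonneg _) hp).trans hβ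
  have a3 : ‖(x1 * q + p * y1) / (K : ℂ)‖ ≤ 4 / K := by
    rw [norm_div, hKn]
    apply div_le_div_of_nonneg_right _ hK0.le
    calc ‖x1 * q + p * y1‖ ≤ ‖x1‖ * ‖q‖ + ‖p‖ * ‖y1‖ := by
          refine (norm_add_le _ _).trans ?_; rw [norm_mul, norm_mul]
      _ ≤ 2 * 1 + 1 * 2 := by gcongr
      _ = 4 := by norm_num
  have a4 : ‖(x2 * q + p * y2) / (K : ℂ)‖ ≤ 4 / K := by
    rw [norm_div, hKn]
    apply div_le_div_of_nonneg_right _ hK0.le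
    calc ‖x2 * q + p * y2‖ ≤ ‖x2‖ * ‖q‖ + ‖p‖ * ‖y2‖ := by
          refine (norm_add_le _ _).trans ?_; rw [norm_mul, norm_mul]
      _ ≤ 2 * 1 + 1 * 2 := by gcongr
      _ = 4 := by norm_num
  have a5 : ‖p * q / ((K : ℂ) * K)‖ ≤ 1 / K := by
    rw [norm_div, norm_mul, norm_mul, hKn]
    rw [div_le_div_iff₀ (by positivity) hK0]
    have : ‖p‖ * ‖q‖ ≤ 1 := by
      calc ‖p‖ * ‖q‖ ≤ 1 * 1 := by gcongr
        _ = 1 := by norm_num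
    nlinarith
  rw [h1, norm_neg]
  calc ‖α * q + β * p + (x1 * q + p * y1) / (K : ℂ) + (x2 * q + p * y2) / (K : ℂ)
        + p * q / ((K : ℂ) * K)‖
      ≤ ‖α‖ + ‖α‖ + 4 / K + 4 / K + 1 / K := by
        refine (norm_add_le _ _).trans (add_le_add ?_ a5)
        refine (norm_add_le _ _).trans (add_le_add ?_ a4)
        refine (norm_add_le _ _).trans (add_le_add ?_ a3)
        exact (norm_add_le _ _).trans (add_le_add a1 a2)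
    _ = 2 * ‖α‖ + 9 / K := by ring

theorem pairU (α β : ℂ) (K : ℝ) (x1 x2 y1 y2 : ℂ)
    (e1 : α * y1 + β * x1 + x1 * y1 / K = 0) (e2 : α * y2 + β * x2 + x2 * y2 / K = 0) :
    ‖x1 * y2 + x2 * y1‖ * ‖α + x1 / K‖ * ‖α + x2 / K‖ =
      ‖β‖ * (‖x1‖ * ‖x2‖) * ‖(α + x1 / K) + (α + x2 / K)‖ := by
  rw [← norm_mul, ← norm_mul, ← norm_mul, ← norm_mul, ← norm_mul]
  have h : (x1 * y2 + x2 * y1) * (α + x1 / K) * (α + x2 / K) =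
      -(β * (x1 * x2) * ((α + x1 / K) + (α + x2 / K))) := by
    have f1 : y1 * (α + x1 / K) = -(β * x1) := by
      linear_combination e1
    have f2 : y2 * (α + x2 / K) = -(β * x2) := by
      linear_combination e2
    calc (x1 * y2 + x2 * y1) * (α + x1 / K) * (α + x2 / K)
        = x1 * (α + x1 / K) * (y2 * (α + x2 / K)) + x2 * (α + x2 / K) * (y1 * (α + x1 / K)) := by ring
      _ = -(β * (x1 * x2) * ((α + x1 / K) + (α + x2 / K))) := by rw [f1, f2]; ring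
  rw [h, norm_neg]

theorem uBounds (α : ℂ) (K : ℝ) (hK : 1 ≤ K) (hKα : 4 ≤ K * ‖α‖) (x : ℂ) (hx : ‖x‖ ≤ 2) :
    ‖α‖ / 2 ≤ ‖α + x / K‖ ∧ ‖α + x / K‖ ≤ 3 / 2 * ‖α‖ := by
  have hK0 : 0 < K := by linarith
  have hKn : ‖(K : ℂ)‖ = K := by rw [Complex.norm_real, Real.norm_of_nonneg hK0.le]
  have h1 : ‖x / (K : ℂ)‖ ≤ ‖α‖ / 2 := by
    rw [norm_div, hKn, div_le_iff₀ hK0]
    nlinarith
  constructor
  · have h2 : ‖α‖ ≤ ‖α + x / K‖ + ‖x / (K : ℂ)‖ := by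
      calc ‖α‖ = ‖(α + x / K) - x / K‖ := by rw [add_sub_cancel_right]
        _ ≤ _ := norm_sub_le _ _
    linarith
  · have := norm_add_le α (x / (K : ℂ))
    linarith

theorem core (α β : ℂ) (K τ : ℝ) (hK : 1 ≤ K) (hτ0 : 0 < τ) (hτ1 : τ ≤ 1) (hβ0 : β ≠ 0)
    (hβ : ‖β‖ ≤ ‖α‖) (hKα : 4 ≤ K * ‖α‖)
    (x1 x2 x3 y1 y2 y3 p12 p13 p23 q12 q13 q23 : ℂ)
    (hx1 : ‖x1‖ ≤ 2) (hx2 : ‖x2‖ ≤ 2) (hx3 : ‖x3‖ ≤ 2)
    (hy1 : ‖y1‖ ≤ 2) (hy2 : ‖y2‖ ≤ 2) (hy3 : ‖y3‖ ≤ 2)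
    (hp12 : ‖p12‖ ≤ 1) (hp13 : ‖p13‖ ≤ 1) (hp23 : ‖p23‖ ≤ 1)
    (hq12 : ‖q12‖ ≤ 1) (hq13 : ‖q13‖ ≤ 1) (hq23 : ‖q23‖ ≤ 1)
    (e1 : α * y1 + β * x1 + x1 * y1 / K = 0) (e2 : α * y2 + β * x2 + x2 * y2 / K = 0)
    (e3 : α * y3 + β * x3 + x3 * y3 / K = 0)
    (e12 : α * q12 + β * p12 + x1 * y2 + x2 * y1 + (x1 * q12 + p12 * y1) / K
      + (x2 * q12 + p12 * y2) / K + p12 * q12 / (K * K) = 0)
    (e13 : α * q13 + β * p13 + x1 * y3 + x3 * y1 + (x1 * q13 + p13 * y1) / K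
      + (x3 * q13 + p13 * y3) / K + p13 * q13 / (K * K) = ((τ ^ 2 : ℝ) : ℂ))
    (e23 : α * q23 + β * p23 + x2 * y3 + x3 * y2 + (x2 * q23 + p23 * y2) / K
      + (x3 * q23 + p23 * y3) / K + p23 * q23 / (K * K) = ((τ ^ 2 : ℝ) : ℂ))
    (hsmall : 2 * ‖α‖ + 9 / K < τ ^ 4 / 5184) : False := by
  have hα0 : 0 < ‖α‖ := lt_of_lt_of_le (norm_pos_iff.2 hβ0) hβ
  have hK0 : 0 < K := by linarith
  set err : ℝ := 2 * ‖α‖ + 9 / K with herr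
  have herr0 : 0 < err := by positivity
  have hKn : ‖(K : ℂ)‖ = K := by rw [Complex.norm_real, Real.norm_of_nonneg hK0.le]
  have hτ2 : τ ^ 4 ≤ τ ^ 2 := by
    have : τ ^ 2 ≤ 1 := pow_le_one₀ hτ0.le hτ1
    nlinarith [sq_nonneg τ, pow_pos hτ0 2]
  have hτ20 : 0 < τ ^ 2 := by positivity
  have E12 := pairE α β 0 K hK hβ x1 x2 y1 y2 p12 q12 hx1 hx2 hy1 hy2 hp12 hq12 e12
  have E13 := pairE α β _ K hK hβ x1 x3 y1 y3 p13 q13 hx1 hx3 hy1 hy3 hp13 hq13 e13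
  have E23 := pairE α β _ K hK hβ x2 x3 y2 y3 p23 q23 hx2 hx3 hy2 hy3 hp23 hq23 e23
  rw [sub_zero] at E12
  have low : ∀ z : ℂ, ‖z - ((τ ^ 2 : ℝ) : ℂ)‖ ≤ err → τ ^ 2 / 2 ≤ ‖z‖ := by
    intro z hz
    have h1 : ‖((τ ^ 2 : ℝ) : ℂ)‖ = τ ^ 2 := by
      rw [Complex.norm_real, Real.norm_of_nonneg hτ20.le]
    have h2 : ‖((τ ^ 2 : ℝ) : ℂ)‖ ≤ ‖z‖ + ‖z - ((τ ^ 2 : ℝ) : ℂ)‖ := by
      calc ‖((τ ^ 2 : ℝ) : ℂ)‖ = ‖z - (z - ((τ ^ 2 : ℝ) : ℂ))‖ := by rw [sub_sub_cancel]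
        _ ≤ _ := norm_sub_le _ _
    rw [h1] at h2
    nlinarith
  have L13 := low _ E13
  have L23 := low _ E23
  have U12 := pairU α β K x1 x2 y1 y2 e1 e2
  have U13 := pairU α β K x1 x3 y1 y3 e1 e3
  have U23 := pairU α β K x2 x3 y2 y3 e2 e3
  obtain ⟨l1, u1⟩ := uBounds α K hK hKα x1 hx1
  obtain ⟨l2, u2⟩ := uBounds α K hK hKα x2 hx2
  obtain ⟨l3, u3⟩ := uBounds α K hK hKα x3 hx3
  set A := ‖α‖ with hA
  set B := ‖β‖ with hB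
  set V1 := ‖α + x1 / K‖ with hV1
  set V2 := ‖α + x2 / K‖ with hV2
  set V3 := ‖α + x3 / K‖ with hV3
  -- lower bound for the sum
  have s12 : A ≤ ‖(α + x1 / K) + (α + x2 / K)‖ := by
    have h1 : ‖(x1 + x2) / (K : ℂ)‖ ≤ A := by
      rw [norm_div, hKn, div_le_iff₀ hK0]
      have := norm_add_le x1 x2
      nlinarith
    have h2 : ‖2 * α‖ ≤ ‖(α + x1 / K) + (α + x2 / K)‖ + ‖(x1 + x2) / (K : ℂ)‖ := by
      have h3 : 2 * α = ((α + x1 / K) + (α + x2 / K)) - (x1 + x2) / (K : ℂ) := by ring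
      rw [h3]
      exact norm_sub_le _ _
    have h4 : ‖2 * α‖ = 2 * A := by rw [norm_mul]; norm_num [hA]
    rw [h4] at h2
    linarith
  have s13 : ‖(α + x1 / K) + (α + x3 / K)‖ ≤ 3 * A := by
    have := norm_add_le (α + x1 / (K : ℂ)) (α + x3 / K)
    linarith
  have s23 : ‖(α + x2 / K) + (α + x3 / K)‖ ≤ 3 * A := by
    have := norm_add_le (α + x2 / (K : ℂ)) (α + x3 / K)
    linarith
  set X1 := ‖x1‖
  set X2 := ‖x2‖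
  set X3 := ‖x3‖
  have hX1 : 0 ≤ X1 := norm_nonneg _
  have hX2 : 0 ≤ X2 := norm_nonneg _
  have hX3 : 0 ≤ X3 := norm_nonneg _
  have hB0 : 0 < B := norm_pos_iff.2 hβ0
  -- (A)
  have HA : B * (X1 * X2) ≤ 9 / 4 * err * A := by
    have h1 : B * (X1 * X2) * A ≤ err * (3 / 2 * A) * (3 / 2 * A) := by
      calc B * (X1 * X2) * A ≤ B * (X1 * X2) * ‖(α + x1 / K) + (α + x2 / K)‖ := by
            gcongr
        _ = ‖x1 * y2 + x2 * y1‖ * V1 * V2 := U12.symm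
        _ ≤ err * (3 / 2 * A) * (3 / 2 * A) := by gcongr
    have h2 : B * (X1 * X2) * A ≤ (9 / 4 * err * A) * A := by
      calc B * (X1 * X2) * A ≤ err * (3 / 2 * A) * (3 / 2 * A) := h1
        _ = (9 / 4 * err * A) * A := by ring
    exact le_of_mul_le_mul_right h2 hα0
  have HB : τ ^ 2 / 24 * A ≤ B * (X1 * X3) := by
    have h1 : τ ^ 2 / 2 * (A / 2) * (A / 2) ≤ B * (X1 * X3) * (3 * A) := by
      calc τ ^ 2 / 2 * (A / 2) * (A / 2) ≤ ‖x1 * y3 + x3 * y1‖ * V1 * V3 := by gcongr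
        _ = B * (X1 * X3) * ‖(α + x1 / K) + (α + x3 / K)‖ := U13
        _ ≤ B * (X1 * X3) * (3 * A) := by gcongr
    have h2 : (τ ^ 2 / 24 * A) * (3 * A) ≤ B * (X1 * X3) * (3 * A) := by
      calc (τ ^ 2 / 24 * A) * (3 * A) = τ ^ 2 / 2 * (A / 2) * (A / 2) := by ring
        _ ≤ _ := h1
    exact le_of_mul_le_mul_right h2 (by positivity)
  have HC : τ ^ 2 / 24 * A ≤ B * (X2 * X3) := by
    have h1 : τ ^ 2 / 2 * (A / 2) * (A / 2) ≤ B * (X2 * X3) * (3 * A) := by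
      calc τ ^ 2 / 2 * (A / 2) * (A / 2) ≤ ‖x2 * y3 + x3 * y2‖ * V2 * V3 := by gcongr
        _ = B * (X2 * X3) * ‖(α + x2 / K) + (α + x3 / K)‖ := U23
        _ ≤ B * (X2 * X3) * (3 * A) := by gcongr
    have h2 : (τ ^ 2 / 24 * A) * (3 * A) ≤ B * (X2 * X3) * (3 * A) := by
      calc (τ ^ 2 / 24 * A) * (3 * A) = τ ^ 2 / 2 * (A / 2) * (A / 2) := by ring
        _ ≤ _ := h1
    exact le_of_mul_le_mul_right h2 (by positivity)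
  have H1 : (τ ^ 2 / 24 * A) * (τ ^ 2 / 24 * A) ≤ (9 / 4 * err * A) * (A * 4) := by
    calc (τ ^ 2 / 24 * A) * (τ ^ 2 / 24 * A) ≤ (B * (X1 * X3)) * (B * (X2 * X3)) := by gcongr
      _ = (B * (X1 * X2)) * (B * (X3 * X3)) := by ring
      _ ≤ (9 / 4 * err * A) * (A * (2 * 2)) := by gcongr
      _ = (9 / 4 * err * A) * (A * 4) := by ring
  have H2 : (τ ^ 4 / 576) * (A * A) ≤ (9 * err) * (A * A) := by
    calc (τ ^ 4 / 576) * (A * A) = (τ ^ 2 / 24 * A) * (τ ^ 2 / 24 * A) := by ring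
      _ ≤ (9 / 4 * err * A) * (A * 4) := H1
      _ = (9 * err) * (A * A) := by ring
  have H3 : τ ^ 4 / 576 ≤ 9 * err := le_of_mul_le_mul_right H2 (by positivity)
  linarith

end Pool.Agent.H481R3.OM
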