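import Mathlib
import Pool.Agent.Helper550.Semi
import Pool.Agent.H481R3.OMCore

set_option autoImplicit false

namespace Pool.Agent.H481R3.OM

open Pool.Agent.Helper550.Semi

/-- finite sets of generators; addition is union -/
def FS : Type := Finset (ℕ × Fin 3)

/-- union as an operation -/
def unionFS (s t : Finset (ℕ × Fin 3)) : Finset (ℕ × Fin 3) := s ∪ t

instance instAddFS : Add FS := ⟨unionFS⟩

instance instZeroFS : Zero FS := ⟨(∅ : Finset (ℕ × Fin 3))⟩

theorem add_assoc_FS (s t u : FS) : s + t + u = s + (t + u) :=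
  Finset.union_assoc (α := ℕ × Fin 3) s t u

theorem zero_add_FS (s : FS) : 0 + s = s := Finset.empty_union (α := ℕ × Fin 3) s

theorem add_zero_FS (s : FS) : s + 0 = s := Finset.union_empty (α := ℕ × Fin 3) s

theorem add_comm_FS (s t : FS) : s + t = t + s := Finset.union_comm (α := ℕ × Fin 3) s t

instance instFS : AddCommMonoid FS where
  add_assoc := add_assoc_FS
  zero_add := zero_add_FS
  add_zero := add_zero_FS
  add_comm := add_comm_FS
  nsmul := nsmulRec

/-- a finite set of generators as an element of `FS` -/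
def toFS (s : Finset (ℕ × Fin 3)) : FS := s

theorem toFS_add (s t : Finset (ℕ × Fin 3)) : toFS s + toFS t = toFS (s ∪ t) := rfl

theorem toFS_zero : (0 : FS) = toFS ∅ := rfl

/-- norms of the generators -/
noncomputable def kk (k : ℕ) : ℝ := 2 ^ (4 * k + 28)

theorem kk_pos (k : ℕ) : 0 < kk k := by unfold kk; positivity

theorem one_le_kk (k : ℕ) : 1 ≤ kk k := by
  unfold kk
  exact one_le_pow₀ (by norm_num)

/-- the weight -/
noncomputable def om0 (s : Finset (ℕ × Fin 3)) : ℝ := ∏ p ∈ s, kk p.1

/-- the weight -/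
noncomputable def om (s : FS) : ℝ := om0 s

theorem om_toFS (s : Finset (ℕ × Fin 3)) : om (toFS s) = ∏ p ∈ s, kk p.1 := rfl

theorem om_pos (s : FS) : 0 < om s := Finset.prod_pos (fun p _ => kk_pos p.1)

theorem om0_union (s t : Finset (ℕ × Fin 3)) : om0 (s ∪ t) ≤ om0 s * om0 t := by
  unfold om0
  rw [← Finset.prod_union_inter]
  apply le_mul_of_one_le_right
  · exact (Finset.prod_pos (fun p _ => kk_pos p.1)).le
  · exact Finset.prod_induction _ (fun x : ℝ => 1 ≤ x)
      (fun a b ha hb => by nlinarith) le_rfl (fun p _ => one_le_kk p.1)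

theorem isW : IsWeight om where
  pos := om_pos
  add_le := fun s t => om0_union s t
  zero := by
    change om0 ∅ = 1
    unfold om0
    simp

/-- the character of the finite set `T` -/
noncomputable def chi (T : Finset (ℕ × Fin 3)) : L FS →L[ℂ] ℂ :=
  ∑ S ∈ T.powerset, ((om (toFS S) : ℂ))⁻¹ • (coL (toFS S) : L FS →L[ℂ] ℂ)

theorem chi_apply (T : Finset (ℕ × Fin 3)) (x : L FS) :
    chi T x = ∑ S ∈ T.powerset, ((om (toFS S) : ℂ))⁻¹ * co (toFS S) x := by
  unfold chi
  rw [sum_apply]
  apply Finset.sum_congr rfl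
  intro S _
  rw [smul_apply, coL_apply, smul_eq_mul]

theorem chi_sg (T S : Finset (ℕ × Fin 3)) :
    chi T (sg (toFS S)) = if S ⊆ T then ((om (toFS S) : ℂ))⁻¹ else 0 := by
  classical
  rw [chi_apply]
  split_ifs with h
  · rw [Finset.sum_eq_single S]
    · rw [co_sg_self, mul_one]
    · intro U _ hU
      rw [co_sg_ne (show toFS U ≠ toFS S from hU), mul_zero]
    · intro h'
      exact absurd (Finset.mem_powerset.2 h) h'
  · apply Finset.sum_eq_zero
    intro U hU
    have : U ≠ S := by
      rintro rfl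
      exact h (Finset.mem_powerset.1 hU)
    rw [co_sg_ne (show toFS U ≠ toFS S from this), mul_zero]

theorem chi_mul (T : Finset (ℕ × Fin 3)) (x y : L FS) :
    chi T (cv isW x y) = chi T x * chi T y := by
  classical
  have h0 : ∀ s t : Finset (ℕ × Fin 3), chi T (cv isW (sg (toFS s)) (sg (toFS t))) =
      chi T (sg (toFS s)) * chi T (sg (toFS t)) := by
    intro s t
    rw [cv_sg, map_smul, toFS_add, chi_sg, chi_sg, chi_sg, smul_eq_mul]
    have h1 := (om_pos (toFS s)).ne'
    have h2 := (om_pos (toFS t)).ne'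
    have h3 := (om_pos (toFS (s ∪ t))).ne'
    by_cases hst : s ∪ t ⊆ T
    · have hs := Finset.union_subset_iff.1 hst
      rw [if_pos hst, if_pos hs.1, if_pos hs.2]
      unfold sc
      rw [toFS_add]
      push_cast
      have h1' : (om (toFS s) : ℂ) ≠ 0 := by exact_mod_cast h1
      have h2' : (om (toFS t) : ℂ) ≠ 0 := by exact_mod_cast h2
      have h3' : (om (toFS (s ∪ t)) : ℂ) ≠ 0 := by exact_mod_cast h3
      field_simp
    · rw [if_neg hst, mul_zero]
      by_cases hs : s ⊆ T
      · have ht : ¬ t ⊆ T := fun ht => hst (Finset.union_subset hs ht)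
        rw [if_neg ht, mul_zero]
      · rw [if_neg hs, zero_mul]
  have h1 : ∀ s : FS, ∀ y, chi T (cv isW (sg s) y) = chi T (sg s) * chi T y := by
    intro s y
    have h2 : (chi T).comp (cv isW (sg s)) = (chi T (sg s)) • chi T := by
      apply clm_ext
      intro t
      exact h0 s t
    have := DFunLike.congr_fun h2 y
    exact this
  have h3 : (chi T).comp ((cv isW).flip y) = (chi T y) • chi T := by
    apply clm_ext
    intro s
    change chi T (cv isW (sg s) y) = chi T y * chi T (sg s)
    rw [h1, mul_comm]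
  have := DFunLike.congr_fun h3 x
  change chi T (cv isW x y) = chi T y * chi T x at this
  rw [this, mul_comm]

theorem chi_empty (x : L FS) : chi ∅ x = co (toFS ∅) x := by
  rw [chi_apply, Finset.powerset_empty, Finset.sum_singleton, om_toFS, Finset.prod_empty]
  simp

theorem chi_one (p : ℕ × Fin 3) (x : L FS) :
    chi {p} x = co (toFS ∅) x + co (toFS {p}) x / kk p.1 := by
  classical
  have h : ({p} : Finset (ℕ × Fin 3)) = insert p ∅ := rfl
  rw [chi_apply, h, Finset.sum_powerset_insert (Finset.notMem_empty p), Finset.powerset_empty,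
    Finset.sum_singleton, Finset.sum_singleton, ← h, om_toFS, om_toFS, Finset.prod_empty,
    Finset.prod_singleton]
  simp only [Complex.ofReal_one, inv_one, one_mul]
  rw [div_eq_inv_mul]

theorem chi_two (p q : ℕ × Fin 3) (hpq : p ≠ q) (x : L FS) :
    chi {p, q} x = co (toFS ∅) x + co (toFS {p}) x / kk p.1 + co (toFS {q}) x / kk q.1
      + co (toFS {p, q}) x / (kk p.1 * kk q.1) := by
  classical
  have hp : p ∉ ({q} : Finset (ℕ × Fin 3)) := by simpa using hpq
  rw [chi_apply, Finset.sum_powerset_insert hp]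
  have h := chi_one q x
  rw [chi_apply] at h
  rw [h]
  have h' : ({q} : Finset (ℕ × Fin 3)) = insert q ∅ := rfl
  have h2 : ∑ t ∈ ({q} : Finset (ℕ × Fin 3)).powerset,
      ((om (toFS (insert p t)) : ℂ))⁻¹ * co (toFS (insert p t)) x =
      co (toFS {p}) x / kk p.1 + co (toFS {p, q}) x / (kk p.1 * kk q.1) := by
    rw [h', Finset.sum_powerset_insert (Finset.notMem_empty q), Finset.powerset_empty,
      Finset.sum_singleton, Finset.sum_singleton, ← h', om_toFS, om_toFS]
    have h3 : insert p (∅ : Finset (ℕ × Fin 3)) = {p} := rfl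
    rw [h3, Finset.prod_singleton, Finset.prod_pair hpq]
    push_cast
    rw [div_eq_inv_mul, div_eq_inv_mul]
  rw [h2]
  ring

/-- an element with prescribed singleton coordinates -/
noncomputable def elt (f : L (ℕ × Fin 3)) : L FS :=
  synth (fun p : ℕ × Fin 3 => (sg (toFS {p}) : L FS)) (fun _ => (norm_sg _).le) f

theorem norm_elt_le (f : L (ℕ × Fin 3)) : ‖elt f‖ ≤ ‖f‖ := norm_synth_le _ _ _

theorem co_elt_single (f : L (ℕ × Fin 3)) (p : ℕ × Fin 3) : co (toFS {p}) (elt f) = co p f := by
  unfold elt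
  rw [co_synth, tsum_eq_single p]
  · rw [co_sg_self, mul_one]
  · intro q hq
    have : toFS {p} ≠ toFS {q} := by
      intro h
      have h' : ({p} : Finset (ℕ × Fin 3)) = {q} := h
      exact hq (Finset.singleton_injective h').symm
    rw [co_sg_ne this, mul_zero]

theorem co_elt_other (f : L (ℕ × Fin 3)) (S : Finset (ℕ × Fin 3)) (hS : ∀ p, S ≠ {p}) :
    co (toFS S) (elt f) = 0 := by
  unfold elt
  rw [co_synth]
  convert tsum_zero with q
  have : toFS S ≠ toFS {q} := fun h => hS q h
  rw [co_sg_ne this, mul_zero]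

end Pool.Agent.H481R3.OM
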