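import Mathlib
import Pool.Agent.Helper550.Semi
import Pool.Agent.H481R3.OMCore
import Pool.Agent.H481R3.OMAlg

set_option autoImplicit false

namespace Pool.Agent.H481R3.OM

open Pool.Agent.Helper550.Semi

/-- the coefficients -/
noncomputable def tau (k : ℕ) : ℝ := (1 / 2) ^ (k + 2)

theorem tau_pos (k : ℕ) : 0 < tau k := by unfold tau; positivity

theorem tau_le (k : ℕ) : tau k ≤ 1 := by
  unfold tau
  exact pow_le_one₀ (by norm_num) (by norm_num)

theorem summable_tau : Summable tau := by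
  unfold tau
  have := (summable_geometric_of_lt_one (r := (1 / 2 : ℝ)) (by norm_num) (by norm_num)).mul_right
    ((1 / 2 : ℝ) ^ 2)
  refine this.congr (fun k => ?_)
  rw [pow_add]

theorem tsum_tau : ∑' k, tau k = 1 / 2 := by
  have h := (hasSum_geometric_of_lt_one (r := (1 / 2 : ℝ)) (by norm_num) (by norm_num)).mul_right
    ((1 / 2 : ℝ) ^ 2)
  have h2 : (fun k : ℕ => (1 / 2 : ℝ) ^ k * (1 / 2) ^ 2) = tau := by
    funext k
    unfold tau
    rw [pow_add]
  rw [h2] at h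
  rw [h.tsum_eq]
  norm_num

/-- coefficient functions -/
noncomputable def fA (p : ℕ × Fin 3) : ℂ := if p.2 = 2 then 0 else ((tau p.1 : ℝ) : ℂ)

/-- coefficient functions -/
noncomputable def fB (p : ℕ × Fin 3) : ℂ := if p.2 = 2 then ((tau p.1 : ℝ) : ℂ) else 0

theorem fA0 (k : ℕ) : fA (k, 0) = ((tau k : ℝ) : ℂ) := if_neg (show ¬ ((0 : Fin 3) = 2) by decide)
theorem fA1 (k : ℕ) : fA (k, 1) = ((tau k : ℝ) : ℂ) := if_neg (show ¬ ((1 : Fin 3) = 2) by decide)
theorem fA2 (k : ℕ) : fA (k, 2) = 0 := if_pos rfl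
theorem fB0 (k : ℕ) : fB (k, 0) = 0 := if_neg (show ¬ ((0 : Fin 3) = 2) by decide)
theorem fB1 (k : ℕ) : fB (k, 1) = 0 := if_neg (show ¬ ((1 : Fin 3) = 2) by decide)
theorem fB2 (k : ℕ) : fB (k, 2) = ((tau k : ℝ) : ℂ) := if_pos rfl

theorem norm_tau (k : ℕ) : ‖((tau k : ℝ) : ℂ)‖ = tau k := by
  rw [Complex.norm_real, Real.norm_of_nonneg (tau_pos k).le]

theorem hasSum_fA : HasSum (fun p => ‖fA p‖) 1 := by
  have h1 : ∀ k, HasSum (fun j : Fin 3 => ‖fA (k, j)‖) (2 * tau k) := by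
    intro k
    have h := hasSum_fintype (fun j : Fin 3 => ‖fA (k, j)‖)
    have h2 : ∑ j : Fin 3, ‖fA (k, j)‖ = 2 * tau k := by
      rw [Fin.sum_univ_three, fA0, fA1, fA2, norm_zero, norm_tau]
      ring
    rw [h2] at h
    exact h
  have h3 : Summable (fun p : ℕ × Fin 3 => ‖fA p‖) := by
    rw [summable_prod_of_nonneg (fun _ => norm_nonneg _)]
    refine ⟨fun k => (h1 k).summable, ?_⟩
    have : (fun k => ∑' j : Fin 3, ‖fA (k, j)‖) = fun k => 2 * tau k := by
      funext k; exact (h1 k).tsum_eq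
    rw [this]
    exact summable_tau.mul_left 2
  have h4 : ∑' p : ℕ × Fin 3, ‖fA p‖ = 1 := by
    rw [h3.tsum_prod' (fun k => (h1 k).summable)]
    have : (fun k => ∑' j : Fin 3, ‖fA (k, j)‖) = fun k => 2 * tau k := by
      funext k; exact (h1 k).tsum_eq
    rw [this, tsum_mul_left, tsum_tau]
    norm_num
  rw [← h4]
  exact h3.hasSum

theorem hasSum_fB : HasSum (fun p => ‖fB p‖) (1 / 2) := by
  have h1 : ∀ k, HasSum (fun j : Fin 3 => ‖fB (k, j)‖) (tau k) := by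
    intro k
    have h := hasSum_fintype (fun j : Fin 3 => ‖fB (k, j)‖)
    have h2 : ∑ j : Fin 3, ‖fB (k, j)‖ = tau k := by
      rw [Fin.sum_univ_three, fB0, fB1, fB2, norm_zero, norm_tau]
      ring
    rw [h2] at h
    exact h
  have h5 : (fun k => ∑' j : Fin 3, ‖fB (k, j)‖) = tau := by
    funext k; exact (h1 k).tsum_eq
  have h3 : Summable (fun p : ℕ × Fin 3 => ‖fB p‖) := by
    rw [summable_prod_of_nonneg (fun _ => norm_nonneg _)]
    refine ⟨fun k => (h1 k).summable, ?_⟩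
    rw [h5]
    exact summable_tau
  have h4 : ∑' p : ℕ × Fin 3, ‖fB p‖ = 1 / 2 := by
    rw [h3.tsum_prod' (fun k => (h1 k).summable), h5, tsum_tau]
  rw [← h4]
  exact h3.hasSum

/-- the element `a` -/
noncomputable def ea : L FS := elt (mk fA hasSum_fA.summable)

/-- the element `b` -/
noncomputable def eb : L FS := elt (mk fB hasSum_fB.summable)

theorem norm_ea : ‖ea‖ ≤ 1 := by
  refine (norm_elt_le _).trans ?_
  rw [norm_eq_tsum]
  exact hasSum_fA.tsum_eq.le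

theorem norm_eb : ‖eb‖ ≤ 1 := by
  refine (norm_elt_le _).trans ?_
  rw [norm_eq_tsum]
  have := hasSum_fB.tsum_eq
  change ∑' k, ‖fB k‖ ≤ 1
  rw [this]
  norm_num

theorem co_ea (p : ℕ × Fin 3) : co (toFS {p}) ea = fA p := co_elt_single _ p

theorem co_eb (p : ℕ × Fin 3) : co (toFS {p}) eb = fB p := co_elt_single _ p

theorem ne_single_empty : ∀ p : ℕ × Fin 3, (∅ : Finset (ℕ × Fin 3)) ≠ {p} :=
  fun p h => Finset.singleton_ne_empty p h.symm

theorem ne_single_pair (p q : ℕ × Fin 3) (h : p ≠ q) : ∀ r : ℕ × Fin 3, ({p, q} : Finset _) ≠ {r} := by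
  intro r hr
  have h1 : ({p, q} : Finset (ℕ × Fin 3)).card = 2 := Finset.card_pair h
  rw [hr, Finset.card_singleton] at h1
  omega

/-- equations for a factorisation -/
theorem eqs (x y : L FS) (κ : ℂ) (h : cv isW x y = cv isW ea eb + κ • sg (toFS ∅)) (k : ℕ) :
    co (toFS ∅) x * co (toFS ∅) y = κ ∧
    (∀ i : Fin 3, co (toFS ∅) x * co (toFS {(k, i)}) y + co (toFS ∅) y * co (toFS {(k, i)}) x
      + co (toFS {(k, i)}) x * co (toFS {(k, i)}) y / kk k = 0) ∧
    (∀ i j : Fin 3, i ≠ j → co (toFS ∅) x * co (toFS {(k, i), (k, j)}) y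
      + co (toFS ∅) y * co (toFS {(k, i), (k, j)}) x
      + co (toFS {(k, i)}) x * co (toFS {(k, j)}) y + co (toFS {(k, j)}) x * co (toFS {(k, i)}) y
      + (co (toFS {(k, i)}) x * co (toFS {(k, i), (k, j)}) y
        + co (toFS {(k, i), (k, j)}) x * co (toFS {(k, i)}) y) / kk k
      + (co (toFS {(k, j)}) x * co (toFS {(k, i), (k, j)}) y
        + co (toFS {(k, i), (k, j)}) x * co (toFS {(k, j)}) y) / kk k
      + co (toFS {(k, i), (k, j)}) x * co (toFS {(k, i), (k, j)}) y / (kk k * kk k)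
      = fA (k, i) * fB (k, j) + fA (k, j) * fB (k, i)) := by
  have hK : ((kk k : ℝ) : ℂ) ≠ 0 := by exact_mod_cast (kk_pos k).ne'
  have hc : ∀ T, chi T x * chi T y = chi T ea * chi T eb + κ := by
    intro T
    rw [← chi_mul, h, map_add, chi_mul, map_smul, chi_sg, if_pos (Finset.empty_subset T), om_toFS,
      Finset.prod_empty]
    simp
  have hAB : ∀ i : Fin 3, fA (k, i) * fB (k, i) = 0 := by
    intro i
    unfold fA fB
    split_ifs <;> simp
  have E0 : co (toFS ∅) x * co (toFS ∅) y = κ := by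
    have := hc ∅
    rw [chi_empty, chi_empty, chi_empty, chi_empty, show co (toFS ∅) ea = 0 from
      co_elt_other _ _ ne_single_empty, zero_mul, zero_add] at this
    exact this
  have za : co (toFS ∅) ea = 0 := co_elt_other _ _ ne_single_empty
  have zb : co (toFS ∅) eb = 0 := co_elt_other _ _ ne_single_empty
  have E1 : ∀ i : Fin 3, (co (toFS ∅) x + co (toFS {(k, i)}) x / kk k) *
      (co (toFS ∅) y + co (toFS {(k, i)}) y / kk k) = κ := by
    intro i
    have := hc {(k, i)}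
    rw [chi_one, chi_one, chi_one, chi_one, za, zb, co_ea, co_eb] at this
    rw [this, zero_add, zero_add]
    have h2 : fA (k, i) / (kk k : ℂ) * (fB (k, i) / (kk k : ℂ)) = 0 := by
      rw [div_mul_div_comm, hAB, zero_div]
    rw [h2, zero_add]
  refine ⟨E0, ?_, ?_⟩
  · intro i
    have h1 := E1 i
    set α := co (toFS ∅) x
    set β := co (toFS ∅) y
    set u := co (toFS {(k, i)}) x
    set v := co (toFS {(k, i)}) y
    have h2 : α * v + β * u + u * v / kk k =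
        (kk k : ℂ) * ((α + u / kk k) * (β + v / kk k) - α * β) := by
      field_simp
      ring
    rw [h2, h1, E0, sub_self, mul_zero]
  · intro i j hij
    have hpq : ((k, i) : ℕ × Fin 3) ≠ (k, j) := fun h => hij (Prod.ext_iff.1 h).2
    have h12 := hc {(k, i), (k, j)}
    rw [chi_two _ _ hpq, chi_two _ _ hpq, chi_two _ _ hpq, chi_two _ _ hpq, za, zb, co_ea, co_eb,
      co_ea, co_eb, show co (toFS {(k, i), (k, j)}) ea = 0 from
        co_elt_other _ _ (ne_single_pair _ _ hpq),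
      show co (toFS {(k, i), (k, j)}) eb = 0 from
        co_elt_other _ _ (ne_single_pair _ _ hpq)] at h12
    have h1 := E1 i
    have h2 := E1 j
    set α := co (toFS ∅) x
    set β := co (toFS ∅) y
    set x1 := co (toFS {(k, i)}) x
    set y1 := co (toFS {(k, i)}) y
    set x2 := co (toFS {(k, j)}) x
    set y2 := co (toFS {(k, j)}) y
    set p := co (toFS {(k, i), (k, j)}) x
    set q := co (toFS {(k, i), (k, j)}) y
    simp only at h12
    have h3 : α * q + β * p + x1 * y2 + x2 * y1 + (x1 * q + p * y1) / kk k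
        + (x2 * q + p * y2) / kk k + p * q / (kk k * kk k) =
        (kk k : ℂ) ^ 2 * ((α + x1 / kk k + x2 / kk k + p / (kk k * kk k)) *
          (β + y1 / kk k + y2 / kk k + q / (kk k * kk k))
          - (α + x1 / kk k) * (β + y1 / kk k) - (α + x2 / kk k) * (β + y2 / kk k) + α * β) := by
      field_simp
      ring
    rw [h3, h12, h1, h2, E0]
    have h4 := hAB i
    have h5 := hAB j
    have h6 : (kk k : ℂ) ^ 2 * ((0 + fA (k, i) / kk k + fA (k, j) / kk k + 0 / (kk k * kk k)) *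
        (0 + fB (k, i) / kk k + fB (k, j) / kk k + 0 / (kk k * kk k)) + κ - κ - κ + κ) =
        fA (k, i) * fB (k, i) + fA (k, j) * fB (k, j) + (fA (k, i) * fB (k, j)
          + fA (k, j) * fB (k, i)) := by
      field_simp
      ring
    rw [h6, h4, h5]
    ring

theorem stage (A : ℝ) (hA0 : 0 < A) (hA : A ≤ (1 / 2) ^ 23) :
    ∃ k, 4 ≤ kk k * A ∧ 2 * A + 9 / kk k < tau k ^ 4 / 5184 := by
  classical
  have hex : ∃ k, 4 ≤ kk k * A := by
    obtain ⟨n, hn⟩ := pow_unbounded_of_one_lt (4 / A) (show (1 : ℝ) < 2 by norm_num)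
    refine ⟨n, ?_⟩
    have h1 : (2 : ℝ) ^ n ≤ kk n := by
      unfold kk
      exact pow_le_pow_right₀ (by norm_num) (by omega)
    rw [div_lt_iff₀ hA0] at hn
    nlinarith
  obtain ⟨k, hk, hmin⟩ : ∃ k, 4 ≤ kk k * A ∧ ∀ j < k, ¬ 4 ≤ kk j * A :=
    ⟨Nat.find hex, Nat.find_spec hex, fun j hj => Nat.find_min hex hj⟩
  refine ⟨k, hk, ?_⟩
  rcases k with _ | k
  · unfold kk tau
    norm_num at hA ⊢
    linarith
  · have h1 := hmin k (Nat.lt_succ_self k)
    rw [not_le] at h1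
    have hP : (0 : ℝ) < (1 / 2) ^ (4 * k) := by positivity
    have e1 : kk k = 2 ^ 28 / (1 / 2) ^ (4 * k) := by
      unfold kk
      rw [pow_add, one_div, inv_pow, div_inv_eq_mul, mul_comm]
    have e2 : kk (k + 1) = 2 ^ 32 / (1 / 2) ^ (4 * k) := by
      unfold kk
      rw [show 4 * (k + 1) + 28 = 4 * k + 32 by ring, pow_add, one_div, inv_pow, div_inv_eq_mul,
        mul_comm]
    have e3 : tau (k + 1) ^ 4 = (1 / 2) ^ 12 * (1 / 2) ^ (4 * k) := by
      unfold tau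
      rw [← pow_mul, ← pow_add]
      congr 1
      ring
    rw [e1] at h1
    rw [e2, e3]
    set P : ℝ := (1 / 2) ^ (4 * k) with hPdef
    have h2 : A < 4 * P / 2 ^ 28 := by
      rw [lt_div_iff₀ (by positivity)]
      rw [div_mul_eq_mul_div, div_lt_iff₀ hP] at h1
      linarith
    have h3 : (9 : ℝ) / (2 ^ 32 / P) = 9 * P / 2 ^ 32 := by
      rw [div_div_eq_mul_div]
    rw [h3]
    have h4 : 2 * A < 8 * P / 2 ^ 28 := by
      have : 8 * P / 2 ^ 28 = 2 * (4 * P / 2 ^ 28) := by ring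
      rw [this]
      linarith
    norm_num at h4 ⊢
    linarith

theorem no_fact (x y : L FS) (κ : ℂ) (hκ : κ ≠ 0)
    (h : cv isW x y = cv isW ea eb + κ • sg (toFS ∅))
    (hx : ‖x - ea‖ < (1 / 2) ^ 23) (hy : ‖y - eb‖ < (1 / 2) ^ 23) : False := by
  have hE0 := (eqs x y κ h 0).1
  have ha0 : co (toFS ∅) x ≠ 0 := by
    intro h0; rw [h0, zero_mul] at hE0; exact hκ hE0.symm
  have hb0 : co (toFS ∅) y ≠ 0 := by
    intro h0; rw [h0, mul_zero] at hE0; exact hκ hE0.symm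
  have small : ((1 : ℝ) / 2) ^ 23 ≤ 1 := pow_le_one₀ (by norm_num) (by norm_num)
  have bd : ∀ (z w : L FS) (s : FS), ‖z - w‖ < (1 / 2) ^ 23 →
      ‖co s z - co s w‖ ≤ (1 / 2) ^ 23 := by
    intro z w s hzw
    rw [← map_sub]
    exact (norm_co_le _ _).trans hzw.le
  have bx0 : ‖co (toFS ∅) x‖ ≤ (1 / 2) ^ 23 := by
    have := bd x ea (toFS ∅) hx
    rwa [show co (toFS ∅) ea = 0 from co_elt_other _ _ ne_single_empty, sub_zero] at this
  have by0 : ‖co (toFS ∅) y‖ ≤ (1 / 2) ^ 23 := by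
    have := bd y eb (toFS ∅) hy
    rwa [show co (toFS ∅) eb = 0 from co_elt_other _ _ ne_single_empty, sub_zero] at this
  have bx1 : ∀ p, ‖co (toFS {p}) x‖ ≤ 2 := by
    intro p
    have h1 := bd x ea (toFS {p}) hx
    have h2 : ‖co (toFS {p}) ea‖ ≤ 1 := (norm_co_le _ _).trans norm_ea
    have h3 : ‖co (toFS {p}) x‖ ≤ ‖co (toFS {p}) x - co (toFS {p}) ea‖ + ‖co (toFS {p}) ea‖ := by
      calc ‖co (toFS {p}) x‖ = ‖(co (toFS {p}) x - co (toFS {p}) ea) + co (toFS {p}) ea‖ := by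
            rw [sub_add_cancel]
        _ ≤ _ := norm_add_le _ _
    linarith
  have by1 : ∀ p, ‖co (toFS {p}) y‖ ≤ 2 := by
    intro p
    have h1 := bd y eb (toFS {p}) hy
    have h2 : ‖co (toFS {p}) eb‖ ≤ 1 := (norm_co_le _ _).trans norm_eb
    have h3 : ‖co (toFS {p}) y‖ ≤ ‖co (toFS {p}) y - co (toFS {p}) eb‖ + ‖co (toFS {p}) eb‖ := by
      calc ‖co (toFS {p}) y‖ = ‖(co (toFS {p}) y - co (toFS {p}) eb) + co (toFS {p}) eb‖ := by
            rw [sub_add_cancel]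
        _ ≤ _ := norm_add_le _ _
    linarith
  have bx2 : ∀ p q : ℕ × Fin 3, p ≠ q → ‖co (toFS {p, q}) x‖ ≤ 1 := by
    intro p q hpq
    have := bd x ea (toFS {p, q}) hx
    rw [show co (toFS {p, q}) ea = 0 from co_elt_other _ _ (ne_single_pair _ _ hpq), sub_zero] at this
    exact this.trans small
  have by2 : ∀ p q : ℕ × Fin 3, p ≠ q → ‖co (toFS {p, q}) y‖ ≤ 1 := by
    intro p q hpq
    have := bd y eb (toFS {p, q}) hy
    rw [show co (toFS {p, q}) eb = 0 from co_elt_other _ _ (ne_single_pair _ _ hpq), sub_zero] at this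
    exact this.trans small
  have ne01 : ∀ k : ℕ, ((k, 0) : ℕ × Fin 3) ≠ (k, 1) := fun k h =>
    absurd (Prod.ext_iff.1 h).2 (show ¬ ((0 : Fin 3) = 1) by decide)
  have ne02 : ∀ k : ℕ, ((k, 0) : ℕ × Fin 3) ≠ (k, 2) := fun k h =>
    absurd (Prod.ext_iff.1 h).2 (show ¬ ((0 : Fin 3) = 2) by decide)
  have ne12 : ∀ k : ℕ, ((k, 1) : ℕ × Fin 3) ≠ (k, 2) := fun k h =>
    absurd (Prod.ext_iff.1 h).2 (show ¬ ((1 : Fin 3) = 2) by decide)
  have v01 : ∀ k : ℕ, fA (k, 0) * fB (k, 1) + fA (k, 1) * fB (k, 0) = 0 := by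
    intro k
    rw [fB0, fB1, mul_zero, mul_zero, add_zero]
  have v02 : ∀ k : ℕ, fA (k, 0) * fB (k, 2) + fA (k, 2) * fB (k, 0) = ((tau k ^ 2 : ℝ) : ℂ) := by
    intro k
    rw [fB0, fB2, fA0, fA2]
    push_cast
    ring
  have v12 : ∀ k : ℕ, fA (k, 1) * fB (k, 2) + fA (k, 2) * fB (k, 1) = ((tau k ^ 2 : ℝ) : ℂ) := by
    intro k
    rw [fB1, fB2, fA1, fA2]
    push_cast
    ring
  rcases le_total ‖co (toFS ∅) y‖ ‖co (toFS ∅) x‖ with hle | hle
  · obtain ⟨k, hk, hs⟩ := stage _ (norm_pos_iff.2 ha0) bx0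
    obtain ⟨-, h1, h2⟩ := eqs x y κ h k
    refine core (co (toFS ∅) x) (co (toFS ∅) y) (kk k) (tau k) (one_le_kk k) (tau_pos k) (tau_le k)
      hb0 hle hk _ _ _ _ _ _ _ _ _ _ _ _ (bx1 (k, 0)) (bx1 (k, 1)) (bx1 (k, 2)) (by1 (k, 0))
      (by1 (k, 1)) (by1 (k, 2)) (bx2 _ _ (ne01 k)) (bx2 _ _ (ne02 k)) (bx2 _ _ (ne12 k))
      (by2 _ _ (ne01 k)) (by2 _ _ (ne02 k)) (by2 _ _ (ne12 k)) (h1 0) (h1 1) (h1 2) ?_ ?_ ?_ hs
    · rw [h2 0 1 (by decide), v01]
    · rw [h2 0 2 (by decide), v02]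
    · rw [h2 1 2 (by decide), v12]
  · obtain ⟨k, hk, hs⟩ := stage _ (norm_pos_iff.2 hb0) by0
    obtain ⟨-, h1, h2⟩ := eqs x y κ h k
    refine core (co (toFS ∅) y) (co (toFS ∅) x) (kk k) (tau k) (one_le_kk k) (tau_pos k) (tau_le k)
      ha0 hle hk _ _ _ _ _ _ _ _ _ _ _ _ (by1 (k, 0)) (by1 (k, 1)) (by1 (k, 2)) (bx1 (k, 0))
      (bx1 (k, 1)) (bx1 (k, 2)) (by2 _ _ (ne01 k)) (by2 _ _ (ne02 k)) (by2 _ _ (ne12 k))
      (bx2 _ _ (ne01 k)) (bx2 _ _ (ne02 k)) (bx2 _ _ (ne12 k)) ?_ ?_ ?_ ?_ ?_ ?_ hs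
    · linear_combination h1 0
    · linear_combination h1 1
    · linear_combination h1 2
    · have := h2 0 1 (by decide)
      rw [v01] at this
      linear_combination this
    · have := h2 0 2 (by decide)
      rw [v02] at this
      linear_combination this
    · have := h2 1 2 (by decide)
      rw [v12] at this
      linear_combination this

end Pool.Agent.H481R3.OM
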