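import Mathlib

set_option autoImplicit false

open Filter Topology Metric

namespace Pool.Agent.H481R3.SP

/-- closed unit disc -/
abbrev Dc : Type := Metric.closedBall (0 : ℂ) 1

/-- the cylinder -/
abbrev K : Type := unitInterval × Dc

open Classical in
/-- slice -/
noncomputable def sl (f : C(K, ℂ)) (t : unitInterval) (u : ℂ) : ℂ :=
  if h : u ∈ Metric.closedBall (0 : ℂ) 1 then f (t, ⟨u, h⟩) else 0

theorem sl_coe (f : C(K, ℂ)) (t : unitInterval) (u : Dc) : sl f t u = f (t, u) := by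
  unfold sl
  rw [dif_pos u.2]

theorem sl_of_mem (f : C(K, ℂ)) (t : unitInterval) (u : ℂ) (h : u ∈ Metric.closedBall (0 : ℂ) 1) :
    sl f t u = f (t, ⟨u, h⟩) := by
  unfold sl
  rw [dif_pos h]

theorem continuousOn_sl (f : C(K, ℂ)) (t : unitInterval) :
    ContinuousOn (sl f t) (Metric.closedBall (0 : ℂ) 1) := by
  rw [continuousOn_iff_continuous_restrict]
  have : (Metric.closedBall (0 : ℂ) 1).domRestrict (sl f t) = fun u : Dc => f (t, u) := by
    funext u
    exact sl_coe f t u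
  rw [this]
  exact f.continuous.comp (by fun_prop)

/-- membership -/
def Mem (f : C(K, ℂ)) : Prop :=
  (∀ t, DifferentiableOn ℂ (sl f t) (Metric.ball (0 : ℂ) 1)) ∧ ∀ u v : Dc, f (0, u) = f (0, v)

theorem mem_ball_closed {u : ℂ} (h : u ∈ Metric.ball (0 : ℂ) 1) : u ∈ Metric.closedBall (0 : ℂ) 1 :=
  Metric.ball_subset_closedBall h

/-- the algebra -/
noncomputable def AA : Subalgebra ℂ C(K, ℂ) where
  carrier := {f | Mem f}
  mul_mem' := by
    intro f g hf hg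
    refine ⟨fun t => ?_, fun u v => ?_⟩
    · refine ((hf.1 t).mul (hg.1 t)).congr (fun u hu => ?_)
      rw [Pi.mul_apply, sl_of_mem _ _ _ (mem_ball_closed hu), sl_of_mem _ _ _ (mem_ball_closed hu),
        sl_of_mem _ _ _ (mem_ball_closed hu), ContinuousMap.mul_apply]
    · rw [ContinuousMap.mul_apply, ContinuousMap.mul_apply, hf.2 u v, hg.2 u v]
  add_mem' := by
    intro f g hf hg
    refine ⟨fun t => ?_, fun u v => ?_⟩
    · refine ((hf.1 t).add (hg.1 t)).congr (fun u hu => ?_)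
      rw [Pi.add_apply, sl_of_mem _ _ _ (mem_ball_closed hu), sl_of_mem _ _ _ (mem_ball_closed hu),
        sl_of_mem _ _ _ (mem_ball_closed hu), ContinuousMap.add_apply]
    · rw [ContinuousMap.add_apply, ContinuousMap.add_apply, hf.2 u v, hg.2 u v]
  algebraMap_mem' := by
    intro c
    refine ⟨fun t => ?_, fun u v => ?_⟩
    · refine (differentiableOn_const c).congr (fun u hu => ?_)
      rw [sl_of_mem _ _ _ (mem_ball_closed hu)]
      rfl
    · rfl

theorem mem_AA (f : C(K, ℂ)) : f ∈ AA ↔ Mem f := Iff.rfl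

theorem isClosed_AA : IsClosed (AA : Set C(K, ℂ)) := by
  apply IsSeqClosed.isClosed
  intro F f hF hlim
  have hunif : ∀ ε > 0, ∀ᶠ n in atTop, ‖F n - f‖ < ε := by
    intro ε hε
    have := (Metric.tendsto_nhds.1 hlim) ε hε
    filter_upwards [this] with n hn
    rwa [dist_eq_norm] at hn
  refine ⟨fun t => ?_, fun u v => ?_⟩
  · have h1 : TendstoLocallyUniformlyOn (fun n => sl (F n) t) (sl f t) atTop (Metric.ball (0 : ℂ) 1) := by
      apply TendstoUniformlyOn.tendstoLocallyUniformlyOn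
      rw [Metric.tendstoUniformlyOn_iff]
      intro ε hε
      filter_upwards [hunif ε hε] with n hn u hu
      rw [sl_of_mem _ _ _ (mem_ball_closed hu), sl_of_mem _ _ _ (mem_ball_closed hu), dist_comm,
        dist_eq_norm]
      exact ((F n - f).norm_coe_le_norm _).trans_lt hn
    exact h1.differentiableOn (Eventually.of_forall (fun n => (hF n).1 t)) Metric.isOpen_ball
  · have h1 : ∀ x : K, Tendsto (fun n => F n x) atTop (𝓝 (f x)) := by
      intro x
      exact ((continuous_eval_const x).tendsto f).comp hlim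
    have h2 := h1 (0, u)
    have h3 := h1 (0, v)
    have h4 : (fun n => F n (0, u)) = fun n => F n (0, v) := funext (fun n => (hF n).2 u v)
    rw [h4] at h2
    exact tendsto_nhds_unique h2 h3

instance : CompleteSpace AA := isClosed_AA.completeSpace_coe

noncomputable instance : NormedCommRing AA := inferInstance
noncomputable instance : NormedAlgebra ℂ AA := inferInstance

theorem diffContOnCl_sl (f : C(K, ℂ)) (hf : Mem f) (t : unitInterval) :
    DiffContOnCl ℂ (sl f t) (Metric.ball (0 : ℂ) 1) := by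
  refine ⟨hf.1 t, ?_⟩
  rw [closure_ball (0 : ℂ) one_ne_zero]
  exact continuousOn_sl f t

theorem slice_le (f : C(K, ℂ)) (hf : Mem f) (t : unitInterval) (C : ℝ)
    (h : ∀ u : Dc, ‖(u : ℂ)‖ = 1 → ‖f (t, u)‖ ≤ C) (u : Dc) : ‖f (t, u)‖ ≤ C := by
  rw [← sl_coe]
  apply Complex.norm_le_of_forall_mem_frontier_norm_le Metric.isBounded_ball
    (diffContOnCl_sl f hf t)
  · intro z hz
    rw [frontier_ball (0 : ℂ) one_ne_zero, mem_sphere_zero_iff_norm] at hz
    have hz' : z ∈ Metric.closedBall (0 : ℂ) 1 := by rw [mem_closedBall_zero_iff]; exact hz.le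
    rw [sl_of_mem _ _ _ hz']
    exact h _ hz
  · rw [closure_ball (0 : ℂ) one_ne_zero]
    exact u.2

theorem slice_ge (f : C(K, ℂ)) (hf : Mem f) (t : unitInterval) (δ : ℝ) (hδ : 0 < δ)
    (h : ∀ u : Dc, ‖(u : ℂ)‖ = 1 → δ ≤ ‖f (t, u)‖) (hnz : ∀ u : Dc, f (t, u) ≠ 0) (u : Dc) :
    δ ≤ ‖f (t, u)‖ := by
  have h1 : DiffContOnCl ℂ (fun z => (sl f t z)⁻¹) (Metric.ball (0 : ℂ) 1) := by
    apply (diffContOnCl_sl f hf t).inv
    intro z hz
    rw [closure_ball (0 : ℂ) one_ne_zero] at hz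
    rw [sl_of_mem _ _ _ hz]
    exact hnz _
  have h2 : ‖(sl f t u)⁻¹‖ ≤ δ⁻¹ := by
    apply Complex.norm_le_of_forall_mem_frontier_norm_le Metric.isBounded_ball h1
    · intro z hz
      rw [frontier_ball (0 : ℂ) one_ne_zero, mem_sphere_zero_iff_norm] at hz
      have hz' : z ∈ Metric.closedBall (0 : ℂ) 1 := by rw [mem_closedBall_zero_iff]; exact hz.le
      rw [sl_of_mem _ _ _ hz', norm_inv]
      exact inv_anti₀ hδ (h _ hz)
    · rw [closure_ball (0 : ℂ) one_ne_zero]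
      exact u.2
  rw [sl_coe, norm_inv] at h2
  have h3 : 0 < ‖f (t, u)‖ := norm_pos_iff.2 (hnz u)
  exact (inv_le_inv₀ h3 hδ).1 h2

/-- no zeros on the lateral boundary implies no zeros -/
theorem no_zero (f : C(K, ℂ)) (hf : Mem f)
    (h : ∀ (t : unitInterval) (u : Dc), ‖(u : ℂ)‖ = 1 → f (t, u) ≠ 0) : ∀ x, f x ≠ 0 := by
  -- lower bound on the lateral boundary
  obtain ⟨δ, hδ, hδ2⟩ : ∃ δ : ℝ, 0 < δ ∧ ∀ (t : unitInterval) (u : Dc), ‖(u : ℂ)‖ = 1 → δ ≤ ‖f (t, u)‖ := by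
    let S : Set K := {x | ‖(x.2 : ℂ)‖ = 1}
    have hS : IsCompact S := by
      apply IsClosed.isCompact
      exact isClosed_eq (by fun_prop) continuous_const
    have hne : S.Nonempty := ⟨(0, ⟨1, by simp⟩), by simp [S]⟩
    obtain ⟨x, hx, hmin⟩ := hS.exists_isMinOn hne (f.continuous.norm.continuousOn)
    refine ⟨‖f x‖, norm_pos_iff.2 (h x.1 x.2 hx), fun t u hu => ?_⟩
    exact hmin (show (t, u) ∈ S from hu)
  let Z : Set unitInterval := Prod.fst '' {x : K | f x = 0}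
  have hZc : IsClosed Z := by
    apply IsCompact.isClosed
    apply IsCompact.image _ continuous_fst
    exact (isClosed_eq f.continuous continuous_const).isCompact
  have hZo : IsOpen Z := by
    have h1 : Z = Prod.fst '' {x : K | ‖f x‖ < δ} := by
      ext t
      constructor
      · rintro ⟨x, hx, rfl⟩
        refine ⟨x, ?_, rfl⟩
        rw [Set.mem_setOf_eq] at hx ⊢
        rw [hx, norm_zero]
        exact hδ
      · rintro ⟨⟨t, u⟩, hx, rfl⟩
        by_contra hcon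
        have hnz : ∀ v : Dc, f (t, v) ≠ 0 := by
          intro v hv
          exact hcon ⟨(t, v), hv, rfl⟩
        have := slice_ge f hf t δ hδ (fun v hv => hδ2 t v hv) hnz u
        rw [Set.mem_setOf_eq] at hx
        linarith
    rw [h1]
    apply isOpenMap_fst
    exact isOpen_lt f.continuous.norm continuous_const
  have h0 : (0 : unitInterval) ∉ Z := by
    rintro ⟨⟨t, u⟩, hx, ht⟩
    simp only at ht
    subst ht
    have h1 : f (0, ⟨1, by simp⟩) = 0 := by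
      rw [hf.2 _ u]
      exact hx
    exact h 0 ⟨1, by simp⟩ (by simp) h1
  have hZ : Z = ∅ := by
    rcases isClopen_iff.1 ⟨hZc, hZo⟩ with h1 | h1
    · exact h1
    · exact absurd (h1 ▸ Set.mem_univ _) h0
  intro x hx
  have : x.1 ∈ Z := ⟨x, hx, rfl⟩
  rw [hZ] at this
  exact this

/-- elements without zeros are invertible -/
theorem isUnit_of_no_zero (f : AA) (h : ∀ x, (f : C(K, ℂ)) x ≠ 0) : IsUnit f := by
  let g : C(K, ℂ) := ⟨fun x => ((f : C(K, ℂ)) x)⁻¹, (f : C(K, ℂ)).continuous.inv₀ h⟩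
  have hg : g ∈ AA := by
    refine ⟨fun t => ?_, fun u v => ?_⟩
    · have h1 : DifferentiableOn ℂ (fun z => (sl (f : C(K, ℂ)) t z)⁻¹) (Metric.ball (0 : ℂ) 1) := by
        apply (f.2.1 t).inv
        intro z hz
        rw [sl_of_mem _ _ _ (mem_ball_closed hz)]
        exact h _
      refine h1.congr (fun z hz => ?_)
      rw [sl_of_mem _ _ _ (mem_ball_closed hz), sl_of_mem _ _ _ (mem_ball_closed hz)]
      rfl
    · change ((f : C(K, ℂ)) (0, u))⁻¹ = ((f : C(K, ℂ)) (0, v))⁻¹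
      rw [f.2.2 u v]
  refine ⟨⟨f, ⟨g, hg⟩, ?_, ?_⟩, rfl⟩
  · apply Subtype.ext
    ext x
    exact mul_inv_cancel₀ (h x)
  · apply Subtype.ext
    ext x
    exact inv_mul_cancel₀ (h x)

/-- powers of a peaking function -/
theorem small_of_peak (f p : AA) (x0 : K) (hp0 : (p : C(K, ℂ)) x0 = 1)
    (hp1 : ∀ x, ‖(p : C(K, ℂ)) x‖ ≤ 1) (hp2 : ∀ x, ‖(p : C(K, ℂ)) x‖ = 1 → (f : C(K, ℂ)) x = 0)
    (ε : ℝ) (hε : 0 < ε) : ∃ g : AA, ‖g‖ = 1 ∧ ‖f * g‖ ≤ ε := by
  let S : Set K := {x | ε ≤ ‖(f : C(K, ℂ)) x‖}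
  have hS : IsCompact S :=
    (isClosed_le continuous_const (f : C(K, ℂ)).continuous.norm).isCompact
  obtain ⟨ρ, hρ0, hρ1, hρ⟩ : ∃ ρ : ℝ, 0 ≤ ρ ∧ ρ < 1 ∧ ∀ x ∈ S, ‖(p : C(K, ℂ)) x‖ ≤ ρ := by
    by_cases hne : S.Nonempty
    · obtain ⟨x, hx, hmax⟩ := hS.exists_isMaxOn hne ((p : C(K, ℂ)).continuous.norm.continuousOn)
      refine ⟨‖(p : C(K, ℂ)) x‖, norm_nonneg _, ?_, fun y hy => hmax hy⟩
      apply lt_of_le_of_ne (hp1 x)
      intro h1
      have h2 := hp2 x h1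
      have h3 : ε ≤ ‖(f : C(K, ℂ)) x‖ := hx
      rw [h2, norm_zero] at h3
      linarith
    · exact ⟨0, le_rfl, one_pos, fun x hx => absurd ⟨x, hx⟩ hne⟩
  obtain ⟨n, hn⟩ : ∃ n : ℕ, ‖(f : C(K, ℂ))‖ * ρ ^ n ≤ ε := by
    have h1 : Tendsto (fun n : ℕ => ‖(f : C(K, ℂ))‖ * ρ ^ n) atTop (𝓝 (‖(f : C(K, ℂ))‖ * 0)) :=
      (tendsto_pow_atTop_nhds_zero_of_lt_one hρ0 hρ1).const_mul _
    rw [mul_zero] at h1
    obtain ⟨n, hn⟩ := (h1.eventually (gt_mem_nhds hε)).exists
    exact ⟨n, hn.le⟩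
  refine ⟨p ^ n, ?_, ?_⟩
  · apply le_antisymm
    · change ‖((p ^ n : AA) : C(K, ℂ))‖ ≤ 1
      rw [ContinuousMap.norm_le _ zero_le_one]
      intro x
      change ‖((p : C(K, ℂ)) x) ^ n‖ ≤ 1
      rw [norm_pow]
      exact pow_le_one₀ (norm_nonneg _) (hp1 x)
    · have h1 := ((p ^ n : AA) : C(K, ℂ)).norm_coe_le_norm x0
      have h2 : ((p ^ n : AA) : C(K, ℂ)) x0 = 1 := by
        change ((p : C(K, ℂ)) x0) ^ n = 1
        rw [hp0, one_pow]
      rw [h2, norm_one] at h1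
      exact h1
  · change ‖(f : C(K, ℂ)) * ((p ^ n : AA) : C(K, ℂ))‖ ≤ ε
    rw [ContinuousMap.norm_le _ hε.le]
    intro x
    change ‖(f : C(K, ℂ)) x * ((p : C(K, ℂ)) x) ^ n‖ ≤ ε
    rw [norm_mul, norm_pow]
    by_cases hx : x ∈ S
    · refine le_trans ?_ hn
      exact mul_le_mul ((f : C(K, ℂ)).norm_coe_le_norm x)
        (pow_le_pow_left₀ (norm_nonneg _) (hρ x hx) n) (by positivity) (norm_nonneg _)
    · have h1 : ‖(f : C(K, ℂ)) x‖ < ε := not_le.1 hx
      calc ‖(f : C(K, ℂ)) x‖ * ‖(p : C(K, ℂ)) x‖ ^ n ≤ ε * 1 :=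
            mul_le_mul h1.le (pow_le_one₀ (norm_nonneg _) (hp1 x)) (by positivity) hε.le
        _ = ε := mul_one _

end Pool.Agent.H481R3.SP
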