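import Mathlib
import Pool.Agent.H481R3.SP

set_option autoImplicit false

open Filter Topology Metric

namespace Pool.Agent.H481R3.SP

/-- a polynomial in the disc variable with coefficients depending on `t` -/
theorem mem_poly (a b : C(unitInterval, ℂ)) (hb : b 0 = 0) :
    Mem ⟨fun x : K => a x.1 + b x.1 * (x.2 : ℂ), by fun_prop⟩ := by
  refine ⟨fun t => ?_, fun u v => ?_⟩
  · have h1 : DifferentiableOn ℂ (fun z : ℂ => a t + b t * z) (Metric.ball (0 : ℂ) 1) := by
      fun_prop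
    refine h1.congr (fun z hz => ?_)
    rw [sl_of_mem _ _ _ (mem_ball_closed hz)]
    rfl
  · change a 0 + b 0 * (u : ℂ) = a 0 + b 0 * (v : ℂ)
    rw [hb]
    ring

theorem norm_one_add (w : ℂ) (hw : ‖w‖ ≤ 1) (h : ‖1 + w‖ = 2) : w = 1 := by
  have h1 : ‖1 + w‖ ^ 2 = 4 := by rw [h]; norm_num
  have h2 : ‖w‖ ^ 2 ≤ 1 := pow_le_one₀ (norm_nonneg _) hw
  rw [← Complex.normSq_eq_norm_sq, Complex.normSq_apply] at h1 h2
  simp only [Complex.add_re, Complex.one_re, Complex.add_im, Complex.one_im, zero_add] at h1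
  apply Complex.ext
  · rw [Complex.one_re]; nlinarith [sq_nonneg w.im, sq_nonneg (w.re - 1)]
  · rw [Complex.one_im]
    have h3 : w.re ≤ 1 := by nlinarith [sq_nonneg w.im]
    have h4 : w.im * w.im ≤ 0 := by nlinarith
    have h5 : w.im * w.im = 0 := le_antisymm h4 (mul_self_nonneg _)
    exact mul_self_eq_zero.1 h5

theorem exists_small (f : AA) (hf : ¬ IsUnit f) (ε : ℝ) (hε : 0 < ε) :
    ∃ g : AA, ‖g‖ = 1 ∧ ‖f * g‖ ≤ ε := by
  obtain ⟨t0, u0, hu0, hz⟩ : ∃ (t : unitInterval) (u : Dc), ‖(u : ℂ)‖ = 1 ∧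
      (f : C(K, ℂ)) (t, u) = 0 := by
    by_contra hcon
    push Not at hcon
    exact hf (isUnit_of_no_zero f (no_zero f f.2 hcon))
  by_cases ht0 : t0 = 0
  · subst ht0
    let a : C(unitInterval, ℂ) := ⟨fun t => ((1 - (t : ℝ) : ℝ) : ℂ), by fun_prop⟩
    have hm := mem_poly a 0 rfl
    refine small_of_peak f ⟨_, hm⟩ (0, u0) ?_ ?_ ?_ ε hε
    · change ((1 - ((0 : unitInterval) : ℝ) : ℝ) : ℂ) + 0 * _ = 1
      simp
    · rintro ⟨t, u⟩
      change ‖((1 - (t : ℝ) : ℝ) : ℂ) + 0 * _‖ ≤ 1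
      rw [zero_mul, add_zero, Complex.norm_real, Real.norm_eq_abs, abs_le]
      have := t.2.1
      have := t.2.2
      constructor <;> linarith
    · rintro ⟨t, u⟩ hx
      change ‖((1 - (t : ℝ) : ℝ) : ℂ) + 0 * _‖ = 1 at hx
      rw [zero_mul, add_zero, Complex.norm_real, Real.norm_eq_abs,
        abs_of_nonneg (by have := t.2.2; linarith)] at hx
      have h1 : t = 0 := by
        apply Subtype.ext
        change (t : ℝ) = 0
        linarith
      rw [h1, f.2.2 u u0]
      exact hz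
  · have ht0' : 0 < (t0 : ℝ) := lt_of_le_of_ne t0.2.1 (fun h => ht0 (Subtype.ext h.symm))
    let s : unitInterval → ℝ := fun t => min ((t : ℝ) / t0) 1
    have hs0 : ∀ t, 0 ≤ s t := fun t => le_min (div_nonneg t.2.1 ht0'.le) zero_le_one
    have hs1 : ∀ t, s t ≤ 1 := fun t => min_le_right _ _
    have hsc : Continuous s := by
      simp only [s]
      fun_prop
    let c : unitInterval → ℝ := fun t => 1 - |(t : ℝ) - t0|
    have hcc : Continuous c := by
      simp only [c]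
      fun_prop
    have hc0 : ∀ t, 0 ≤ c t := by
      intro t
      simp only [c]
      have h1 : |(t : ℝ) - t0| ≤ 1 := by
        rw [abs_le]
        have := t.2.1; have := t.2.2; have := t0.2.1; have := t0.2.2
        constructor <;> linarith
      linarith
    have hc1 : ∀ t, c t ≤ 1 := by
      intro t
      simp only [c]
      have := abs_nonneg ((t : ℝ) - t0)
      linarith
    let a : C(unitInterval, ℂ) := ⟨fun t => ((c t / 2 : ℝ) : ℂ), by fun_prop⟩
    let b : C(unitInterval, ℂ) := ⟨fun t => ((c t / 2 * s t : ℝ) : ℂ) * (starRingEnd ℂ) (u0 : ℂ),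
      by fun_prop⟩
    have hb0 : b 0 = 0 := by
      change ((c 0 / 2 * s 0 : ℝ) : ℂ) * (starRingEnd ℂ) (u0 : ℂ) = 0
      have : s 0 = 0 := by simp [s]
      rw [this]
      simp
    have hm := mem_poly a b hb0
    have hval : ∀ (t : unitInterval) (u : Dc), a t + b t * (u : ℂ) =
        ((c t / 2 : ℝ) : ℂ) * (1 + (s t : ℂ) * ((starRingEnd ℂ) (u0 : ℂ) * u)) := by
      intro t u
      change ((c t / 2 : ℝ) : ℂ) + ((c t / 2 * s t : ℝ) : ℂ) * (starRingEnd ℂ) (u0 : ℂ) * u = _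
      push_cast
      ring
    have hnw : ∀ (t : unitInterval) (u : Dc), ‖(s t : ℂ) * ((starRingEnd ℂ) (u0 : ℂ) * u)‖ ≤ 1 := by
      intro t u
      rw [norm_mul, norm_mul, Complex.norm_real, Real.norm_of_nonneg (hs0 t), Complex.norm_conj,
        hu0, one_mul]
      have hu : ‖(u : ℂ)‖ ≤ 1 := mem_closedBall_zero_iff.1 u.2
      calc s t * ‖(u : ℂ)‖ ≤ 1 * 1 := mul_le_mul (hs1 t) hu (norm_nonneg _) zero_le_one
        _ = 1 := one_mul 1
    refine small_of_peak f ⟨_, hm⟩ (t0, u0) ?_ ?_ ?_ ε hε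
    · change a t0 + b t0 * (u0 : ℂ) = 1
      rw [hval]
      have h1 : c t0 = 1 := by simp [c]
      have h2 : s t0 = 1 := by simp [s, div_self ht0'.ne']
      have h3 : (starRingEnd ℂ) (u0 : ℂ) * (u0 : ℂ) = 1 := by
        rw [Complex.conj_mul', hu0]; simp
      rw [h1, h2, h3]
      norm_num
    · rintro ⟨t, u⟩
      change ‖a t + b t * (u : ℂ)‖ ≤ 1
      rw [hval, norm_mul, Complex.norm_real, Real.norm_of_nonneg (by have := hc0 t; linarith)]
      have h1 : ‖1 + (s t : ℂ) * ((starRingEnd ℂ) (u0 : ℂ) * u)‖ ≤ 1 + 1 :=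
        (norm_add_le _ _).trans (add_le_add norm_one.le (hnw t u))
      calc c t / 2 * ‖1 + (s t : ℂ) * ((starRingEnd ℂ) (u0 : ℂ) * u)‖ ≤ c t / 2 * (1 + 1) :=
            mul_le_mul_of_nonneg_left h1 (by have := hc0 t; linarith)
        _ = c t := by ring
        _ ≤ 1 := hc1 t
    · rintro ⟨t, u⟩ hx
      change ‖a t + b t * (u : ℂ)‖ = 1 at hx
      rw [hval, norm_mul, Complex.norm_real, Real.norm_of_nonneg (by have := hc0 t; linarith)] at hx
      have h1 : ‖1 + (s t : ℂ) * ((starRingEnd ℂ) (u0 : ℂ) * u)‖ ≤ 2 := by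
        refine (norm_add_le _ _).trans ?_
        have := hnw t u
        rw [norm_one]
        linarith
      have h2 : c t = 1 := by
        have := hc0 t; have := hc1 t
        nlinarith
      have h3 : ‖1 + (s t : ℂ) * ((starRingEnd ℂ) (u0 : ℂ) * u)‖ = 2 := by
        rw [h2] at hx; linarith
      have h4 : t = t0 := by
        simp only [c] at h2
        have h5 : |(t : ℝ) - t0| = 0 := by linarith
        apply Subtype.ext
        exact sub_eq_zero.1 (abs_eq_zero.1 h5)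
      have h6 := norm_one_add _ (hnw t u) h3
      have h7 : s t = 1 := by rw [h4]; simp [s, div_self ht0'.ne']
      rw [h7, Complex.ofReal_one, one_mul] at h6
      have h8 : (u : ℂ) = u0 := by
        have h9 : (u0 : ℂ) * (starRingEnd ℂ) (u0 : ℂ) = 1 := by
          rw [Complex.mul_conj', hu0]; simp
        calc (u : ℂ) = ((u0 : ℂ) * (starRingEnd ℂ) (u0 : ℂ)) * u := by rw [h9, one_mul]
          _ = u0 * ((starRingEnd ℂ) (u0 : ℂ) * u) := by ring
          _ = u0 := by rw [h6, mul_one]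
      have h10 : u = u0 := Subtype.ext h8
      rw [h4, h10]
      exact hz

/-- spectral permanence from topological divisors of zero -/
theorem perm_of_small {A : Type*} [NormedCommRing A] [NormedAlgebra ℂ A]
    (h : ∀ x : A, ¬ IsUnit x → ∀ ε : ℝ, 0 < ε → ∃ g : A, ‖g‖ = 1 ∧ ‖x * g‖ ≤ ε)
    {B : Type*} [NormedCommRing B] [NormedAlgebra ℂ B] (j : A →ₐ[ℂ] B) (hj : IsEmbedding j)
    (x : A) : spectrum ℂ (j x) = spectrum ℂ x := by
  apply Set.Subset.antisymm
  · exact AlgHom.spectrum_apply_subset j x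
  · intro z hz hu
    rw [spectrum.mem_iff] at hz
    choose S hS1 hS2 using fun n : ℕ => h _ hz (1 / ((n : ℝ) + 1)) (by positivity)
    have h1 : Tendsto (fun n => (algebraMap ℂ A z - x) * S n) atTop (𝓝 0) := by
      apply squeeze_zero_norm hS2
      exact tendsto_one_div_add_atTop_nhds_zero_nat
    have h2 : Tendsto (fun n => j ((algebraMap ℂ A z - x) * S n)) atTop (𝓝 (j 0)) :=
      (hj.continuous.tendsto 0).comp h1
    rw [spectrum.mem_resolventSet_iff] at hu
    obtain ⟨b, hb⟩ := hu.exists_left_inv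
    have h3 := h2.const_mul b
    have h4 : (fun n => b * j ((algebraMap ℂ A z - x) * S n)) = fun n => j (S n) := by
      funext n
      rw [map_mul, map_sub, AlgHom.commutes, ← mul_assoc, hb, one_mul]
    rw [h4, map_zero, mul_zero, ← map_zero j] at h3
    have h5 : Tendsto S atTop (𝓝 0) := hj.tendsto_nhds_iff.2 h3
    have h6 := h5.norm
    simp_rw [hS1, norm_zero] at h6
    exact one_ne_zero (tendsto_nhds_unique tendsto_const_nhds h6)

/-! ### the lateral boundary -/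

/-- the lateral boundary -/
abbrev Lb : Type := unitInterval × Circle

/-- inclusion of the lateral boundary -/
def inc : C(Lb, K) where
  toFun x := (x.1, ⟨(x.2 : ℂ), by rw [mem_closedBall_zero_iff]; exact (Circle.norm_coe _).le⟩)
  continuous_toFun := by
    apply Continuous.prodMk continuous_fst
    exact Continuous.subtype_mk (continuous_subtype_val.comp continuous_snd) _

/-- restriction to the lateral boundary -/
noncomputable def res : AA →ₐ[ℂ] C(Lb, ℂ) :=
  (ContinuousMap.compRightAlgHom ℂ ℂ inc).comp AA.val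

theorem res_apply (f : AA) (x : Lb) : res f x = (f : C(K, ℂ)) (inc x) := rfl

theorem norm_res (f : AA) : ‖res f‖ = ‖f‖ := by
  apply le_antisymm
  · rw [ContinuousMap.norm_le _ (norm_nonneg _)]
    intro x
    rw [res_apply]
    exact (f : C(K, ℂ)).norm_coe_le_norm _
  · change ‖(f : C(K, ℂ))‖ ≤ ‖res f‖
    rw [ContinuousMap.norm_le _ (norm_nonneg _)]
    rintro ⟨t, u⟩
    apply slice_le f f.2 t
    intro v hv
    have h1 := (res f).norm_coe_le_norm (t, ⟨(v : ℂ), mem_sphere_zero_iff_norm.2 hv⟩)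
    exact h1

theorem isometry_res : Isometry res := by
  apply AddMonoidHomClass.isometry_of_norm
  exact norm_res

/-- evaluation at the centre of the top disc -/
noncomputable def ev0 : AA →ₐ[ℂ] ℂ :=
  (ContinuousMap.evalAlgHom ℂ ℂ ((1, ⟨0, by simp⟩) : K)).comp AA.val

theorem ev0_apply (f : AA) : ev0 f = (f : C(K, ℂ)) (1, ⟨0, by simp⟩) := rfl

theorem no_extension (ψ : C(Lb, ℂ) →ₐ[ℂ] ℂ) : ψ.comp res ≠ ev0 := by
  intro h
  let c1 : C(unitInterval, ℂ) := ⟨fun t => ((t : ℝ) : ℂ), by fun_prop⟩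
  have hc1 : c1 0 = 0 := by simp [c1]
  let x1 : AA := ⟨_, mem_poly 0 c1 hc1⟩
  let c2 : C(unitInterval, ℂ) := ⟨fun t => ((1 - (t : ℝ) : ℝ) : ℂ), by fun_prop⟩
  let x2 : AA := ⟨_, mem_poly c2 0 rfl⟩
  have e1 : ψ (res x1) = 0 := by
    have : ψ (res x1) = ev0 x1 := DFunLike.congr_fun h x1
    rw [this, ev0_apply]
    change (0 : C(unitInterval, ℂ)) 1 + c1 1 * (0 : ℂ) = 0
    simp
  have e2 : ψ (res x2) = 0 := by
    have : ψ (res x2) = ev0 x2 := DFunLike.congr_fun h x2
    rw [this, ev0_apply]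
    change ((1 - ((1 : unitInterval) : ℝ) : ℝ) : ℂ) + (0 : C(unitInterval, ℂ)) 1 * (0 : ℂ) = 0
    simp
  have hv1 : ∀ x : Lb, res x1 x = ((x.1 : ℝ) : ℂ) * (x.2 : ℂ) := by
    intro x
    change (0 : C(unitInterval, ℂ)) x.1 + ((x.1 : ℝ) : ℂ) * (x.2 : ℂ) = _
    simp
  have hv2 : ∀ x : Lb, res x2 x = ((1 - (x.1 : ℝ) : ℝ) : ℂ) := by
    intro x
    change ((1 - (x.1 : ℝ) : ℝ) : ℂ) + (0 : C(unitInterval, ℂ)) x.1 * (x.2 : ℂ) = _
    simp
  have hw : ψ (star (res x1) * res x1 + res x2 * res x2) = 0 := by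
    rw [map_add, map_mul, map_mul, e1, e2]
    simp
  have hne : ∀ x : Lb, (star (res x1) * res x1 + res x2 * res x2) x ≠ 0 := by
    intro x
    rw [ContinuousMap.add_apply, ContinuousMap.mul_apply, ContinuousMap.mul_apply,
      ContinuousMap.star_apply, hv1, hv2]
    have h1 : star (((x.1 : ℝ) : ℂ) * (x.2 : ℂ)) * (((x.1 : ℝ) : ℂ) * (x.2 : ℂ)) =
        (((x.1 : ℝ) ^ 2 : ℝ) : ℂ) := by
      change (starRingEnd ℂ) (((x.1 : ℝ) : ℂ) * (x.2 : ℂ)) * (((x.1 : ℝ) : ℂ) * (x.2 : ℂ)) = _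
      rw [Complex.conj_mul', norm_mul, Circle.norm_coe, mul_one, Complex.norm_real,
        Real.norm_eq_abs, ← Complex.ofReal_pow, sq_abs]
    rw [h1, ← Complex.ofReal_mul, ← Complex.ofReal_add]
    intro h2
    have h3 : (x.1 : ℝ) ^ 2 + (1 - (x.1 : ℝ)) * (1 - (x.1 : ℝ)) = 0 := by exact_mod_cast h2
    nlinarith [sq_nonneg ((x.1 : ℝ) - 1 / 2)]
  let w : C(Lb, ℂ) := star (res x1) * res x1 + res x2 * res x2
  let v : C(Lb, ℂ) := ⟨fun x => (w x)⁻¹, w.continuous.inv₀ hne⟩
  have hwv : w * v = 1 := by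
    ext x
    exact mul_inv_cancel₀ (hne x)
  have h4 : ψ (w * v) = 1 := by rw [hwv, map_one]
  rw [map_mul, show ψ w = 0 from hw, zero_mul] at h4
  exact zero_ne_one h4

end Pool.Agent.H481R3.SP
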